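import Pool.Agent.Work.MP_e487d8_al.Pbw.Glue

/-! MP_e487d8_al, PBW block: recursion for `rV` and balancedness of `iota`. -/

set_option autoImplicit false

namespace Pool.Agent.KLR

variable {K I : Type} [Field K] [Fintype I] [DecidableEq I]

namespace Pbw

variable {D : Datum K I} {P : Type} [AddCommGroup P] [Module K P]

open Loc

namespace Bal

/-! ### values of `rV` -/

theorem rV_e (h : S_rels D) (d : Loc D P) (k : ℕ) (i : I) : rV h d (D.e k i) = opE k i d :=
  liftHom_e _ k i
theorem rV_x (h : S_rels D) (d : Loc D P) (k : ℕ) : rV h d (D.x k) = opX k d := liftHom_x _ k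
theorem rV_t (h : S_rels D) (d : Loc D P) (k : ℕ) : rV h d (D.t k) = opT k d := liftHom_t _ k

theorem rV_tl_false (h : S_rels D) (d : Loc D P) (a : KLRAlg D) : ∀ f : List Bool → P,
    tl (K := K) false (rV h d (D.shn 1 a) f) = rV h d.shF a (tl (K := K) false f) := by
  refine KLRAlg.induction (P := fun a => ∀ f : List Bool → P,
    tl (K := K) false (rV h d (D.shn 1 a) f) = rV h d.shF a (tl (K := K) false f))
    ?_ ?_ ?_ ?_ ?_ ?_ a
  · intro r f
    rw [AlgHom.commutes, AlgHom.commutes, AlgHom.commutes, Module.algebraMap_end_apply,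
      Module.algebraMap_end_apply, map_smul]
  · intro k i f
    rw [D.shn_e, rV_e, rV_e, Nat.add_comm 1 k]
    rfl
  · intro k f
    rw [D.shn_x, rV_x, rV_x, Nat.add_comm 1 k]
    rfl
  · intro k f
    rw [D.shn_t, rV_t, rV_t, Nat.add_comm 1 k]
    rfl
  · intro a b ha hb f
    rw [map_add, map_add, map_add, LinearMap.add_apply, LinearMap.add_apply, map_add, ha, hb]
  · intro a b ha hb f
    rw [map_mul, map_mul, map_mul, Module.End.mul_apply, Module.End.mul_apply, ha, hb]

theorem rV_tl_true (h : S_rels D) (d : Loc D P) (a : KLRAlg D) : ∀ f : List Bool → P,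
    tl (K := K) true (rV h d (D.shn 1 a) f) = rV h d.shT a (tl (K := K) true f) := by
  refine KLRAlg.induction (P := fun a => ∀ f : List Bool → P,
    tl (K := K) true (rV h d (D.shn 1 a) f) = rV h d.shT a (tl (K := K) true f))
    ?_ ?_ ?_ ?_ ?_ ?_ a
  · intro r f
    rw [AlgHom.commutes, AlgHom.commutes, AlgHom.commutes, Module.algebraMap_end_apply,
      Module.algebraMap_end_apply, map_smul]
  · intro k i f
    rw [D.shn_e, rV_e, rV_e, Nat.add_comm 1 k]
    rfl
  · intro k f
    rw [D.shn_x, rV_x, rV_x, Nat.add_comm 1 k]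
    rfl
  · intro k f
    rw [D.shn_t, rV_t, rV_t, Nat.add_comm 1 k]
    rfl
  · intro a b ha hb f
    rw [map_add, map_add, map_add, LinearMap.add_apply, LinearMap.add_apply, map_add, ha, hb]
  · intro a b ha hb f
    rw [map_mul, map_mul, map_mul, Module.End.mul_apply, Module.End.mul_apply, ha, hb]

theorem rV_nil (h : S_rels D) (d : Loc D P) (a : KLRAlg D) : ∀ f : List Bool → P, f [] = 0 →
    rV h d a f [] = 0 := by
  refine KLRAlg.induction (P := fun a => ∀ f : List Bool → P, f [] = 0 → rV h d a f [] = 0)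
    ?_ ?_ ?_ ?_ ?_ ?_ a
  · intro r f hf
    rw [AlgHom.commutes, Module.algebraMap_end_apply, Pi.smul_apply, hf, smul_zero]
  · intro k i f _
    rw [rV_e, opE_nil]
  · intro k f _
    rw [rV_x, opX_nil]
  · intro k f _
    rw [rV_t, opT_nil]
  · intro a b ha hb f hf
    rw [map_add, LinearMap.add_apply, Pi.add_apply, ha f hf, hb f hf, add_zero]
  · intro a b ha hb f hf
    rw [map_mul, Module.End.mul_apply]
    exact ha _ (hb f hf)

end Bal

theorem prf_rV (D : Datum K I) : S_rV D := by
  intro h P _ _ d a f w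
  exact ⟨congrFun (Bal.rV_tl_false h d a f) w, congrFun (Bal.rV_tl_true h d a f) w,
    Bal.rV_nil h d a f⟩

namespace Bal

/-! ### `iota` -/

theorem iota_apply (m n : ℕ) (p : P) (w : List Bool) : iota (K := K) m n p w =
    if w = List.replicate m false ++ List.replicate n true then p else 0 := rfl

theorem tlF_iota_succ (m n : ℕ) (p : P) :
    tl (K := K) false (iota (K := K) (m + 1) n p) = iota (K := K) m n p := by
  funext w
  rw [tl_apply, iota_apply, iota_apply, List.replicate_succ, List.cons_append]
  simp only [List.cons.injEq, true_and]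

theorem tlT_iota_succ (m n : ℕ) (p : P) :
    tl (K := K) true (iota (K := K) (m + 1) n p) = 0 := by
  funext w
  rw [tl_apply, iota_apply, List.replicate_succ, List.cons_append, if_neg]
  · rfl
  · simp

theorem tlT_iota_zero (n : ℕ) (p : P) :
    tl (K := K) true (iota (K := K) 0 (n + 1) p) = iota (K := K) 0 n p := by
  funext w
  rw [tl_apply, iota_apply, iota_apply, List.replicate_succ]
  simp only [List.replicate_zero, List.nil_append, List.cons.injEq, true_and]

theorem tlF_iota_zero (n : ℕ) (p : P) :
    tl (K := K) false (iota (K := K) 0 n p) = 0 := by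
  funext w
  rw [tl_apply, iota_apply, if_neg]
  · rfl
  · cases n with
    | zero => simp
    | succ n => simp [List.replicate_succ]

theorem tlT_iota_zero_zero (p : P) :
    tl (K := K) true (iota (K := K) 0 0 p) = 0 := by
  funext w
  rw [tl_apply, iota_apply, if_neg]
  · rfl
  · simp

theorem iota_nil_succ (m n : ℕ) (p : P) : iota (K := K) (m + 1) n p [] = 0 := by
  rw [iota_apply, List.replicate_succ, List.cons_append, if_neg]
  simp

theorem iota_nil_zero (n : ℕ) (p : P) : iota (K := K) 0 (n + 1) p [] = 0 := by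
  rw [iota_apply, List.replicate_succ, if_neg]
  simp

theorem post_iota (g : Module.End K P) (m n : ℕ) (p : P) :
    post g (iota (K := K) m n p) = iota (K := K) m n (g p) := by
  funext w
  rw [post_apply, iota_apply, iota_apply, apply_ite g, map_zero]

/-! ### generators, first action -/

theorem opE_iota (i : I) (n : ℕ) (p : P) (k : ℕ) : ∀ (m : ℕ) (d : Loc D P), k < m →
    opE k i d (iota (K := K) m n p) = iota (K := K) m n (d.r1 (D.e k i) p) := by
  induction k with
  | zero =>
    intro m d hm
    obtain ⟨m, rfl⟩ : ∃ m', m = m' + 1 := ⟨m - 1, by omega⟩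
    apply ext_tl (K := K)
    · rw [opE_nil, iota_nil_succ]
    · rw [opE_zero, tl_glue_false, tlF_iota_succ, tlF_iota_succ, post_iota]
    · rw [opE_zero, tl_glue_true, tlT_iota_succ, tlT_iota_succ, map_zero]
  | succ k ih =>
    intro m d hm
    obtain ⟨m, rfl⟩ : ∃ m', m = m' + 1 := ⟨m - 1, by omega⟩
    apply ext_tl (K := K)
    · rw [opE_nil, iota_nil_succ]
    · rw [opE_succ, tl_glue_false, tlF_iota_succ, tlF_iota_succ, ih m d.shF (by omega), shF_r1,
        D.shn_e, Nat.add_comm 1 k]
    · rw [opE_succ, tl_glue_true, tlT_iota_succ, tlT_iota_succ, map_zero]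

theorem opX_iota (n : ℕ) (p : P) (k : ℕ) : ∀ (m : ℕ) (d : Loc D P), k < m →
    opX k d (iota (K := K) m n p) = iota (K := K) m n (d.r1 (D.x k) p) := by
  induction k with
  | zero =>
    intro m d hm
    obtain ⟨m, rfl⟩ : ∃ m', m = m' + 1 := ⟨m - 1, by omega⟩
    apply ext_tl (K := K)
    · rw [opX_nil, iota_nil_succ]
    · rw [opX_zero, tl_glue_false, tlF_iota_succ, tlF_iota_succ, post_iota]
    · rw [opX_zero, tl_glue_true, tlT_iota_succ, tlT_iota_succ, map_zero]
  | succ k ih =>
    intro m d hm
    obtain ⟨m, rfl⟩ : ∃ m', m = m' + 1 := ⟨m - 1, by omega⟩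
    apply ext_tl (K := K)
    · rw [opX_nil, iota_nil_succ]
    · rw [opX_succ, tl_glue_false, tlF_iota_succ, tlF_iota_succ, ih m d.shF (by omega), shF_r1,
        D.shn_x, Nat.add_comm 1 k]
    · rw [opX_succ, tl_glue_true, tlT_iota_succ, tlT_iota_succ, map_zero]

theorem opT_iota (n : ℕ) (p : P) (k : ℕ) : ∀ (m : ℕ) (d : Loc D P), k + 1 < m →
    opT k d (iota (K := K) m n p) = iota (K := K) m n (d.r1 (D.t k) p) := by
  induction k with
  | zero =>
    intro m d hm
    obtain ⟨m, rfl⟩ : ∃ m', m = m' + 2 := ⟨m - 2, by omega⟩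
    have hr : List.replicate (m + 2) false ++ List.replicate n true =
        false :: false :: (List.replicate m false ++ List.replicate n true) := by
      rw [List.replicate_succ, List.replicate_succ]
      rfl
    funext w
    rw [opT_zero]
    match w with
    | [] => rw [T0_nil, iota_apply, hr, if_neg (by simp)]
    | [b] => rw [T0_one, iota_apply, hr, if_neg (by simp)]
    | false :: false :: w =>
      rw [T0_FF, iota_apply, iota_apply, apply_ite (d.r1 (D.t 0)), map_zero]
    | true :: true :: w =>
      rw [T0_TT, iota_apply, iota_apply, hr, if_neg (by simp), if_neg (by simp), map_zero]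
    | false :: true :: w =>
      rw [T0_FT, iota_apply, iota_apply, iota_apply, hr, if_neg (by simp), if_neg (by simp),
        if_neg (by simp), map_zero, map_zero, sub_zero]
    | true :: false :: w =>
      rw [T0_TF, iota_apply, iota_apply, iota_apply, hr, if_neg (by simp), if_neg (by simp),
        if_neg (by simp), map_zero, map_zero, add_zero]
  | succ k ih =>
    intro m d hm
    obtain ⟨m, rfl⟩ : ∃ m', m = m' + 1 := ⟨m - 1, by omega⟩
    apply ext_tl (K := K)
    · rw [opT_nil, iota_nil_succ]
    · rw [opT_succ, tl_glue_false, tlF_iota_succ, tlF_iota_succ, ih m d.shF (by omega), shF_r1,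
        D.shn_t, Nat.add_comm 1 k]
    · rw [opT_succ, tl_glue_true, tlT_iota_succ, tlT_iota_succ, map_zero]

/-! ### generators, second action -/

theorem opE_iota' (i : I) (p : P) (k : ℕ) : ∀ (n : ℕ) (d : Loc D P), k < n →
    opE k i d (iota (K := K) 0 n p) = iota (K := K) 0 n (d.r2 (D.e k i) p) := by
  induction k with
  | zero =>
    intro n d hn
    obtain ⟨n, rfl⟩ : ∃ n', n = n' + 1 := ⟨n - 1, by omega⟩
    apply ext_tl (K := K)
    · rw [opE_nil, iota_nil_zero]
    · rw [opE_zero, tl_glue_false, tlF_iota_zero, tlF_iota_zero, map_zero]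
    · rw [opE_zero, tl_glue_true, tlT_iota_zero, tlT_iota_zero, post_iota]
  | succ k ih =>
    intro n d hn
    obtain ⟨n, rfl⟩ : ∃ n', n = n' + 1 := ⟨n - 1, by omega⟩
    apply ext_tl (K := K)
    · rw [opE_nil, iota_nil_zero]
    · rw [opE_succ, tl_glue_false, tlF_iota_zero, tlF_iota_zero, map_zero]
    · rw [opE_succ, tl_glue_true, tlT_iota_zero, tlT_iota_zero, ih n d.shT (by omega), shT_r2,
        D.shn_e, Nat.add_comm 1 k]

theorem opX_iota' (p : P) (k : ℕ) : ∀ (n : ℕ) (d : Loc D P), k < n →
    opX k d (iota (K := K) 0 n p) = iota (K := K) 0 n (d.r2 (D.x k) p) := by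
  induction k with
  | zero =>
    intro n d hn
    obtain ⟨n, rfl⟩ : ∃ n', n = n' + 1 := ⟨n - 1, by omega⟩
    apply ext_tl (K := K)
    · rw [opX_nil, iota_nil_zero]
    · rw [opX_zero, tl_glue_false, tlF_iota_zero, tlF_iota_zero, map_zero]
    · rw [opX_zero, tl_glue_true, tlT_iota_zero, tlT_iota_zero, post_iota]
  | succ k ih =>
    intro n d hn
    obtain ⟨n, rfl⟩ : ∃ n', n = n' + 1 := ⟨n - 1, by omega⟩
    apply ext_tl (K := K)
    · rw [opX_nil, iota_nil_zero]
    · rw [opX_succ, tl_glue_false, tlF_iota_zero, tlF_iota_zero, map_zero]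
    · rw [opX_succ, tl_glue_true, tlT_iota_zero, tlT_iota_zero, ih n d.shT (by omega), shT_r2,
        D.shn_x, Nat.add_comm 1 k]

theorem opT_iota' (p : P) (k : ℕ) : ∀ (n : ℕ) (d : Loc D P), k + 1 < n →
    opT k d (iota (K := K) 0 n p) = iota (K := K) 0 n (d.r2 (D.t k) p) := by
  induction k with
  | zero =>
    intro n d hn
    obtain ⟨n, rfl⟩ : ∃ n', n = n' + 2 := ⟨n - 2, by omega⟩
    have hr : List.replicate 0 false ++ List.replicate (n + 2) true =
        true :: true :: List.replicate n true := by
      rw [List.replicate_succ, List.replicate_succ]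
      rfl
    funext w
    rw [opT_zero]
    match w with
    | [] => rw [T0_nil, iota_apply, hr, if_neg (by simp)]
    | [b] => rw [T0_one, iota_apply, hr, if_neg (by simp)]
    | true :: true :: w =>
      rw [T0_TT, iota_apply, iota_apply, apply_ite (d.r2 (D.t 0)), map_zero]
    | false :: false :: w =>
      rw [T0_FF, iota_apply, iota_apply, hr, if_neg (by simp), if_neg (by simp), map_zero]
    | false :: true :: w =>
      rw [T0_FT, iota_apply, iota_apply, iota_apply, hr, if_neg (by simp), if_neg (by simp),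
        if_neg (by simp), map_zero, map_zero, sub_zero]
    | true :: false :: w =>
      rw [T0_TF, iota_apply, iota_apply, iota_apply, hr, if_neg (by simp), if_neg (by simp),
        if_neg (by simp), map_zero, map_zero, add_zero]
  | succ k ih =>
    intro n d hn
    obtain ⟨n, rfl⟩ : ∃ n', n = n' + 1 := ⟨n - 1, by omega⟩
    apply ext_tl (K := K)
    · rw [opT_nil, iota_nil_zero]
    · rw [opT_succ, tl_glue_false, tlF_iota_zero, tlF_iota_zero, map_zero]
    · rw [opT_succ, tl_glue_true, tlT_iota_zero, tlT_iota_zero, ih n d.shT (by omega), shT_r2,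
        D.shn_t, Nat.add_comm 1 k]

/-! ### generators beyond the last strand -/

theorem opE_iota_out (i : I) (p : P) (k : ℕ) : ∀ (n : ℕ) (d : Loc D P), n ≤ k →
    opE k i d (iota (K := K) 0 n p) = 0 := by
  induction k with
  | zero =>
    intro n d hn
    obtain rfl : n = 0 := by omega
    apply ext_tl (K := K)
    · rw [opE_nil]; rfl
    · rw [opE_zero, tl_glue_false, tlF_iota_zero, map_zero, map_zero]
    · rw [opE_zero, tl_glue_true, tlT_iota_zero_zero, map_zero, map_zero]
  | succ k ih =>
    intro n d hn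
    apply ext_tl (K := K)
    · rw [opE_nil]; rfl
    · rw [opE_succ, tl_glue_false, tlF_iota_zero, map_zero, map_zero]
    · rw [opE_succ, tl_glue_true, map_zero]
      cases n with
      | zero => rw [tlT_iota_zero_zero, map_zero]
      | succ n => rw [tlT_iota_zero]; exact ih n d.shT (by omega)

theorem opX_iota_out (p : P) (k : ℕ) : ∀ (n : ℕ) (d : Loc D P), n ≤ k →
    opX k d (iota (K := K) 0 n p) = 0 := by
  induction k with
  | zero =>
    intro n d hn
    obtain rfl : n = 0 := by omega
    apply ext_tl (K := K)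
    · rw [opX_nil]; rfl
    · rw [opX_zero, tl_glue_false, tlF_iota_zero, map_zero, map_zero]
    · rw [opX_zero, tl_glue_true, tlT_iota_zero_zero, map_zero, map_zero]
  | succ k ih =>
    intro n d hn
    apply ext_tl (K := K)
    · rw [opX_nil]; rfl
    · rw [opX_succ, tl_glue_false, tlF_iota_zero, map_zero, map_zero]
    · rw [opX_succ, tl_glue_true, map_zero]
      cases n with
      | zero => rw [tlT_iota_zero_zero, map_zero]
      | succ n => rw [tlT_iota_zero]; exact ih n d.shT (by omega)

theorem opT_iota_out (p : P) (k : ℕ) : ∀ (n : ℕ) (d : Loc D P), n ≤ k + 1 →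
    opT k d (iota (K := K) 0 n p) = 0 := by
  induction k with
  | zero =>
    intro n d hn
    have key : ∀ (b b' : Bool) (w : List Bool), iota (K := K) 0 n p (b :: b' :: w) = 0 := by
      intro b b' w
      rw [iota_apply, if_neg]
      intro h
      have := congrArg List.length h
      simp at this
      omega
    funext w
    rw [opT_zero]
    match w with
    | [] => rfl
    | [b] => rw [T0_one]; rfl
    | true :: true :: w => rw [T0_TT, key, map_zero]; rfl
    | false :: false :: w => rw [T0_FF, key, map_zero]; rfl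
    | false :: true :: w => rw [T0_FT, key, key, map_zero, map_zero, sub_zero]; rfl
    | true :: false :: w => rw [T0_TF, key, key, map_zero, map_zero, add_zero]; rfl
  | succ k ih =>
    intro n d hn
    apply ext_tl (K := K)
    · rw [opT_nil]; rfl
    · rw [opT_succ, tl_glue_false, tlF_iota_zero, map_zero, map_zero]
    · rw [opT_succ, tl_glue_true, map_zero]
      cases n with
      | zero => rw [tlT_iota_zero_zero, map_zero]
      | succ n => rw [tlT_iota_zero]; exact ih n d.shT (by omega)

/-! ### strand actions -/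

theorem E_zero {n : ℕ} {r : KLRAlg D →ₐ[K] Module.End K P} (h : StrandHom D n r) {k : ℕ}
    (hk : n ≤ k) : r (D.E k) = 0 := by
  unfold Datum.E
  rw [map_sum]
  exact Finset.sum_eq_zero fun i _ => h.zero k hk i

theorem x_zero {n : ℕ} {r : KLRAlg D →ₐ[K] Module.End K P} (h : StrandHom D n r) {k : ℕ}
    (hk : n ≤ k) : r (D.x k) = 0 := by
  rw [← D.x_E, map_mul, E_zero h hk, mul_zero]

theorem t_zero {n : ℕ} {r : KLRAlg D →ₐ[K] Module.End K P} (h : StrandHom D n r) {k : ℕ}
    (hk : n ≤ k + 1) : r (D.t k) = 0 := by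
  rw [← D.t_E', map_mul, E_zero h hk, mul_zero]

theorem strand_shF {m : ℕ} {d : Loc D P} (h : StrandHom D (m + 1) d.r1) :
    StrandHom D m d.shF.r1 := by
  refine ⟨fun k hk => ?_, fun k hk i => ?_⟩
  · rw [shF_r1, D.shn_E]
    exact h.one _ (by omega)
  · rw [shF_r1, D.shn_e]
    exact h.zero _ (by omega) i

theorem bal_first (h : S_rels D) (d : Loc D P) (m n : ℕ) (h1 : StrandHom D m d.r1)
    (a : KLRAlg D) : ∀ p : P,
      rV h d (D.tr m a) (iota (K := K) m n p) = iota (K := K) m n (d.r1 a p) := by
  refine KLRAlg.induction (P := fun a => ∀ p : P,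
      rV h d (D.tr m a) (iota (K := K) m n p) = iota (K := K) m n (d.r1 a p))
    ?_ ?_ ?_ ?_ ?_ ?_ a
  · intro r p
    rw [AlgHom.commutes, AlgHom.commutes, AlgHom.commutes, Module.algebraMap_end_apply,
      Module.algebraMap_end_apply, map_smul]
  · intro k i p
    rw [D.tr_e]
    by_cases hk : k < m
    · rw [if_pos hk, rV_e, opE_iota i n p k m d hk]
    · rw [if_neg hk, h1.zero k (by omega) i, map_zero, LinearMap.zero_apply, LinearMap.zero_apply,
        map_zero]
  · intro k p
    rw [D.tr_x]
    by_cases hk : k < m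
    · rw [if_pos hk, rV_x, opX_iota n p k m d hk]
    · rw [if_neg hk, x_zero h1 (by omega), map_zero, LinearMap.zero_apply, LinearMap.zero_apply,
        map_zero]
  · intro k p
    rw [D.tr_t]
    by_cases hk : k + 1 < m
    · rw [if_pos hk, rV_t, opT_iota n p k m d hk]
    · rw [if_neg hk, t_zero h1 (by omega), map_zero, LinearMap.zero_apply, LinearMap.zero_apply,
        map_zero]
  · intro a b ha hb p
    rw [map_add, map_add, map_add, LinearMap.add_apply, LinearMap.add_apply, map_add, ha, hb]
  · intro a b ha hb p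
    rw [map_mul, map_mul, map_mul, Module.End.mul_apply, Module.End.mul_apply, hb, ha]

theorem bal_zero (h : S_rels D) (d : Loc D P) (n : ℕ) (h2 : StrandHom D n d.r2)
    (a : KLRAlg D) : ∀ p : P,
      rV h d a (iota (K := K) 0 n p) = iota (K := K) 0 n (d.r2 a p) := by
  refine KLRAlg.induction (P := fun a => ∀ p : P,
      rV h d a (iota (K := K) 0 n p) = iota (K := K) 0 n (d.r2 a p))
    ?_ ?_ ?_ ?_ ?_ ?_ a
  · intro r p
    rw [AlgHom.commutes, AlgHom.commutes, Module.algebraMap_end_apply,
      Module.algebraMap_end_apply, map_smul]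
  · intro k i p
    by_cases hk : k < n
    · rw [rV_e, opE_iota' i p k n d hk]
    · rw [rV_e, opE_iota_out i p k n d (by omega), h2.zero k (by omega) i, LinearMap.zero_apply,
        map_zero]
  · intro k p
    by_cases hk : k < n
    · rw [rV_x, opX_iota' p k n d hk]
    · rw [rV_x, opX_iota_out p k n d (by omega), x_zero h2 (by omega), LinearMap.zero_apply,
        map_zero]
  · intro k p
    by_cases hk : k + 1 < n
    · rw [rV_t, opT_iota' p k n d hk]
    · rw [rV_t, opT_iota_out p k n d (by omega), t_zero h2 (by omega), LinearMap.zero_apply,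
        map_zero]
  · intro a b ha hb p
    rw [map_add, map_add, LinearMap.add_apply, LinearMap.add_apply, map_add, ha, hb]
  · intro a b ha hb p
    rw [map_mul, map_mul, Module.End.mul_apply, Module.End.mul_apply, hb, ha]

theorem bal_second (h : S_rels D) (n : ℕ) (p : P) (m : ℕ) : ∀ (d : Loc D P),
    StrandHom D m d.r1 → StrandHom D n d.r2 → ∀ a : KLRAlg D,
      rV h d (D.shn m a) (iota (K := K) m n p) = iota (K := K) m n (d.r2 a p) := by
  induction m with
  | zero =>
    intro d _ h2 a
    rw [D.shn_zero]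
    exact bal_zero h d n h2 a p
  | succ m ih =>
    intro d h1 h2 a
    rw [Nat.add_comm m 1, ← D.shn_shn 1 m a, Nat.add_comm 1 m]
    apply ext_tl (K := K)
    · rw [rV_nil h d _ _ (iota_nil_succ m n p), iota_nil_succ]
    · rw [rV_tl_false, tlF_iota_succ, tlF_iota_succ, ih d.shF (strand_shF h1) h2 a, shF_r2]
    · rw [rV_tl_true, tlT_iota_succ, tlT_iota_succ, map_zero]

end Bal

theorem prf_bal (D : Datum K I) (_ : S_rV D) : S_bal D := by
  intro h P _ _ d m n h1 h2 a p
  exact ⟨Bal.bal_first h d m n h1 a p, Bal.bal_second h n p m d h1 h2 a⟩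

end Pbw

end Pool.Agent.KLR
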