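import Pool.Agent.Work.MP_e487d8_al.Pbw.Stmts

/-! MP_e487d8_al, PBW block: the shift of the dots and the formal deformation `U((1/z))`. -/

set_option autoImplicit false

namespace Pool.Agent.KLR

variable {K I : Type} [Field K] [Fintype I] [DecidableEq I]

namespace Pbw

namespace DefAux

/-! ### the shift -/

section shift

variable {D : Datum K I} {B : Type} [Ring B] [Algebra K B] {e : ℕ → I → B} {x t : ℕ → B} {z : B}

theorem cE (h : Rels D e x t) (k l : ℕ) (i : I) : Commute (∑ j, e k j) (e l i) :=
  Commute.sum_left _ _ _ fun j _ => h.ee_comm k l j i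

theorem eE (h : Rels D e x t) (k : ℕ) (i : I) : (∑ j, e k j) * e k i = e k i := by
  rw [Finset.sum_mul]
  simp [h.ee]

theorem EE (h : Rels D e x t) (k : ℕ) : (∑ j, e k j) * (∑ j, e k j) = ∑ j, e k j := by
  rw [Finset.mul_sum]
  exact Finset.sum_congr rfl fun j _ => eE h k j

theorem cEE (h : Rels D e x t) (k l : ℕ) : Commute (∑ j, e k j) (∑ j, e l j) :=
  Commute.sum_right _ _ _ fun j _ => cE h k l j

theorem cxE (h : Rels D e x t) (k l : ℕ) : Commute (x k) (∑ j, e l j) :=
  Commute.sum_right _ _ _ fun j _ => h.xe k l j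

theorem ctE (h : Rels D e x t) (k l : ℕ) : Commute (t k) (∑ j, e l j) := by
  by_cases h1 : l = k
  · subst h1
    show t l * (∑ j, e l j) = (∑ j, e l j) * t l
    rw [h.tE]
    conv_lhs => rw [← h.tE' l]
    rw [Finset.mul_sum, Finset.sum_mul]
    exact Finset.sum_congr rfl fun j _ => h.te1 l j
  by_cases h2 : l = k + 1
  · subst h2
    show t k * (∑ j, e (k + 1) j) = (∑ j, e (k + 1) j) * t k
    rw [h.tE']
    conv_lhs => rw [← h.tE k]
    rw [Finset.mul_sum, Finset.sum_mul]
    exact Finset.sum_congr rfl fun j _ => h.te0 k j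
  · exact Commute.sum_right _ _ _ fun j _ => h.te k l j h1 h2

theorem pow_eq {a a' w : B} (h1 : a' * w = a * w) (h2 : Commute a w) (p : ℕ) :
    a' ^ p * w = a ^ p * w := by
  induction p with
  | zero => simp
  | succ p ih =>
    rw [pow_succ, mul_assoc, h1, h2.eq, ← mul_assoc, ih, mul_assoc, ← h2.eq, ← mul_assoc,
      ← pow_succ]

end shift

end DefAux

open DefAux in
theorem prf_shift (D : Datum K I) : S_shift D := by
  intro B _ _ e x t z h hze hzx hzt
  have hzE : ∀ k, Commute z (∑ i, e k i) := fun k => Commute.sum_right _ _ _ fun i _ => hze k i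
  have key : ∀ k l (w : B), (∑ i, e k i) * w = w → (∑ i, e l i) * w = w →
      ((x k + z * ∑ i, e k i) - (x l + z * ∑ i, e l i)) * w = (x k - x l) * w := by
    intro k l w h1 h2
    have : ((x k + z * ∑ i, e k i) - (x l + z * ∑ i, e l i)) * w
        = (x k - x l) * w + (z * ((∑ i, e k i) * w) - z * ((∑ i, e l i) * w)) := by
      noncomm_ring
    rw [this, h1, h2, sub_self, add_zero]
  have cx : ∀ k l i, Commute (x k - x l) (e k i) := fun k l i =>
    Commute.sub_left (h.xe k k i) (h.xe l k i)
  have ce : ∀ k l m i, Commute (x k - x l) (e m i) := fun k l m i =>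
    Commute.sub_left (h.xe k m i) (h.xe l m i)
  refine ⟨h.ee, h.ee_comm, ?_, ?_, ?_, h.tE, h.tE', h.te0, h.te1, h.te, ?_, ?_, ?_, ?_, h.far, ?_⟩
  · intro k l
    have hx : ∀ k l, Commute (x k) (z * ∑ i, e l i) := fun k l =>
      Commute.mul_right (hzx k).symm (cxE h k l)
    have hz : ∀ k l, Commute (z * ∑ i, e k i) (z * ∑ i, e l i) := fun k l =>
      Commute.mul_left (Commute.mul_right (Commute.refl z) (hzE l))
        (Commute.mul_right (hzE k).symm (cEE h k l))
    exact Commute.add_left (Commute.add_right (h.xx k l) (hx k l))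
      (Commute.add_right (hx l k).symm (hz k l))
  · intro k l i
    exact Commute.add_left (h.xe k l i) (Commute.mul_left (hze l i) (cE h k l i))
  · intro k
    rw [add_mul, h.xE, mul_assoc, EE h]
  · intro k l h1 h2
    exact Commute.add_right (h.tx k l h1 h2) (Commute.mul_right (hzt k).symm (ctE h k l))
  · intro k
    have h1 : t k * (z * ∑ i, e k i) = z * t k := by
      rw [← mul_assoc, ← hzt, mul_assoc, h.tE]
    have h2 : z * (∑ i, e (k + 1) i) * t k = z * t k := by
      rw [mul_assoc, ← (ctE h k (k + 1)).eq, h.tE']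
    rw [mul_add, add_mul, h.tx0, h1, h2]
    abel
  · intro k
    have h1 : t k * (z * ∑ i, e (k + 1) i) = z * t k := by
      rw [← mul_assoc, ← hzt, mul_assoc, h.tE']
    have h2 : z * (∑ i, e k i) * t k = z * t k := by
      rw [mul_assoc, ← (ctE h k k).eq, h.tE]
    rw [mul_add, add_mul, h.tx1, h1, h2]
    abel
  · intro k
    rw [h.tt]
    refine Finset.sum_congr rfl fun i _ => Finset.sum_congr rfl fun j _ => ?_
    by_cases hij : i = j
    · rw [if_pos hij, if_pos hij]
    rw [if_neg hij, if_neg hij]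
    congr 1
    symm
    refine pow_eq (key _ _ _ ?_ ?_) (Commute.mul_right (ce _ _ _ _) (ce _ _ _ _)) _
    · rw [← mul_assoc, eE h]
    · rw [← mul_assoc, (cE h (k + 1) k i).eq, mul_assoc, eE h]
  · intro k
    rw [h.braid]
    refine Finset.sum_congr rfl fun i _ => Finset.sum_congr rfl fun j _ => ?_
    by_cases hij : i = j
    · rw [if_pos hij, if_pos hij]
    rw [if_neg hij, if_neg hij]
    congr 1
    rw [Finset.sum_mul, Finset.sum_mul]
    refine Finset.sum_congr rfl fun p _ => ?_
    have w0 : (∑ j, e k j) * (e k i * e (k + 1) j * e (k + 2) i)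
        = e k i * e (k + 1) j * e (k + 2) i := by
      rw [← mul_assoc, ← mul_assoc, eE h]
    have w1 : (∑ j, e (k + 1) j) * (e k i * e (k + 1) j * e (k + 2) i)
        = e k i * e (k + 1) j * e (k + 2) i := by
      rw [← mul_assoc, ← mul_assoc, (cE h (k + 1) k i).eq, mul_assoc (e k i), eE h]
    have w2 : (∑ j, e (k + 2) j) * (e k i * e (k + 1) j * e (k + 2) i)
        = e k i * e (k + 1) j * e (k + 2) i := by
      rw [← mul_assoc, ← mul_assoc, (cE h (k + 2) k i).eq, mul_assoc (e k i),
        (cE h (k + 2) (k + 1) j).eq, ← mul_assoc, mul_assoc _ _ (e (k + 2) i), eE h]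
    have c1 : ∀ k' l', Commute (x k' - x l') (e k i * e (k + 1) j * e (k + 2) i) := fun k' l' =>
      Commute.mul_right (Commute.mul_right (ce _ _ _ _) (ce _ _ _ _)) (ce _ _ _ _)
    have e1 := pow_eq (key (k + 2) (k + 1) _ w2 w1) (c1 _ _) (D.q i j - 1 - p)
    have e2 := pow_eq (key k (k + 1) _ w0 w1) (c1 _ _) p
    have c2 := ((c1 (k + 2) (k + 1)).pow_left (D.q i j - 1 - p)).eq
    generalize e k i * e (k + 1) j * e (k + 2) i = w at e1 e2 c2 ⊢
    symm
    rw [mul_assoc, e1, c2, ← mul_assoc, e2, mul_assoc, ← c2, ← mul_assoc]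

namespace DefAux

/-! ### Laurent series in `1 / z` -/

section laurent

variable (K) (U : Type) [AddCommGroup U] [Module K U]

/-- `U((1/z))`: the functions of the exponent that vanish for large exponents -/
def Lau : Submodule K (ℤ → U) where
  carrier := {f | ∃ N : ℤ, ∀ d, N < d → f d = 0}
  add_mem' := by
    rintro f g ⟨N, hN⟩ ⟨M, hM⟩
    refine ⟨max N M, fun d hd => ?_⟩
    rw [Pi.add_apply, hN d (lt_of_le_of_lt (le_max_left _ _) hd),
      hM d (lt_of_le_of_lt (le_max_right _ _) hd), add_zero]
  zero_mem' := ⟨0, fun _ _ => rfl⟩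
  smul_mem' := by
    rintro r f ⟨N, hN⟩
    exact ⟨N, fun d hd => by rw [Pi.smul_apply, hN d hd, smul_zero]⟩

variable {K U}

/-- coefficientwise action -/
def L0 (g : Module.End K U) : Module.End K (Lau K U) where
  toFun f := ⟨fun d => g (f.1 d), by
    obtain ⟨N, hN⟩ := f.2
    exact ⟨N, fun d hd => by show g (f.1 d) = 0; rw [hN d hd, map_zero]⟩⟩
  map_add' f f' := by
    apply Subtype.ext
    funext d
    exact map_add g _ _
  map_smul' r f := by
    apply Subtype.ext
    funext d
    exact map_smul g _ _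

theorem L0_apply (g : Module.End K U) (f : Lau K U) (d : ℤ) : (L0 g f).1 d = g (f.1 d) := rfl

/-- coefficientwise action as an algebra map -/
def Lh : Module.End K U →ₐ[K] Module.End K (Lau K U) where
  toFun := L0
  map_one' := rfl
  map_mul' _ _ := rfl
  map_zero' := rfl
  map_add' _ _ := rfl
  commutes' _ := rfl

theorem Lh_apply (g : Module.End K U) (f : Lau K U) (d : ℤ) : (Lh g f).1 d = g (f.1 d) := rfl

/-- multiplication by `z` -/
def zz : Module.End K (Lau K U) where
  toFun f := ⟨fun d => f.1 (d - 1), by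
    obtain ⟨N, hN⟩ := f.2
    exact ⟨N + 1, fun d hd => hN _ (by omega)⟩⟩
  map_add' _ _ := rfl
  map_smul' _ _ := rfl

theorem zz_apply (f : Lau K U) (d : ℤ) : (zz f).1 d = f.1 (d - 1) := rfl

theorem zz_L (g : Module.End K U) : zz * Lh g = Lh g * zz := rfl

/-- the coefficients of the solution of `z g + c g = f`, downwards from `N` -/
def sol (c : Module.End K U) (f : ℤ → U) (N : ℤ) : ℕ → U
  | 0 => 0
  | j + 1 => f (N - j) - c (sol c f N j)

theorem inj (c : Module.End K U) : Function.Injective (zz + Lh c : Module.End K (Lau K U)) := by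
  rw [injective_iff_map_eq_zero]
  intro g hg
  obtain ⟨N, hN⟩ := g.2
  have h1 : ∀ d : ℤ, g.1 (d - 1) + c (g.1 d) = 0 := fun d =>
    congrFun (congrArg Subtype.val hg) d
  have h2 : ∀ j : ℕ, g.1 (N + 1 - j) = 0 := by
    intro j
    induction j with
    | zero => exact hN _ (by omega)
    | succ j ih =>
      have := h1 (N + 1 - j)
      rw [ih, map_zero, add_zero] at this
      have e : N + 1 - ((j + 1 : ℕ) : ℤ) = N + 1 - j - 1 := by push_cast; ring
      rw [e]
      exact this
  apply Subtype.ext
  funext d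
  by_cases hd : N < d
  · exact hN d hd
  · have := h2 (N + 1 - d).toNat
    rw [Int.toNat_of_nonneg (by omega)] at this
    rw [show d = N + 1 - (N + 1 - d) by ring, this]
    rfl

theorem surj (c : Module.End K U) : Function.Surjective (zz + Lh c : Module.End K (Lau K U)) := by
  intro f
  obtain ⟨N, hN⟩ := f.2
  refine ⟨⟨fun d => sol c f.1 N (N - d).toNat, N, fun d hd => ?_⟩, ?_⟩
  · show sol c f.1 N (N - d).toNat = 0
    rw [Int.toNat_of_nonpos (by omega)]
    rfl
  · apply Subtype.ext
    funext d
    show sol c f.1 N (N - (d - 1)).toNat + c (sol c f.1 N (N - d).toNat) = f.1 d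
    by_cases hd : N < d
    · rw [Int.toNat_of_nonpos (by omega), Int.toNat_of_nonpos (by omega), hN d hd]
      simp [sol]
    · have e1 : (N - (d - 1)).toNat = (N - d).toNat + 1 := by omega
      rw [e1, sol, Int.toNat_of_nonneg (by omega), sub_sub_cancel, sub_add_cancel]

/-- the inverse of `z + c` -/
noncomputable def inv (c : Module.End K U) : Module.End K (Lau K U) :=
  (LinearEquiv.ofBijective (zz + Lh c : Module.End K (Lau K U)) ⟨inj c, surj c⟩).symm.toLinearMap

theorem inv_mul (c : Module.End K U) : inv c * (zz + Lh c) = 1 :=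
  LinearMap.ext fun f => (LinearEquiv.ofBijective (zz + Lh c : Module.End K (Lau K U))
    ⟨inj c, surj c⟩).symm_apply_apply f

theorem mul_inv' (c : Module.End K U) : (zz + Lh c) * inv c = 1 :=
  LinearMap.ext fun f => (LinearEquiv.ofBijective (zz + Lh c : Module.End K (Lau K U))
    ⟨inj c, surj c⟩).apply_symm_apply f

end laurent

theorem locAlg {R : Type*} [Ring R] {x y F G z u : R} (hF : F * F = F) (hG : G * G = G)
    (FG : Commute F G) (Fx : Commute F x) (Fy : Commute F y) (Gx : Commute G x)
    (Gy : Commute G y) (zF : Commute z F) (zG : Commute z G)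
    (h1 : u * (z + (x - y)) = 1) (h2 : (z + (x - y)) * u = 1) :
    u * (F * G) * ((x + z * F) - y) = F * G ∧ ((x + z * F) - y) * (u * (F * G)) = F * G ∧
    u * (F * G) * (F * G) = u * (F * G) := by
  have WW : (F * G) * (F * G) = F * G := by
    rw [mul_assoc, ← mul_assoc G, ← FG.eq, mul_assoc, hG, ← mul_assoc, hF]
  have WC : Commute (F * G) (z + (x - y)) :=
    Commute.add_right (zF.symm.mul_left zG.symm)
      (Commute.sub_right (Fx.mul_left Gx) (Fy.mul_left Gy))
  have XW : ((x + z * F) - y) * (F * G) = (z + (x - y)) * (F * G) := by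
    have e : z * F * (F * G) = z * (F * G) := by
      rw [mul_assoc, ← mul_assoc F, hF]
    rw [sub_mul, add_mul, e, add_mul, sub_mul]
    abel
  have CXW : Commute ((x + z * F) - y) (F * G) := by
    refine Commute.sub_left (Commute.add_left ?_ ?_) ?_
    · exact Fx.symm.mul_right Gx.symm
    · exact Commute.mul_left (zF.mul_right zG) ((Commute.refl F).mul_right FG)
    · exact Fy.symm.mul_right Gy.symm
  have IW : Commute (F * G) u := by
    have e1 : u * (F * G * (z + (x - y))) * u = u * ((z + (x - y)) * (F * G)) * u := by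
      rw [WC.eq]
    have e2 : u * (F * G * (z + (x - y))) * u = u * (F * G) := by
      rw [← mul_assoc, mul_assoc, h2, mul_one]
    have e3 : u * ((z + (x - y)) * (F * G)) * u = F * G * u := by
      rw [← mul_assoc, h1, one_mul]
    show F * G * u = u * (F * G)
    rw [← e3, ← e1, e2]
  refine ⟨?_, ?_, ?_⟩
  · rw [mul_assoc, ← CXW.eq, XW, ← mul_assoc, h1, one_mul]
  · rw [← IW.eq, ← mul_assoc, XW, ← WC.eq, mul_assoc, h2, mul_one]
  · rw [mul_assoc, WW]

/-- the image of a family satisfying the relations under an algebra map -/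
theorem relsMap {D : Datum K I} {B C : Type*} [Ring B] [Algebra K B] [Ring C] [Algebra K C]
    (φ : B →ₐ[K] C) {e : ℕ → I → B} {x t : ℕ → B} (h : Rels D e x t) :
    Rels D (fun k i => φ (e k i)) (fun k => φ (x k)) (fun k => φ (t k)) where
  ee k i j := by
    rw [← map_mul, h.ee]
    split_ifs
    · rfl
    · exact map_zero _
  ee_comm k l i j := by rw [← map_mul, ← map_mul, h.ee_comm]
  xx k l := by rw [← map_mul, ← map_mul, h.xx]
  xe k l i := by rw [← map_mul, ← map_mul, h.xe]
  xE k := by rw [← map_sum, ← map_mul, h.xE]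
  tE k := by rw [← map_sum, ← map_mul, h.tE]
  tE' k := by rw [← map_sum, ← map_mul, h.tE']
  te0 k i := by rw [← map_mul, ← map_mul, h.te0]
  te1 k i := by rw [← map_mul, ← map_mul, h.te1]
  te k l i h1 h2 := by rw [← map_mul, ← map_mul, h.te k l i h1 h2]
  tx k l h1 h2 := by rw [← map_mul, ← map_mul, h.tx k l h1 h2]
  tx0 k := by
    have := congrArg φ (h.tx0 k)
    simpa only [map_mul, map_sub, map_sum] using this
  tx1 k := by
    have := congrArg φ (h.tx1 k)
    simpa only [map_mul, map_add, map_sum] using this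
  tt k := by
    have := congrArg φ (h.tt k)
    simpa only [map_mul, map_sub, map_sum, apply_ite φ, map_zero, map_smul, map_pow] using this
  far k l h1 := by rw [← map_mul, ← map_mul, h.far k l h1]
  braid k := by
    have := congrArg φ (h.braid k)
    simpa only [map_mul, map_sub, map_sum, apply_ite φ, map_zero, map_smul, map_pow] using this

section act

variable {D : Datum K I} {U : Type} [AddCommGroup U] [Module K U]
  (r : KLRAlg D →ₐ[K] Module.End K U)

/-- the relations for the shifted action on the Laurent series -/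
theorem relsZ (h : S_shift D) : Rels D (fun k i => Lh (r (D.e k i)))
    (fun k => Lh (r (D.x k)) + zz * ∑ i, Lh (r (D.e k i))) (fun k => Lh (r (D.t k))) := by
  have h0 := relsMap (C := Module.End K (Lau K U))
    (φ := (Lh.comp r : KLRAlg D →ₐ[K] Module.End K (Lau K U))) D.rels
  exact h (Module.End K (Lau K U)) _ _ _ zz h0 (fun _ _ => rfl) (fun _ => rfl) (fun _ => rfl)

/-- the action with all dots shifted by `z` -/
noncomputable def act (h : S_shift D) : KLRAlg D →ₐ[K] Module.End K (Lau K U) :=
  liftHom (relsZ r h)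

theorem act_e (h : S_shift D) (k : ℕ) (i : I) : act r h (D.e k i) = Lh (r (D.e k i)) :=
  liftHom_e _ k i

theorem act_x (h : S_shift D) (k : ℕ) :
    act r h (D.x k) = Lh (r (D.x k)) + zz * Lh (r (D.E k)) := by
  have e : Lh (r (D.E k)) = ∑ i, Lh (r (D.e k i)) := by
    unfold Datum.E
    rw [map_sum, map_sum]
  rw [e]
  exact liftHom_x _ k

theorem act_t (h : S_shift D) (k : ℕ) : act r h (D.t k) = Lh (r (D.t k)) :=
  liftHom_t _ k

theorem act_E (h : S_shift D) (k : ℕ) : act r h (D.E k) = Lh (r (D.E k)) := by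
  unfold Datum.E
  rw [map_sum, map_sum, map_sum]
  exact Finset.sum_congr rfl fun i _ => act_e r h k i

theorem zz_act (h : S_shift D) (a : KLRAlg D) : zz * act r h a = act r h a * zz := by
  induction a using KLRAlg.induction with
  | hs c => rw [AlgHom.commutes]; exact (Algebra.commutes c _).symm
  | he k i => rw [act_e]; rfl
  | hx k => rw [act_x, mul_add, add_mul, zz_L, mul_assoc zz, ← zz_L (r (D.E k)), ← mul_assoc]
  | ht k => rw [act_t]; rfl
  | hadd a b ha hb => rw [map_add, mul_add, add_mul, ha, hb]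
  | hmul a b ha hb => rw [map_mul, ← mul_assoc, ha, mul_assoc, hb, mul_assoc]

end act

end DefAux

open DefAux in
theorem prf_def (D : Datum K I) (h : S_shift D) : S_def D := by
  intro m n U _ _ r1 r2 hc h1 h2
  have cL : ∀ a b, Commute (Lh (r1 a)) (Lh (r2 b)) := fun a b => by
    show Lh (r1 a) * Lh (r2 b) = Lh (r2 b) * Lh (r1 a)
    rw [← map_mul, ← map_mul, hc]
  have cz : ∀ g : Module.End K U, Commute zz (Lh g) := fun g => zz_L g
  have cc : ∀ a b, Commute (act r1 h a) (Lh (r2 b)) := by
    intro a b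
    induction a using KLRAlg.induction with
    | hs c => rw [AlgHom.commutes]; exact Algebra.commutes c _
    | he k i => rw [act_e]; exact cL _ _
    | hx k => rw [act_x]; exact (cL _ _).add_left ((cz _).mul_left (cL _ _))
    | ht k => rw [act_t]; exact cL _ _
    | hadd a a' ha hb => rw [map_add]; exact ha.add_left hb
    | hmul a a' ha hb => rw [map_mul]; exact ha.mul_left hb
  -- the idempotents
  have FF : ∀ k, Lh (r1 (D.E k)) * Lh (r1 (D.E k)) = Lh (r1 (D.E k)) := fun k => by
    rw [← map_mul, ← map_mul]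
    congr 2
    exact EE D.rels k
  have GG : ∀ k, Lh (r2 (D.E k)) * Lh (r2 (D.E k)) = Lh (r2 (D.E k)) := fun k => by
    rw [← map_mul, ← map_mul]
    congr 2
    exact EE D.rels k
  have cF : ∀ k a, Commute (Lh (r1 (D.E k))) (Lh (r1 a)) := fun k a => by
    show Lh (r1 (D.E k)) * Lh (r1 a) = Lh (r1 a) * Lh (r1 (D.E k))
    rw [← map_mul, ← map_mul, ← map_mul, ← map_mul, D.E_comm]
  have cG : ∀ k a, Commute (Lh (r2 (D.E k))) (Lh (r2 a)) := fun k a => by
    show Lh (r2 (D.E k)) * Lh (r2 a) = Lh (r2 a) * Lh (r2 (D.E k))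
    rw [← map_mul, ← map_mul, ← map_mul, ← map_mul, D.E_comm]
  have key : ∀ i j, _ := fun i j => locAlg (R := Module.End K (Lau K U)) (x := Lh (r1 (D.x i)))
    (y := Lh (r2 (D.x j))) (F := Lh (r1 (D.E i))) (G := Lh (r2 (D.E j))) (z := zz)
    (u := inv (r1 (D.x i) - r2 (D.x j))) (FF i) (GG j) (cL _ _) (cF _ _) (cL _ _)
    (cL _ _).symm (cG _ _) (cz _) (cz _) (inv_mul _) (mul_inv' _)
  let d : Loc D (Lau K U) :=
    { r1 := act r1 h
      r2 := Lh.comp r2
      v := fun i j => inv (r1 (D.x i) - r2 (D.x j)) * (Lh (r1 (D.E i)) * Lh (r2 (D.E j)))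
      comm := fun a b => cc a b
      v_mul := fun i j => by
        rw [act_E, act_x]
        exact (key i j).1
      mul_v := fun i j => by
        rw [act_E, act_x]
        exact (key i j).2.1
      v_E := fun i j => by
        rw [act_E]
        exact (key i j).2.2 }
  let P0 : Submodule K (Lau K U) :=
    { carrier := {f | ∀ e : ℤ, e < 0 → f.1 e = 0}
      add_mem' := by
        intro f g hf hg e he
        show f.1 e + g.1 e = 0
        rw [hf e he, hg e he, add_zero]
      zero_mem' := fun _ _ => rfl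
      smul_mem' := by
        intro c f hf e he
        show c • f.1 e = 0
        rw [hf e he, smul_zero] }
  let c0 : Lau K U →ₗ[K] U :=
    { toFun := fun f => f.1 0
      map_add' := fun _ _ => rfl
      map_smul' := fun _ _ => rfl }
  let s0 : U →ₗ[K] Lau K U :=
    { toFun := fun u => ⟨fun e => if e = 0 then u else 0, 0, fun e he => if_neg (ne_of_gt he)⟩
      map_add' := fun u u' => by
        apply Subtype.ext
        funext e
        show (if e = 0 then u + u' else 0) = (if e = 0 then u else 0) + (if e = 0 then u' else 0)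
        split_ifs
        · rfl
        · exact (add_zero 0).symm
      map_smul' := fun c u => by
        apply Subtype.ext
        funext e
        show (if e = 0 then c • u else 0) = c • (if e = 0 then u else 0)
        split_ifs
        · rfl
        · exact (smul_zero c).symm }
  have zP : ∀ f ∈ P0, zz f ∈ P0 := fun f hf e he => hf (e - 1) (by omega)
  have LP : ∀ g : Module.End K U, ∀ f ∈ P0, Lh g f ∈ P0 := fun g f hf e he => by
    show g (f.1 e) = 0
    rw [hf e he, map_zero]
  have z0 : ∀ f ∈ P0, c0 (zz f) = 0 := fun f hf => hf (0 - 1) (by omega)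
  have aP : ∀ a, ∀ f ∈ P0, act r1 h a f ∈ P0 ∧ c0 (act r1 h a f) = r1 a (c0 f) := by
    intro a
    induction a using KLRAlg.induction with
    | hs c =>
      intro f hf
      rw [AlgHom.commutes, AlgHom.commutes]
      exact ⟨P0.smul_mem c hf, map_smul c0 c f⟩
    | he k i =>
      intro f hf
      rw [act_e]
      exact ⟨LP _ f hf, rfl⟩
    | hx k =>
      intro f hf
      rw [act_x]
      refine ⟨P0.add_mem (LP _ f hf) (zP _ (LP _ f hf)), ?_⟩
      show c0 (Lh (r1 (D.x k)) f + zz (Lh (r1 (D.E k)) f)) = _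
      rw [map_add, z0 _ (LP _ f hf), add_zero]
      rfl
    | ht k =>
      intro f hf
      rw [act_t]
      exact ⟨LP _ f hf, rfl⟩
    | hadd a b ha hb =>
      intro f hf
      rw [map_add, map_add]
      refine ⟨P0.add_mem (ha f hf).1 (hb f hf).1, ?_⟩
      rw [LinearMap.add_apply, LinearMap.add_apply, map_add, (ha f hf).2, (hb f hf).2]
    | hmul a b ha hb =>
      intro f hf
      rw [map_mul, map_mul]
      refine ⟨(ha _ (hb f hf).1).1, ?_⟩
      rw [Module.End.mul_apply, Module.End.mul_apply, (ha _ (hb f hf).1).2, (hb f hf).2]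
  refine ⟨Lau K U, inferInstance, inferInstance, d, zz, P0, c0, s0, ⟨?_, ?_⟩, ⟨?_, ?_⟩, ?_, ?_, ?_,
    ?_, zP, ?_, ?_⟩
  · intro k hk
    show act r1 h (D.E k) = 1
    rw [act_E, h1.one k hk, map_one]
  · intro k hk i
    show act r1 h (D.e k i) = 0
    rw [act_e, h1.zero k hk i, map_zero]
  · intro k hk
    show Lh (r2 (D.E k)) = 1
    rw [h2.one k hk, map_one]
  · intro k hk i
    show Lh (r2 (D.e k i)) = 0
    rw [h2.zero k hk i, map_zero]
  · exact zz_act r1 h
  · exact fun a => zz_L _
  · exact fun a f hf => (aP a f hf).1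
  · exact fun a f hf => LP _ f hf
  · intro u
    refine ⟨fun e he => if_neg (ne_of_lt he), ?_⟩
    show (if (0 : ℤ) = 0 then u else 0) = u
    exact if_pos rfl
  · intro f hf
    refine ⟨z0 f hf, fun a => ⟨(aP a f hf).2, rfl⟩, ?_⟩
    obtain ⟨N, hN⟩ := f.2
    refine ⟨⟨fun e => if 0 ≤ e then f.1 (e + 1) else 0, max N 0, fun e he => ?_⟩, fun e he => ?_,
      ?_⟩
    · have h3 : N < e := lt_of_le_of_lt (le_max_left _ _) he
      show (if 0 ≤ e then f.1 (e + 1) else 0) = 0
      split_ifs
      · exact hN _ (by omega)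
      · rfl
    · show (if 0 ≤ e then f.1 (e + 1) else 0) = 0
      rw [if_neg (by omega)]
    · apply Subtype.ext
      funext e
      show f.1 e - (if e = 0 then f.1 0 else 0)
        = if 0 ≤ e - 1 then f.1 (e - 1 + 1) else 0
      rcases lt_trichotomy e 0 with he | he | he
      · rw [if_neg (by omega), if_neg (by omega), hf e he, sub_zero]
      · subst he
        rw [if_pos rfl, if_neg (by omega), sub_self]
      · rw [if_neg (by omega), if_pos (by omega), sub_zero, sub_add_cancel]

end Pbw

end Pool.Agent.KLR
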