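import Pool.Agent.Work.MP_e487d8_al.Pbw.Glue

/-! MP_e487d8_al, PBW block: triangular independence of the shuffles (`prf_ind`). -/

set_option autoImplicit false

namespace Pool.Agent.KLR

variable {K I : Type} [Field K] [Fintype I] [DecidableEq I]

namespace Pbw

open Loc

namespace Ind

variable {D : Datum K I} {P : Type} [AddCommGroup P] [Module K P]

theorem chain_succ' (D : Datum K I) (m : ℕ) :
    D.chain (m + 1) = D.t 0 * D.shn 1 (D.chain m) := by
  induction m with
  | zero => simp [Datum.chain]
  | succ m ih =>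
    have h1 : D.chain (m + 1 + 1) = D.chain (m + 1) * D.t (m + 1) := rfl
    have h2 : D.shn 1 (D.chain (m + 1)) = D.shn 1 (D.chain m) * D.t (m + 1) := by
      have h3 : D.chain (m + 1) = D.chain m * D.t m := rfl
      rw [h3, map_mul, D.shn_t, add_comm 1 m]
    rw [h1, h2, ih, mul_assoc]

/-! ### `iota` -/

theorem tl_true_iota_zero (n : ℕ) (p : P) :
    tl (K := K) true (iota (K := K) 0 (n + 1) p) = iota (K := K) 0 n p := by
  funext w
  simp [iota, List.replicate_succ]

theorem tl_true_iota_succ (m n : ℕ) (p : P) :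
    tl (K := K) true (iota (K := K) (m + 1) n p) = 0 := by
  funext w
  simp [iota, List.replicate_succ]

theorem tl_false_iota_succ (m n : ℕ) (p : P) :
    tl (K := K) false (iota (K := K) (m + 1) n p) = iota (K := K) m n p := by
  funext w
  simp [iota, List.replicate_succ]

theorem iota_succ_nil (m n : ℕ) (p : P) : iota (K := K) (m + 1) n p [] = 0 := by
  simp [iota, List.replicate_succ]

theorem iota_succ_true (m n : ℕ) (p : P) (w : List Bool) :
    iota (K := K) (m + 1) n p (true :: w) = 0 := by
  simp [iota, List.replicate_succ]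

theorem iota_succ_false (m n : ℕ) (p : P) (w : List Bool) :
    iota (K := K) (m + 1) n p (false :: w) = iota (K := K) m n p w := by
  simp [iota, List.replicate_succ]

theorem iota_map (m n : ℕ) (g : Module.End K P) (p : P) (w : List Bool) :
    iota (K := K) m n (g p) w = g (iota (K := K) m n p w) := by
  change (if w = List.replicate m false ++ List.replicate n true then g p else 0) =
    g (if w = List.replicate m false ++ List.replicate n true then p else 0)
  split_ifs
  · rfl
  · exact (map_zero g).symm

/-! ### the coefficient of the leading term -/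

/-- the coefficient of the crossing of a `true` over a `false` -/
noncomputable def C (d : Loc D P) : Module.End K P := d.nn 0 0 - d.A 0 0

/-- the coefficient of `chain m` -/
noncomputable def Cc : ℕ → Loc D P → Module.End K P
  | 0, _ => 1
  | m + 1, d => C d * Cc m d.shF

theorem rV_t0 (h : S_rels D) (d : Loc D P) (f : List Bool → P) :
    rV h d (D.t 0) f = d.T0 f := by
  unfold rV
  rw [liftHom_t]
  rfl

theorem rV_mul (h : S_rels D) (d : Loc D P) (a b : KLRAlg D) (f : List Bool → P) :
    rV h d (a * b) f = rV h d a (rV h d b f) := by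
  rw [map_mul]
  rfl

theorem rV_chain (h : S_rels D) (hV : S_rV D) (m n : ℕ) (d : Loc D P) (p : P) (w : List Bool) :
    rV h d (D.chain m) (iota (K := K) m (n + 1) p) (true :: w) =
      iota (K := K) m n (Cc m d p) w := by
  induction m generalizing d p w with
  | zero =>
    have h1 : D.chain 0 = 1 := rfl
    rw [h1, map_one]
    exact congrFun (tl_true_iota_zero n p) w
  | succ m ih =>
    rw [chain_succ', rV_mul, rV_t0]
    match w with
    | [] => rw [T0_one, iota_succ_nil]
    | true :: w =>
      rw [T0_TT, (hV h P d _ _ _).2.1, tl_true_iota_succ, map_zero, iota_succ_true]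
      exact map_zero _
    | false :: w =>
      rw [T0_TF, (hV h P d _ _ _).2.1, (hV h P d _ _ _).1, tl_true_iota_succ, map_zero,
        tl_false_iota_succ, ih, iota_succ_false]
      have h1 : (0 : List Bool → P) (false :: w) = 0 := rfl
      rw [h1, map_zero, zero_add]
      have h2 : Cc (m + 1) d p = C d (Cc m d.shF p) := rfl
      rw [h2, iota_map m n (C d) (Cc m d.shF p) w]
      rfl

/-! ### injectivity -/

theorem dd_add_nn (d : Loc D P) (i j : ℕ) :
    d.dd i j + d.nn i j = d.r1 (D.E i) * d.r2 (D.E j) := by
  unfold dd nn Datum.E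
  rw [map_sum, map_sum, Finset.sum_mul, ← Finset.sum_add_distrib]
  refine Finset.sum_congr rfl fun c _ => ?_
  rw [Finset.mul_sum]
  have h1 : ∀ c', d.r1 (D.e i c) * d.r2 (D.e j c') =
      (if c = c' then d.r1 (D.e i c) * d.r2 (D.e j c') else 0) +
        (if c = c' then 0 else d.r1 (D.e i c) * d.r2 (D.e j c')) := by
    intro c'
    split_ifs <;> simp
  conv_rhs => rw [Finset.sum_congr rfl fun c' _ => h1 c']
  rw [Finset.sum_add_distrib, Finset.sum_ite_eq, if_pos (Finset.mem_univ _)]

theorem four (d : Loc D P) (i j : ℕ) (a b c c' : I) :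
    d.r1 (D.e i a) * d.r2 (D.e j b) * (d.r1 (D.e i c) * d.r2 (D.e j c')) =
      d.r1 (D.e i a * D.e i c) * d.r2 (D.e j b * D.e j c') := by
  rw [map_mul, map_mul, mul_assoc, ← mul_assoc (d.r2 (D.e j b)), ← d.comm]
  simp only [mul_assoc]

theorem dd_mul_nn (d : Loc D P) (i j : ℕ) : d.dd i j * d.nn i j = 0 := by
  unfold dd nn
  rw [Finset.sum_mul]
  refine Finset.sum_eq_zero fun a _ => ?_
  rw [Finset.mul_sum]
  refine Finset.sum_eq_zero fun c _ => ?_
  rw [Finset.mul_sum]
  refine Finset.sum_eq_zero fun c' _ => ?_
  split_ifs with h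
  · rw [mul_zero]
  · rw [four, D.e_mul_e, D.e_mul_e]
    by_cases h1 : a = c
    · rw [if_neg (show ¬ a = c' from fun h2 => h (h1.symm.trans h2)), map_zero, mul_zero]
    · rw [if_neg h1, map_zero, zero_mul]

theorem dd_comm_x (d : Loc D P) (i j : ℕ) :
    (d.r1 (D.x i) - d.r2 (D.x j)) * d.dd i j = d.dd i j * (d.r1 (D.x i) - d.r2 (D.x j)) := by
  apply d.comm_dd
  · intro c
    rw [sub_mul, mul_sub, ← map_mul, D.x_e, map_mul, d.comm (D.e i c) (D.x j)]
  · intro c
    rw [sub_mul, mul_sub, d.comm (D.x i) (D.e j c), ← map_mul, D.x_e, map_mul]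

theorem C_injective (d : Loc D P) (h1 : d.r1 (D.E 0) = 1) (h2 : d.r2 (D.E 0) = 1) {p : P}
    (hp : C d p = 0) : p = 0 := by
  have hs : d.dd 0 0 + d.nn 0 0 = 1 := by rw [dd_add_nn, h1, h2, mul_one]
  have hdd : d.dd 0 0 * d.dd 0 0 = d.dd 0 0 := by
    have h3 : d.dd 0 0 * (d.dd 0 0 + d.nn 0 0) = d.dd 0 0 * 1 := by rw [hs]
    rwa [mul_add, dd_mul_nn, add_zero, mul_one] at h3
  have hnn : d.nn 0 0 p = d.A 0 0 p := sub_eq_zero.1 hp
  have hx : (d.r1 (D.x 0) - d.r2 (D.x 0)) * d.A 0 0 = d.dd 0 0 := by
    unfold A
    rw [← mul_assoc, d.mul_v, h1, h2, mul_one, one_mul]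
  have h3 : d.dd 0 0 p = 0 := by
    have h4 : (d.dd 0 0 * ((d.r1 (D.x 0) - d.r2 (D.x 0)) * d.A 0 0)) p = d.dd 0 0 p := by
      rw [hx, hdd]
    rw [← h4]
    have h5 : (d.dd 0 0 * ((d.r1 (D.x 0) - d.r2 (D.x 0)) * d.A 0 0)) p =
        (d.dd 0 0 * (d.r1 (D.x 0) - d.r2 (D.x 0)) * d.nn 0 0) p := by
      rw [mul_assoc, Module.End.mul_apply, Module.End.mul_apply, ← hnn, Module.End.mul_apply,
        Module.End.mul_apply]
    rw [h5, ← dd_comm_x, mul_assoc, dd_mul_nn, mul_zero]
    rfl
  have h4 : d.A 0 0 p = 0 := by
    unfold A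
    rw [Module.End.mul_apply, h3, map_zero]
  have h5 : (d.dd 0 0 + d.nn 0 0) p = p := by rw [hs]; rfl
  rw [← h5, LinearMap.add_apply, h3, hnn, h4, add_zero]

theorem strand_shift {n : ℕ} {V : Type} [AddCommGroup V] [Module K V]
    {r : KLRAlg D →ₐ[K] Module.End K V} (h : StrandHom D (n + 1) r) :
    StrandHom D n (r.comp (D.shn 1)) where
  one k hk := by
    rw [AlgHom.comp_apply, D.shn_E]
    exact h.one (1 + k) (by omega)
  zero k hk i := by
    rw [AlgHom.comp_apply, D.shn_e]
    exact h.zero (1 + k) (by omega) i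

theorem Cc_injective (m n : ℕ) (d : Loc D P) (h1 : StrandHom D m d.r1)
    (h2 : StrandHom D (n + 1) d.r2) {p : P} (hp : Cc m d p = 0) : p = 0 := by
  induction m generalizing d with
  | zero => exact hp
  | succ m ih =>
    have h3 : Cc (m + 1) d p = C d (Cc m d.shF p) := rfl
    rw [h3] at hp
    exact ih d.shF (strand_shift h1) h2
      (C_injective d (h1.one 0 (by omega)) (h2.one 0 (by omega)) hp)

/-! ### the triangular argument -/

theorem main (h : S_rels D) (hV : S_rV D) (N : ℕ) : ∀ (d : Loc D P) (m n : ℕ), m + n = N →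
    StrandHom D m d.r1 → StrandHom D n d.r2 →
    ∀ (S : Finset (List Bool)), (∀ w ∈ S, w.count false = m ∧ w.count true = n) →
    ∀ p : List Bool → P, ∑ w ∈ S, rV h d (D.tw w) (iota (K := K) m n (p w)) = 0 →
    ∀ w ∈ S, p w = 0 := by
  induction N with
  | zero =>
    intro d m n hmn _ _ S hS p hsum w hw
    obtain rfl : m = 0 := by omega
    obtain rfl : n = 0 := by omega
    have hnil : ∀ w ∈ S, w = [] := by
      intro w hw
      obtain ⟨h1, h2⟩ := hS w hw
      rw [List.count_eq_zero] at h1 h2
      rcases w with _ | ⟨b, w⟩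
      · rfl
      · cases b
        · exact absurd List.mem_cons_self h1
        · exact absurd List.mem_cons_self h2
    have hSs : S = {[]} := by
      rw [Finset.eq_singleton_iff_unique_mem]
      exact ⟨by rw [← hnil w hw]; exact hw, hnil⟩
    rw [hSs, Finset.sum_singleton] at hsum
    have h1 : D.tw [] = 1 := rfl
    rw [h1, map_one] at hsum
    have h2 := congrFun hsum []
    rw [hnil w hw]
    simpa [iota] using h2
  | succ N ih =>
    intro d m n hmn hr1 hr2 S hS p hsum
    have hne : ∀ w ∈ S, w ≠ [] := by
      rintro w hw rfl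
      obtain ⟨h1, h2⟩ := hS _ hw
      simp only [List.count_nil] at h1 h2
      omega
    -- the words which begin with `true`
    have htrue : ∀ w, true :: w ∈ S → p (true :: w) = 0 := by
      intro w0 hw0
      obtain ⟨n', rfl⟩ : ∃ n', n = n' + 1 := by
        obtain ⟨_, h2⟩ := hS _ hw0
        rw [List.count_cons_self] at h2
        exact ⟨_, h2.symm⟩
      set S' : Finset (List Bool) := S.preimage (fun w => true :: w)
        (fun a _ b _ hab => (List.cons.inj hab).2) with hS'
      have hmem : ∀ w, w ∈ S' ↔ true :: w ∈ S := fun w => Finset.mem_preimage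
      have hsum' : ∑ w ∈ S', rV h d.shT (D.tw w)
          (iota (K := K) m n' (Cc m d (p (true :: w)))) = 0 := by
        funext w'
        have h1 := congrFun hsum (true :: w')
        rw [Finset.sum_apply] at h1 ⊢
        rw [← Finset.sum_preimage (fun w => true :: w) S
          (fun a _ b _ hab => (List.cons.inj hab).2)] at h1
        · refine Eq.trans ?_ h1
          refine Finset.sum_congr rfl fun w hw => ?_
          have hw1 := (hS _ ((hmem w).1 hw)).1
          rw [List.count_cons_of_ne (by decide)] at hw1
          have h2 : D.tw (true :: w) = D.shn 1 (D.tw w) * D.chain (w.count false) := rfl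
          rw [h2, hw1, rV_mul, (hV h P d _ _ _).2.1]
          have h3 : tl (K := K) true (rV h d (D.chain m)
              (iota (K := K) m (n' + 1) (p (true :: w)))) =
              iota (K := K) m n' (Cc m d (p (true :: w))) := by
            funext w''
            exact rV_chain h hV m n' d _ w''
          rw [h3]
        · intro w hw hnr
          rcases w with _ | ⟨b, w⟩
          · exact absurd rfl (hne _ hw)
          cases b
          · obtain ⟨m', rfl⟩ : ∃ m', m = m' + 1 := by
              obtain ⟨h2, _⟩ := hS _ hw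
              rw [List.count_cons_self] at h2
              exact ⟨_, h2.symm⟩
            have h2 : D.tw (false :: w) = D.shn 1 (D.tw w) := rfl
            rw [h2, (hV h P d _ _ _).2.1, tl_true_iota_succ, map_zero]
            rfl
          · exact absurd ⟨w, rfl⟩ hnr
      have h4 := ih d.shT m n' (by omega) hr1 (strand_shift hr2) S' (by
        intro w hw
        obtain ⟨h5, h6⟩ := hS _ ((hmem w).1 hw)
        rw [List.count_cons_of_ne (by decide)] at h5
        rw [List.count_cons_self] at h6
        exact ⟨h5, by omega⟩) (fun w => Cc m d (p (true :: w))) hsum' w0 ((hmem w0).2 hw0)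
      exact Cc_injective m n' d hr1 hr2 h4
    -- the words which begin with `false`
    have hfalse : ∀ w, false :: w ∈ S → p (false :: w) = 0 := by
      intro w0 hw0
      obtain ⟨m', rfl⟩ : ∃ m', m = m' + 1 := by
        obtain ⟨h2, _⟩ := hS _ hw0
        rw [List.count_cons_self] at h2
        exact ⟨_, h2.symm⟩
      set S' : Finset (List Bool) := S.preimage (fun w => false :: w)
        (fun a _ b _ hab => (List.cons.inj hab).2) with hS'
      have hmem : ∀ w, w ∈ S' ↔ false :: w ∈ S := fun w => Finset.mem_preimage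
      have hsum' : ∑ w ∈ S', rV h d.shF (D.tw w)
          (iota (K := K) m' n (p (false :: w))) = 0 := by
        funext w'
        have h1 := congrFun hsum (false :: w')
        rw [Finset.sum_apply] at h1 ⊢
        rw [← Finset.sum_preimage (fun w => false :: w) S
          (fun a _ b _ hab => (List.cons.inj hab).2)] at h1
        · refine Eq.trans ?_ h1
          refine Finset.sum_congr rfl fun w hw => ?_
          have h2 : D.tw (false :: w) = D.shn 1 (D.tw w) := rfl
          rw [h2, (hV h P d _ _ _).1, tl_false_iota_succ]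
        · intro w hw hnr
          rcases w with _ | ⟨b, w⟩
          · exact absurd rfl (hne _ hw)
          cases b
          · exact absurd ⟨w, rfl⟩ hnr
          · rw [htrue w hw, map_zero, map_zero]
            rfl
      exact ih d.shF m' n (by omega) (strand_shift hr1) hr2 S' (by
        intro w hw
        obtain ⟨h5, h6⟩ := hS _ ((hmem w).1 hw)
        rw [List.count_cons_self] at h5
        rw [List.count_cons_of_ne (by decide)] at h6
        exact ⟨by omega, h6⟩) (fun w => p (false :: w)) hsum' w0 ((hmem w0).2 hw0)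
    intro w hw
    rcases w with _ | ⟨b, w⟩
    · exact absurd rfl (hne _ hw)
    cases b
    · exact hfalse w hw
    · exact htrue w hw

end Ind

theorem prf_ind (D : Datum K I) (hV : S_rV D) : S_ind D := by
  intro h P _ _ d m n h1 h2 S hS p hsum
  exact Ind.main h hV (m + n) d m n rfl h1 h2 S hS p hsum

end Pbw

end Pool.Agent.KLR
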