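import Pool.Agent.Work.MP_e487d8_al.Pbw.Glue

/-! MP_e487d8_al, PBW block: the shuffle basis theorem, from stability (`S_stable`), independence for
localised modules (`S_ind`) and the deformation (`S_def`). -/

set_option autoImplicit false

open scoped TensorProduct

namespace Pool.Agent.KLR

variable {K I : Type} [Field K] [Fintype I] [DecidableEq I]

namespace Pbw

namespace MainX

section act

variable (D : Datum K I) (M N : Type) [AddCommGroup M] [Module K M] [Module (KLRAlg D) M]
  [IsScalarTower K (KLRAlg D) M] [AddCommGroup N] [Module K N] [Module (KLRAlg D) N]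
  [IsScalarTower K (KLRAlg D) N]

/-- the action on the first factor -/
noncomputable def act1 : KLRAlg D →ₐ[K] Module.End K (M ⊗[K] N) :=
  (Module.End.rTensorAlgHom K M N).comp (Algebra.lsmul K K M)

/-- the action on the second factor -/
noncomputable def act2 : KLRAlg D →ₐ[K] Module.End K (M ⊗[K] N) :=
  (Module.End.lTensorAlgHom K N M).comp (Algebra.lsmul K K N)

theorem act1_tmul (a : KLRAlg D) (u : M) (v : N) : act1 D M N a (u ⊗ₜ v) = (a • u) ⊗ₜ v := rfl

theorem act2_tmul (a : KLRAlg D) (u : M) (v : N) : act2 D M N a (u ⊗ₜ v) = u ⊗ₜ (a • v) := rfl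

theorem act_comm (a b : KLRAlg D) : act1 D M N a * act2 D M N b = act2 D M N b * act1 D M N a := by
  apply TensorProduct.ext'
  intro u v
  rfl

theorem act1_strand {m : ℕ} (h : IsStrand D m M) : StrandHom D m (act1 D M N) where
  one k hk := by
    apply TensorProduct.ext'
    intro u v
    rw [act1_tmul, h.one k hk]
    rfl
  zero k hk i := by
    apply TensorProduct.ext'
    intro u v
    rw [act1_tmul, h.zero k hk, TensorProduct.zero_tmul]
    rfl

theorem act2_strand {n : ℕ} (h : IsStrand D n N) : StrandHom D n (act2 D M N) where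
  one k hk := by
    apply TensorProduct.ext'
    intro u v
    rw [act2_tmul, h.one k hk]
    rfl
  zero k hk i := by
    apply TensorProduct.ext'
    intro u v
    rw [act2_tmul, h.zero k hk, TensorProduct.tmul_zero]
    rfl

end act

section sum

variable {D : Datum K I} {m n : ℕ} {U U' V : Type} [AddCommGroup U] [Module K U]
  [AddCommGroup U'] [Module K U'] [AddCommGroup V] [Module K V]

/-- the sum over the shuffles -/
noncomputable def shSum (m n : ℕ) (r : KLRAlg D →ₐ[K] Module.End K V) (β : U →ₗ[K] V) :
    (Shf m n →₀ U) →ₗ[K] V :=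
  Finsupp.lsum K fun w => (r (D.tw w.1)).comp β

theorem shSum_single (r : KLRAlg D →ₐ[K] Module.End K V) (β : U →ₗ[K] V) (w : Shf m n) (p : U) :
    shSum m n r β (Finsupp.single w p) = r (D.tw w.1) (β p) := by
  simp [shSum]

theorem shSum_apply (r : KLRAlg D →ₐ[K] Module.End K V) (β : U →ₗ[K] V) (f : Shf m n →₀ U) :
    shSum m n r β f = ∑ w ∈ f.support, r (D.tw w.1) (β (f w)) := by
  simp [shSum, Finsupp.sum]

theorem shSum_comp (r : KLRAlg D →ₐ[K] Module.End K V) (β : U →ₗ[K] V) (s : U' →ₗ[K] U)
    (f : Shf m n →₀ U') :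
    shSum m n r β (Finsupp.mapRange.linearMap s f) = shSum m n r (β.comp s) f := by
  have h : (shSum m n r β).comp (Finsupp.mapRange.linearMap s) = shSum m n r (β.comp s) := by
    apply Finsupp.lhom_ext
    intro w p
    rw [LinearMap.comp_apply, Finsupp.mapRange.linearMap_apply, Finsupp.mapRange_single, shSum_single,
      shSum_single]
    rfl
  exact LinearMap.congr_fun h f

theorem shSpan_le (r : KLRAlg D →ₐ[K] Module.End K V) (β : U →ₗ[K] V) :
    shSpan D m n r ⊥ β ≤ LinearMap.range (shSum m n r β) := by
  unfold shSpan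
  refine sup_le bot_le (Submodule.span_le.2 ?_)
  rintro y ⟨w, p, h1, h2, rfl⟩
  exact ⟨Finsupp.single ⟨w, h1, h2⟩ p, shSum_single r β _ p⟩

theorem tw_true (D : Datum K I) (n : ℕ) : D.tw (List.replicate n true) = 1 := by
  induction n with
  | zero => rfl
  | succ n ih =>
    rw [List.replicate_succ]
    show D.shn 1 (D.tw (List.replicate n true)) * D.chain ((List.replicate n true).count false) = 1
    rw [ih, map_one, one_mul, List.count_replicate]
    rfl

theorem tw_word (D : Datum K I) (m n : ℕ) :
    D.tw (List.replicate m false ++ List.replicate n true) = 1 := by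
  induction m with
  | zero => exact tw_true D n
  | succ m ih =>
    rw [List.replicate_succ, List.cons_append]
    show D.shn 1 (D.tw (List.replicate m false ++ List.replicate n true)) = 1
    rw [ih, map_one]

theorem mem_shSpan (r : KLRAlg D →ₐ[K] Module.End K V) (β : U →ₗ[K] V) (p : U) :
    β p ∈ shSpan D m n r ⊥ β := by
  unfold shSpan
  refine Submodule.mem_sup_right (Submodule.subset_span
    ⟨List.replicate m false ++ List.replicate n true, p, ?_, ?_, ?_⟩)
  · simp [List.count_append, List.count_replicate]
  · simp [List.count_append, List.count_replicate]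
  · rw [tw_word, map_one]
    rfl

end sum

section basic

variable {D : Datum K I} {P : Type} [AddCommGroup P] [Module K P]

/-- restriction of an action to a stable subspace -/
noncomputable def resHom (r : KLRAlg D →ₐ[K] Module.End K P) (P0 : Submodule K P)
    (h : ∀ a, ∀ f ∈ P0, r a f ∈ P0) : KLRAlg D →ₐ[K] Module.End K P0 :=
  AlgHom.ofLinearMap
    { toFun := fun a => (r a).restrict (h a)
      map_add' := fun a b => by
        ext f
        simp [LinearMap.restrict_apply]
      map_smul' := fun k a => by
        ext f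
        simp [LinearMap.restrict_apply] }
    (by
      ext f
      simp [LinearMap.restrict_apply])
    (fun a b => by
      ext f
      simp [LinearMap.restrict_apply])

theorem resHom_apply (r : KLRAlg D →ₐ[K] Module.End K P) (P0 : Submodule K P)
    (h : ∀ a, ∀ f ∈ P0, r a f ∈ P0) (a : KLRAlg D) (f : P0) :
    ((resHom r P0 h a f : P0) : P) = r a f := rfl

theorem resHom_strand {m : ℕ} (r : KLRAlg D →ₐ[K] Module.End K P) (P0 : Submodule K P)
    (h : ∀ a, ∀ f ∈ P0, r a f ∈ P0) (hr : StrandHom D m r) : StrandHom D m (resHom r P0 h) where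
  one k hk := by
    ext f
    rw [resHom_apply, hr.one k hk]
    rfl
  zero k hk i := by
    ext f
    rw [resHom_apply, hr.zero k hk]
    rfl

/-- the action on the quotient by a stable subspace -/
noncomputable def quoHom (r : KLRAlg D →ₐ[K] Module.End K P) (P1 : Submodule K P)
    (h : ∀ a, ∀ f ∈ P1, r a f ∈ P1) : KLRAlg D →ₐ[K] Module.End K (P ⧸ P1) :=
  AlgHom.ofLinearMap
    { toFun := fun a => P1.mapQ P1 (r a) (h a)
      map_add' := fun a b => by
        apply Submodule.linearMap_qext
        ext f
        simp [Submodule.mapQ_apply]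
      map_smul' := fun k a => by
        apply Submodule.linearMap_qext
        ext f
        simp [Submodule.mapQ_apply] }
    (by
      apply Submodule.linearMap_qext
      ext f
      simp [Submodule.mapQ_apply])
    (fun a b => by
      apply Submodule.linearMap_qext
      ext f
      simp [Submodule.mapQ_apply])

theorem quoHom_apply (r : KLRAlg D →ₐ[K] Module.End K P) (P1 : Submodule K P)
    (h : ∀ a, ∀ f ∈ P1, r a f ∈ P1) (a : KLRAlg D) (f : P) :
    quoHom r P1 h a (P1.mkQ f) = P1.mkQ (r a f) := rfl

end basic

/-- universal property of the convolution product for an action given by a homomorphism -/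
theorem exists_lift {D : Datum K I} {m : ℕ} {M N W : Type} [AddCommGroup M] [Module K M]
    [Module (KLRAlg D) M] [IsScalarTower K (KLRAlg D) M] [AddCommGroup N] [Module K N]
    [Module (KLRAlg D) N] [IsScalarTower K (KLRAlg D) N] [AddCommGroup W] [Module K W]
    (r : KLRAlg D →ₐ[K] Module.End K W) (β : M →ₗ[K] N →ₗ[K] W)
    (h1 : ∀ a u v, r (D.tr m a) (β u v) = β (a • u) v)
    (h2 : ∀ a u v, r (D.shn m a) (β u v) = β u (a • v)) :
    ∃ Φ : Conv D m M N →ₗ[K] W, ∀ a u v, Φ (a • Conv.mk D m M N u v) = r a (β u v) := by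
  let _ : Module (KLRAlg D) W := Module.compHom W (r : KLRAlg D →+* Module.End K W)
  have hsm : ∀ (a : KLRAlg D) (x : W), a • x = r a x := fun a x => rfl
  have _ : IsScalarTower K (KLRAlg D) W := ⟨fun k a x => by
    rw [hsm, hsm, map_smul]
    rfl⟩
  have hB : Balanced D m β := ⟨fun a u v => h1 a u v, fun a u v => h2 a u v⟩
  refine ⟨Conv.toK (Conv.lift β hB), fun a u v => ?_⟩
  rw [Conv.toK_apply, map_smul, Conv.lift_mk, hsm]

end MainX

open MainX

theorem basis_of (D : Datum K I) (hs : S_stable D) (hr : S_rels D) (hb : S_bal D) (hi : S_ind D)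
    (hd : S_def D) : S_basis D := by
  intro m n M N _ _ _ _ _ _ _ _ hM hN
  have hconv : convSum D m n M N =
      shSum m n (Algebra.lsmul K K (Conv D m M N)) (TensorProduct.lift (Conv.mk D m M N)) := rfl
  constructor
  · -- injectivity
    rw [injective_iff_map_eq_zero]
    intro f hf
    obtain ⟨P, _, _, d, z, P0, c0, s0, hdM, hdN, hz1, hz2, hP1, hP2, hPz, hs0, hc0⟩ :=
      hd m n (M ⊗[K] N) (act1 D M N) (act2 D M N) (act_comm D M N) (act1_strand D M N hM)
        (act2_strand D M N hN)
    -- the submodule `V1`
    let β1 : P0 →ₗ[K] (List Bool → P) := (Loc.iota (K := K) m n).comp (z.comp P0.subtype)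
    have hβ1 : ∀ p : P0, β1 p = Loc.iota (K := K) m n (z p) := fun p => rfl
    let V1 : Submodule K (List Bool → P) := shSpan D m n (rV hr d) ⊥ β1
    have hV1 : ∀ a, ∀ y ∈ V1, rV hr d a y ∈ V1 := by
      apply hs m n P0 (List Bool → P) (resHom d.r1 P0 hP1) (resHom d.r2 P0 hP2) (rV hr d) ⊥ β1
        (resHom_strand _ _ _ hdM) (resHom_strand _ _ _ hdN)
      · intro a y hy
        rw [Submodule.mem_bot] at hy ⊢
        rw [hy, map_zero]
      · intro a p
        rw [Submodule.mem_bot, sub_eq_zero, hβ1, hβ1, (hb hr P d m n hdM hdN a _).1, resHom_apply]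
        exact congrArg _ (LinearMap.congr_fun (hz1 a) (p : P)).symm
      · intro a p
        rw [Submodule.mem_bot, sub_eq_zero, hβ1, hβ1, (hb hr P d m n hdM hdN a _).2, resHom_apply]
        exact congrArg _ (LinearMap.congr_fun (hz2 a) (p : P)).symm
    have hmem : ∀ g ∈ P0, Loc.iota (K := K) m n (z g) ∈ V1 := by
      intro g hg
      exact mem_shSpan (rV hr d) β1 ⟨g, hg⟩
    -- the map to the quotient
    let β : M →ₗ[K] N →ₗ[K] ((List Bool → P) ⧸ V1) :=
      TensorProduct.curry (V1.mkQ.comp ((Loc.iota (K := K) m n).comp s0))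
    have hβ : ∀ u v, β u v = V1.mkQ (Loc.iota (K := K) m n (s0 (u ⊗ₜ v))) := fun u v => rfl
    obtain ⟨Φ, hΦ⟩ := exists_lift (D := D) (m := m) (M := M) (N := N) (quoHom (rV hr d) V1 hV1) β
      (by
        intro a u v
        rw [hβ, hβ, quoHom_apply, (hb hr P d m n hdM hdN a _).1, ← sub_eq_zero, ← map_sub, ← map_sub,
          Submodule.mkQ_apply, Submodule.Quotient.mk_eq_zero]
        have h1 : d.r1 a (s0 (u ⊗ₜ v)) ∈ P0 := hP1 a _ (hs0 _).1
        obtain ⟨_, _, g, hg, hg2⟩ := hc0 _ h1
        obtain ⟨_, h3, _⟩ := hc0 _ (hs0 (u ⊗ₜ v)).1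
        rw [(h3 a).1, (hs0 _).2, act1_tmul] at hg2
        rw [hg2]
        exact hmem g hg)
      (by
        intro a u v
        rw [hβ, hβ, quoHom_apply, (hb hr P d m n hdM hdN a _).2, ← sub_eq_zero, ← map_sub, ← map_sub,
          Submodule.mkQ_apply, Submodule.Quotient.mk_eq_zero]
        have h1 : d.r2 a (s0 (u ⊗ₜ v)) ∈ P0 := hP2 a _ (hs0 _).1
        obtain ⟨_, _, g, hg, hg2⟩ := hc0 _ h1
        obtain ⟨_, h3, _⟩ := hc0 _ (hs0 (u ⊗ₜ v)).1
        rw [(h3 a).2, (hs0 _).2, act2_tmul] at hg2
        rw [hg2]
        exact hmem g hg)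
    have hΦ2 : ∀ g : Shf m n →₀ (M ⊗[K] N), Φ (convSum D m n M N g) =
        V1.mkQ (shSum m n (rV hr d) ((Loc.iota (K := K) m n).comp s0) g) := by
      intro g
      have h : Φ.comp (convSum D m n M N) =
          V1.mkQ.comp (shSum m n (rV hr d) ((Loc.iota (K := K) m n).comp s0)) := by
        apply Finsupp.lhom_ext'
        intro w
        apply TensorProduct.ext'
        intro u v
        rw [LinearMap.comp_apply, LinearMap.comp_apply, LinearMap.comp_apply, LinearMap.comp_apply,
          Finsupp.lsingle_apply, convSum_single, shSum_single, hΦ]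
        rfl
      exact LinearMap.congr_fun h g
    have hz := hΦ2 f
    rw [hf, map_zero, eq_comm, Submodule.mkQ_apply, Submodule.Quotient.mk_eq_zero] at hz
    obtain ⟨g, hg⟩ := shSpan_le (rV hr d) β1 hz
    -- independence
    let F : Shf m n →₀ P := Finsupp.mapRange.linearMap s0 f -
      Finsupp.mapRange.linearMap (z.comp P0.subtype) g
    have hF : shSum m n (rV hr d) (Loc.iota (K := K) m n) F = 0 := by
      show shSum m n (rV hr d) (Loc.iota (K := K) m n) (Finsupp.mapRange.linearMap s0 f -
        Finsupp.mapRange.linearMap (z.comp P0.subtype) g) = 0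
      rw [map_sub, shSum_comp, shSum_comp, sub_eq_zero]
      exact hg.symm
    have hF0 : ∀ w, F w = 0 := by
      classical
      let p : List Bool → P := fun w =>
        if h : w.count false = m ∧ w.count true = n then F ⟨w, h⟩ else 0
      have hp : ∀ w : Shf m n, p w.1 = F w := by
        intro w
        have : (w.1.count false = m ∧ w.1.count true = n) := w.2
        show (if h : w.1.count false = m ∧ w.1.count true = n then F ⟨w.1, h⟩ else 0) = F w
        rw [dif_pos this]
        rfl
      let S : Finset (List Bool) := F.support.map ⟨fun w => w.1, Subtype.val_injective⟩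
      have hS : ∀ w ∈ S, w.count false = m ∧ w.count true = n := by
        intro w hw
        obtain ⟨w', _, rfl⟩ := Finset.mem_map.1 hw
        exact w'.2
      have h0 := hi hr P d m n hdM hdN S hS p (by
        rw [Finset.sum_map]
        rw [shSum_apply] at hF
        rw [← hF]
        refine Finset.sum_congr rfl fun w _ => ?_
        show rV hr d (D.tw w.1) (Loc.iota (K := K) m n (p w.1)) = _
        rw [hp w])
      intro w
      by_contra hw
      have hw2 : w.1 ∈ S := Finset.mem_map.2 ⟨w, Finsupp.mem_support_iff.2 hw, rfl⟩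
      have := h0 _ hw2
      rw [hp w] at this
      exact hw this
    ext w
    have h1 : s0 (f w) = z (g w : P) := by
      have h2 := hF0 w
      have h3 : F w = s0 (f w) - z (g w : P) := rfl
      rw [h3, sub_eq_zero] at h2
      exact h2
    have h4 := congrArg c0 h1
    rw [(hs0 _).2, (hc0 _ (g w).2).1] at h4
    rw [h4]
    rfl
  · -- surjectivity
    have hst := hs m n (M ⊗[K] N) (Conv D m M N) (act1 D M N) (act2 D M N)
      (Algebra.lsmul K K (Conv D m M N)) ⊥ (TensorProduct.lift (Conv.mk D m M N))
      (act1_strand D M N hM) (act2_strand D M N hN)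
      (by
        intro a y hy
        rw [Submodule.mem_bot] at hy ⊢
        rw [hy, map_zero])
      (by
        intro a p
        rw [Submodule.mem_bot, sub_eq_zero]
        induction p using TensorProduct.induction_on with
        | zero => simp only [map_zero]
        | tmul u v =>
          rw [act1_tmul, TensorProduct.lift.tmul, TensorProduct.lift.tmul]
          exact Conv.tr_smul_mk a u v
        | add p q hp hq => simp only [map_add, hp, hq])
      (by
        intro a p
        rw [Submodule.mem_bot, sub_eq_zero]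
        induction p using TensorProduct.induction_on with
        | zero => simp only [map_zero]
        | tmul u v =>
          rw [act2_tmul, TensorProduct.lift.tmul, TensorProduct.lift.tmul]
          exact Conv.shn_smul_mk a u v
        | add p q hp hq => simp only [map_add, hp, hq])
    intro y
    have hy : y ∈ shSpan D m n (Algebra.lsmul K K (Conv D m M N)) ⊥
        (TensorProduct.lift (Conv.mk D m M N)) := by
      induction y using Conv.induction with
      | h0 => exact Submodule.zero_mem _
      | hadd y z hy hz => exact Submodule.add_mem _ hy hz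
      | h a u v =>
        have h1 := mem_shSpan (D := D) (m := m) (n := n) (Algebra.lsmul K K (Conv D m M N))
          (TensorProduct.lift (Conv.mk D m M N)) (u ⊗ₜ v)
        have h2 := hst a _ h1
        rw [TensorProduct.lift.tmul] at h2
        exact h2
    obtain ⟨g, hg⟩ := shSpan_le _ _ hy
    exact ⟨g, hg⟩

end Pbw

end Pool.Agent.KLR
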