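import Pool.Agent.Work.MP_e487d8_al.Pbw.RBc

/-! MP_e487d8_al, PBW block: the braid relation for the operators on functions on words. -/

set_option autoImplicit false
set_option linter.unusedSimpArgs false

namespace Pool.Agent.KLR

variable {K I : Type} [Field K] [Fintype I] [DecidableEq I]

namespace Pbw

variable {D : Datum K I} {P : Type} [AddCommGroup P] [Module K P]

/-- `G` acts at the word `w` by `g` -/
def At (G : Module.End K (List Bool → P)) (w : List Bool) (g : Module.End K P) : Prop :=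
  ∀ f, G f w = g (f w)

namespace At

variable {G H : Module.End K (List Bool → P)} {w : List Bool} {g h : Module.End K P}

theorem mul (hG : At G w g) (hH : At H w h) : At (G * H) w (g * h) := fun f => by
  rw [Module.End.mul_apply, hG, hH, Module.End.mul_apply]
theorem sub (hG : At G w g) (hH : At H w h) : At (G - H) w (g - h) := fun f => by
  rw [LinearMap.sub_apply, Pi.sub_apply, hG, hH, LinearMap.sub_apply]
theorem add (hG : At G w g) (hH : At H w h) : At (G + H) w (g + h) := fun f => by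
  rw [LinearMap.add_apply, Pi.add_apply, hG, hH, LinearMap.add_apply]
theorem smul (r : K) (hG : At G w g) : At (r • G) w (r • g) := fun f => by
  rw [LinearMap.smul_apply, Pi.smul_apply, hG, LinearMap.smul_apply]
theorem zero : At (0 : Module.End K (List Bool → P)) w 0 := fun _ => rfl
theorem one : At (1 : Module.End K (List Bool → P)) w 1 := fun _ => rfl
theorem pow (hG : At G w g) (n : ℕ) : At (G ^ n) w (g ^ n) := by
  induction n with
  | zero => rw [pow_zero, pow_zero]; exact one
  | succ n ih => rw [pow_succ, pow_succ]; exact ih.mul hG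
theorem sum {ι : Type*} (s : Finset ι) {F : ι → Module.End K (List Bool → P)}
    {f : ι → Module.End K P} (hf : ∀ i ∈ s, At (F i) w (f i)) :
    At (∑ i ∈ s, F i) w (∑ i ∈ s, f i) := by
  classical
  induction s using Finset.induction_on with
  | empty => exact zero
  | insert a s ha ih =>
    rw [Finset.sum_insert ha, Finset.sum_insert ha]
    exact (hf a (Finset.mem_insert_self a s)).add
      (ih fun i hi => hf i (Finset.mem_insert_of_mem hi))

/-- the right side of the braid relation -/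
theorem rhs {D : Datum K I} {X0 X1 X2 : Module.End K (List Bool → P)}
    {E0 E1 E2 : I → Module.End K (List Bool → P)} {x0 x1 x2 : Module.End K P}
    {e0 e1 e2 : I → Module.End K P} (hx0 : At X0 w x0) (hx1 : At X1 w x1) (hx2 : At X2 w x2)
    (he0 : ∀ i, At (E0 i) w (e0 i)) (he1 : ∀ i, At (E1 i) w (e1 i))
    (he2 : ∀ i, At (E2 i) w (e2 i)) :
    At (∑ i, ∑ j, if i = j then 0 else
      D.c i j • ((∑ p ∈ Finset.range (D.q i j),
        (X0 - X1) ^ p * (X2 - X1) ^ (D.q i j - 1 - p)) * (E0 i * E1 j * E2 i))) w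
    (∑ i, ∑ j, if i = j then 0 else
      D.c i j • ((∑ p ∈ Finset.range (D.q i j),
        (x0 - x1) ^ p * (x2 - x1) ^ (D.q i j - 1 - p)) * (e0 i * e1 j * e2 i))) := by
  refine sum _ fun i _ => sum _ fun j _ => ?_
  split_ifs
  · exact zero
  · exact smul _ ((sum _ fun p _ => ((hx0.sub hx1).pow _).mul ((hx2.sub hx1).pow _)).mul
      (((he0 i).mul (he1 j)).mul (he2 i)))

theorem rhs0 {D : Datum K I} {X0 X1 X2 : Module.End K (List Bool → P)}
    {E0 E1 E2 : I → Module.End K (List Bool → P)} {x0 x1 x2 : Module.End K P}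
    {e0 e1 : I → Module.End K P} (hx0 : At X0 w x0) (hx1 : At X1 w x1) (hx2 : At X2 w x2)
    (he0 : ∀ i, At (E0 i) w (e0 i)) (he1 : ∀ i, At (E1 i) w (e1 i))
    (he2 : ∀ i, At (E2 i) w 0) (f : List Bool → P) :
    (∑ i, ∑ j, if i = j then 0 else
      D.c i j • ((∑ p ∈ Finset.range (D.q i j),
        (X0 - X1) ^ p * (X2 - X1) ^ (D.q i j - 1 - p)) * (E0 i * E1 j * E2 i))) f w = 0 := by
  rw [rhs (D := D) hx0 hx1 hx2 he0 he1 he2 f]
  have h : (∑ i, ∑ j, if i = j then 0 else
      D.c i j • ((∑ p ∈ Finset.range (D.q i j),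
        (x0 - x1) ^ p * (x2 - x1) ^ (D.q i j - 1 - p)) * (e0 i * e1 j * 0)) :
        Module.End K P) = 0 := by
    refine Finset.sum_eq_zero fun i _ => Finset.sum_eq_zero fun j _ => ?_
    split_ifs
    · rfl
    · rw [mul_zero, mul_zero, smul_zero]
  rw [h]
  rfl

end At

namespace Loc

variable (d : Loc D P)

theorem opE_one (i : I) : opE 1 i d = glue (opE 0 i d.shF) (opE 0 i d.shT) := rfl
theorem opX_one : opX 1 d = glue (opX 0 d.shF) (opX 0 d.shT) := rfl
theorem opT_one : opT 1 d = glue d.shF.T0 d.shT.T0 := rfl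

theorem shF_A : d.shF.A 0 0 = d.A 1 0 := by
  unfold A dd
  simp only [shF_r1, shF_r2, Datum.shn_e]
  rfl
theorem shT_A : d.shT.A 0 0 = d.A 0 1 := by
  unfold A dd
  simp only [shT_r1, shT_r2, Datum.shn_e]
  rfl
theorem shF_nn : d.shF.nn 0 0 = d.nn 1 0 := by
  unfold nn
  simp only [shF_r1, shF_r2, Datum.shn_e]
theorem shT_nn : d.shT.nn 0 0 = d.nn 0 1 := by
  unfold nn
  simp only [shT_r1, shT_r2, Datum.shn_e]
theorem shF_qq : d.shF.qq 0 0 = d.qq 1 0 := by
  unfold qq
  simp only [shF_r1, shF_r2, Datum.shn_e, Datum.shn_x]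
theorem shT_qq : d.shT.qq 0 0 = d.qq 0 1 := by
  unfold qq
  simp only [shT_r1, shT_r2, Datum.shn_e, Datum.shn_x]

theorem braid_F : d.r1 (D.t 1) * d.r1 (D.t 0) * d.r1 (D.t 1) -
    d.r1 (D.t 0) * d.r1 (D.t 1) * d.r1 (D.t 0) = ∑ i, ∑ j, if i = j then 0 else
      D.c i j • ((∑ p ∈ Finset.range (D.q i j),
        (d.r1 (D.x 0) - d.r1 (D.x 1)) ^ p * (d.r1 (D.x 2) - d.r1 (D.x 1)) ^ (D.q i j - 1 - p)) *
          (d.r1 (D.e 0 i) * d.r1 (D.e 1 j) * d.r1 (D.e 2 i))) := by
  rw [← map_mul, ← map_mul, ← map_mul, ← map_mul, ← map_sub, D.t_braid, map_sum]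
  refine Finset.sum_congr rfl fun i _ => ?_
  rw [map_sum]
  refine Finset.sum_congr rfl fun j _ => ?_
  split_ifs
  · exact map_zero _
  · simp only [map_smul, map_mul, map_sum, map_pow, map_sub]

theorem opT_one_F (f : List Bool → P) (w : List Bool) :
    opT 1 d f (false :: w) = d.shF.T0 (tl (K := K) false f) w := rfl
theorem opT_one_T (f : List Bool → P) (w : List Bool) :
    opT 1 d f (true :: w) = d.shT.T0 (tl (K := K) true f) w := rfl

/-- the left side at a word -/
theorem lhs_apply (f : List Bool → P) (w : List Bool) :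
    (opT 1 d * opT 0 d * opT 1 d - opT 0 d * opT 1 d * opT 0 d) f w =
      opT 1 d (d.T0 (opT 1 d f)) w - d.T0 (opT 1 d (d.T0 f)) w := rfl

section values

variable (f : List Bool → P) (w : List Bool)

theorem T1_FFF : opT 1 d f (false :: false :: false :: w) =
    d.r1 (D.t 1) (f (false :: false :: false :: w)) := by
  rw [opT_one_F, T0_FF, shF_r1, Datum.shn_t]
  rfl
theorem T1_FTT : opT 1 d f (false :: true :: true :: w) =
    d.r2 (D.t 0) (f (false :: true :: true :: w)) := rfl
theorem T1_FFT : opT 1 d f (false :: false :: true :: w) =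
    (d.A 1 0 + d.qq 1 0) (f (false :: true :: false :: w)) -
      d.A 1 0 (f (false :: false :: true :: w)) := by
  rw [opT_one_F, T0_FT, shF_A, shF_qq]
  rfl
theorem T1_FTF : opT 1 d f (false :: true :: false :: w) =
    d.A 1 0 (f (false :: true :: false :: w)) +
      (d.nn 1 0 - d.A 1 0) (f (false :: false :: true :: w)) := by
  rw [opT_one_F, T0_TF, shF_A, shF_nn]
  rfl
theorem T1_TTT : opT 1 d f (true :: true :: true :: w) =
    d.r2 (D.t 1) (f (true :: true :: true :: w)) := by
  rw [opT_one_T, T0_TT, shT_r2, Datum.shn_t]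
  rfl
theorem T1_TFF : opT 1 d f (true :: false :: false :: w) =
    d.r1 (D.t 0) (f (true :: false :: false :: w)) := rfl
theorem T1_TFT : opT 1 d f (true :: false :: true :: w) =
    (d.A 0 1 + d.qq 0 1) (f (true :: true :: false :: w)) -
      d.A 0 1 (f (true :: false :: true :: w)) := by
  rw [opT_one_T, T0_FT, shT_A, shT_qq]
  rfl
theorem T1_TTF : opT 1 d f (true :: true :: false :: w) =
    d.A 0 1 (f (true :: true :: false :: w)) +
      (d.nn 0 1 - d.A 0 1) (f (true :: false :: true :: w)) := by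
  rw [opT_one_T, T0_TF, shT_A, shT_nn]
  rfl

end values

/-! the dots and idempotents at words -/

theorem atX0F (w : List Bool) : At (opX 0 d) (false :: w) (d.r1 (D.x 0)) := fun _ => rfl
theorem atX0T (w : List Bool) : At (opX 0 d) (true :: w) (d.r2 (D.x 0)) := fun _ => rfl
theorem atE0F (w : List Bool) (i : I) : At (opE 0 i d) (false :: w) (d.r1 (D.e 0 i)) :=
  fun _ => rfl
theorem atE0T (w : List Bool) (i : I) : At (opE 0 i d) (true :: w) (d.r2 (D.e 0 i)) :=
  fun _ => rfl
theorem atXnil (k : ℕ) : At (opX k d) [] 0 := fun f => opX_nil k d f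
theorem atEnil (k : ℕ) (i : I) : At (opE k i d) [] 0 := fun f => opE_nil k i d f
variable {d} in
theorem atXF {k : ℕ} {w : List Bool} {g : Module.End K P} (h : At (opX k d.shF) w g) :
    At (opX (k + 1) d) (false :: w) g := fun f => h (tl (K := K) false f)
variable {d} in
theorem atXT {k : ℕ} {w : List Bool} {g : Module.End K P} (h : At (opX k d.shT) w g) :
    At (opX (k + 1) d) (true :: w) g := fun f => h (tl (K := K) true f)
variable {d} in
theorem atEF {k : ℕ} {i : I} {w : List Bool} {g : Module.End K P} (h : At (opE k i d.shF) w g) :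
    At (opE (k + 1) i d) (false :: w) g := fun f => h (tl (K := K) false f)
variable {d} in
theorem atET {k : ℕ} {i : I} {w : List Bool} {g : Module.End K P} (h : At (opE k i d.shT) w g) :
    At (opE (k + 1) i d) (true :: w) g := fun f => h (tl (K := K) true f)

theorem atX1FF (w : List Bool) : At (opX 1 d) (false :: false :: w) (d.r1 (D.x 1)) := by
  have h := atXF (atX0F d.shF w)
  rwa [shF_r1, Datum.shn_x] at h
theorem atX1FT (w : List Bool) : At (opX 1 d) (false :: true :: w) (d.r2 (D.x 0)) :=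
  atXF (atX0T d.shF w)
theorem atX1TF (w : List Bool) : At (opX 1 d) (true :: false :: w) (d.r1 (D.x 0)) :=
  atXT (atX0F d.shT w)
theorem atX1TT (w : List Bool) : At (opX 1 d) (true :: true :: w) (d.r2 (D.x 1)) := by
  have h := atXT (atX0T d.shT w)
  rwa [shT_r2, Datum.shn_x] at h
theorem atE1FF (w : List Bool) (i : I) : At (opE 1 i d) (false :: false :: w) (d.r1 (D.e 1 i)) := by
  have h := atEF (atE0F d.shF w i)
  rwa [shF_r1, Datum.shn_e] at h
theorem atE1FT (w : List Bool) (i : I) : At (opE 1 i d) (false :: true :: w) (d.r2 (D.e 0 i)) :=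
  atEF (atE0T d.shF w i)
theorem atE1TF (w : List Bool) (i : I) : At (opE 1 i d) (true :: false :: w) (d.r1 (D.e 0 i)) :=
  atET (atE0F d.shT w i)
theorem atE1TT (w : List Bool) (i : I) : At (opE 1 i d) (true :: true :: w) (d.r2 (D.e 1 i)) := by
  have h := atET (atE0T d.shT w i)
  rwa [shT_r2, Datum.shn_e] at h

theorem atX2FFF (w : List Bool) :
    At (opX 2 d) (false :: false :: false :: w) (d.r1 (D.x 2)) := by
  have h := atXF (atX1FF d.shF w)
  rwa [shF_r1, Datum.shn_x] at h
theorem atX2FFT (w : List Bool) :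
    At (opX 2 d) (false :: false :: true :: w) (d.r2 (D.x 0)) := atXF (atX1FT d.shF w)
theorem atX2FTF (w : List Bool) :
    At (opX 2 d) (false :: true :: false :: w) (d.r1 (D.x 1)) := by
  have h := atXF (atX1TF d.shF w)
  rwa [shF_r1, Datum.shn_x] at h
theorem atX2FTT (w : List Bool) :
    At (opX 2 d) (false :: true :: true :: w) (d.r2 (D.x 1)) := atXF (atX1TT d.shF w)
theorem atX2TFF (w : List Bool) :
    At (opX 2 d) (true :: false :: false :: w) (d.r1 (D.x 1)) := atXT (atX1FF d.shT w)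
theorem atX2TFT (w : List Bool) :
    At (opX 2 d) (true :: false :: true :: w) (d.r2 (D.x 1)) := by
  have h := atXT (atX1FT d.shT w)
  rwa [shT_r2, Datum.shn_x] at h
theorem atX2TTF (w : List Bool) :
    At (opX 2 d) (true :: true :: false :: w) (d.r1 (D.x 0)) := atXT (atX1TF d.shT w)
theorem atX2TTT (w : List Bool) :
    At (opX 2 d) (true :: true :: true :: w) (d.r2 (D.x 2)) := by
  have h := atXT (atX1TT d.shT w)
  rwa [shT_r2, Datum.shn_x] at h

theorem atE2FFF (w : List Bool) (i : I) :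
    At (opE 2 i d) (false :: false :: false :: w) (d.r1 (D.e 2 i)) := by
  have h := atEF (atE1FF d.shF w i)
  rwa [shF_r1, Datum.shn_e] at h
theorem atE2FFT (w : List Bool) (i : I) :
    At (opE 2 i d) (false :: false :: true :: w) (d.r2 (D.e 0 i)) := atEF (atE1FT d.shF w i)
theorem atE2FTF (w : List Bool) (i : I) :
    At (opE 2 i d) (false :: true :: false :: w) (d.r1 (D.e 1 i)) := by
  have h := atEF (atE1TF d.shF w i)
  rwa [shF_r1, Datum.shn_e] at h
theorem atE2FTT (w : List Bool) (i : I) :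
    At (opE 2 i d) (false :: true :: true :: w) (d.r2 (D.e 1 i)) := atEF (atE1TT d.shF w i)
theorem atE2TFF (w : List Bool) (i : I) :
    At (opE 2 i d) (true :: false :: false :: w) (d.r1 (D.e 1 i)) := atET (atE1FF d.shT w i)
theorem atE2TFT (w : List Bool) (i : I) :
    At (opE 2 i d) (true :: false :: true :: w) (d.r2 (D.e 1 i)) := by
  have h := atET (atE1FT d.shT w i)
  rwa [shT_r2, Datum.shn_e] at h
theorem atE2TTF (w : List Bool) (i : I) :
    At (opE 2 i d) (true :: true :: false :: w) (d.r1 (D.e 0 i)) := atET (atE1TF d.shT w i)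
theorem atE2TTT (w : List Bool) (i : I) :
    At (opE 2 i d) (true :: true :: true :: w) (d.r2 (D.e 2 i)) := by
  have h := atET (atE1TT d.shT w i)
  rwa [shT_r2, Datum.shn_e] at h

end Loc

/-! ### the pointwise form of the formal identities -/

section pt

variable {t A0 A1 k0 k1 l0 l1 th th' : Module.End K P}
  (h : Cross t A0 A1 k0 k1 l0 l1 th th') (a b c : P)
include h

theorem pt1 : (A1 + k1) ((A0 + k0) (t c) - A0 (A1 b + (l1 - A1) a)) - A1 (t ((A1 + k1) b - A1 a)) -
    t ((A1 + k1) ((A0 + k0) c - A0 b) - A1 (t a)) = (A0 * (t * t - k1 * l1)) a := by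
  have h1 := LinearMap.congr_fun h.e11 a
  have h2 := LinearMap.congr_fun h.e12 b
  have h3 := LinearMap.congr_fun h.e13 c
  simp only [LinearMap.add_apply, LinearMap.sub_apply, LinearMap.neg_apply, Module.End.mul_apply,
    map_add, map_sub, LinearMap.zero_apply] at h1 h2 h3 ⊢
  have h4 := congr (congrArg HAdd.hAdd (congr (congrArg HAdd.hAdd h1) h2)) h3
  rw [← sub_eq_zero] at h4 ⊢
  rw [← h4]
  abel

theorem pt2 : A1 ((A0 + k0) (t c) - A0 (A1 b + (l1 - A1) a)) + (l1 - A1) (t ((A1 + k1) b - A1 a)) -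
    ((A0 + k0) (t (A0 c + (l0 - A0) b)) - A0 (A1 ((A0 + k0) c - A0 b) + (l1 - A1) (t a))) =
    (l1 * th + k0 * th') b := by
  have h1 := LinearMap.congr_fun h.e21 a
  have h2 := LinearMap.congr_fun h.e22 b
  have h3 := LinearMap.congr_fun h.e23 c
  simp only [LinearMap.add_apply, LinearMap.sub_apply, LinearMap.neg_apply, Module.End.mul_apply,
    map_add, map_sub, LinearMap.zero_apply] at h1 h2 h3 ⊢
  have h4 := congr (congrArg HAdd.hAdd (congr (congrArg HAdd.hAdd h1) h2)) h3
  rw [← sub_eq_zero] at h4 ⊢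
  rw [← h4]
  abel

theorem pt3 : t (A0 (t c) + (l0 - A0) (A1 b + (l1 - A1) a)) -
    (A0 (t (A0 c + (l0 - A0) b)) + (l0 - A0) (A1 ((A0 + k0) c - A0 b) + (l1 - A1) (t a))) =
    (A1 * (t * t - l0 * k0)) c := by
  have h1 := LinearMap.congr_fun h.e31 a
  have h2 := LinearMap.congr_fun h.e32 b
  have h3 := LinearMap.congr_fun h.e33 c
  simp only [LinearMap.add_apply, LinearMap.sub_apply, LinearMap.neg_apply, Module.End.mul_apply,
    map_add, map_sub, LinearMap.zero_apply] at h1 h2 h3 ⊢
  have h4 := congr (congrArg HAdd.hAdd (congr (congrArg HAdd.hAdd h1) h2)) h3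
  rw [← sub_eq_zero] at h4 ⊢
  rw [← h4]
  abel

end pt

namespace Loc

variable (d : Loc D P)

theorem er1 : d.A 0 0 * (d.tt * d.tt - d.qq 1 0 * d.nn 1 0) = d.erA := by
  rw [(Dg.dQ d 1 0).cN, nn_qq, erA_eq]
theorem er1' : d.A 0 0 * (d.tt * d.tt - d.nn 1 0 * d.qq 1 0) = d.erA := by
  rw [nn_qq, erA_eq]
theorem er2 : d.nn 1 0 * d.th + d.qq 0 0 * 0 = d.erB := by
  rw [nn1_th, mul_zero, add_zero, erB_eq]
theorem er2' : d.qq 1 0 * 0 + d.nn 0 0 * d.th = d.erB := by
  rw [nn0_th, mul_zero, zero_add, erB_eq]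
theorem er3 : d.A 1 0 * (d.tt * d.tt - d.nn 0 0 * d.qq 0 0) = d.erC := by
  rw [nn_qq, erC_eq]
theorem er3' : d.A 1 0 * (d.tt * d.tt - d.qq 0 0 * d.nn 0 0) = d.erC := by
  rw [(Dg.dQ d 0 0).cN, nn_qq, erC_eq]

/-! the crossings of mixed words in terms of `swap` -/

section sw

variable (f : List Bool → P) (w : List Bool)

theorem T0_TF' : d.T0 f (true :: false :: w) =
    (d.swap.A 0 0 + d.swap.nn 0 0) (f (false :: true :: w)) -
      d.swap.A 0 0 (f (true :: false :: w)) := by
  rw [T0_TF, swap_A, swap_nn]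
  simp only [LinearMap.add_apply, LinearMap.sub_apply, LinearMap.neg_apply]
  abel
theorem T0_FT' : d.T0 f (false :: true :: w) = d.swap.A 0 0 (f (false :: true :: w)) +
    (d.swap.qq 0 0 - d.swap.A 0 0) (f (true :: false :: w)) := by
  rw [T0_FT, swap_A, swap_qq]
  simp only [LinearMap.add_apply, LinearMap.sub_apply, LinearMap.neg_apply]
  abel
theorem T0_TT' : d.T0 f (true :: true :: w) = d.swap.tt (f (true :: true :: w)) := rfl
theorem T1_TTF' : opT 1 d f (true :: true :: false :: w) =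
    (d.swap.A 1 0 + d.swap.nn 1 0) (f (true :: false :: true :: w)) -
      d.swap.A 1 0 (f (true :: true :: false :: w)) := by
  rw [T1_TTF, swap_A, swap_nn]
  simp only [LinearMap.add_apply, LinearMap.sub_apply, LinearMap.neg_apply]
  abel
theorem T1_TFT' : opT 1 d f (true :: false :: true :: w) =
    d.swap.A 1 0 (f (true :: false :: true :: w)) +
      (d.swap.qq 1 0 - d.swap.A 1 0) (f (true :: true :: false :: w)) := by
  rw [T1_TFT, swap_A, swap_qq]
  simp only [LinearMap.add_apply, LinearMap.sub_apply, LinearMap.neg_apply]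
  abel
theorem T1_FTT' : opT 1 d f (false :: true :: true :: w) =
    d.swap.tt (f (false :: true :: true :: w)) := rfl
theorem T0_FF' : d.T0 f (false :: false :: w) = d.tt (f (false :: false :: w)) := rfl
theorem T1_TFF' : opT 1 d f (true :: false :: false :: w) =
    d.tt (f (true :: false :: false :: w)) := rfl

end sw

theorem rhs_at {w : List Bool} {x0 x1 x2 : Module.End K P} {e0 e1 e2 : I → Module.End K P}
    (hx0 : At (opX 0 d) w x0) (hx1 : At (opX 1 d) w x1) (hx2 : At (opX 2 d) w x2)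
    (he0 : ∀ i, At (opE 0 i d) w (e0 i)) (he1 : ∀ i, At (opE 1 i d) w (e1 i))
    (he2 : ∀ i, At (opE 2 i d) w (e2 i)) (f : List Bool → P) :
    (∑ i, ∑ j, if i = j then 0 else
      D.c i j • ((∑ p ∈ Finset.range (D.q i j),
        (opX 0 d - opX (0 + 1) d) ^ p * (opX (0 + 2) d - opX (0 + 1) d) ^ (D.q i j - 1 - p)) *
          (opE 0 i d * opE (0 + 1) j d * opE (0 + 2) i d))) f w =
    (∑ i, ∑ j, if i = j then 0 else
      D.c i j • ((∑ p ∈ Finset.range (D.q i j),
        (x0 - x1) ^ p * (x2 - x1) ^ (D.q i j - 1 - p)) * (e0 i * e1 j * e2 i))) (f w) :=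
  At.rhs hx0 hx1 hx2 he0 he1 he2 f

theorem braid_zero :
    opT (0 + 1) d * opT 0 d * opT (0 + 1) d - opT 0 d * opT (0 + 1) d * opT 0 d =
    ∑ i, ∑ j, if i = j then 0 else
      D.c i j • ((∑ p ∈ Finset.range (D.q i j),
        (opX 0 d - opX (0 + 1) d) ^ p * (opX (0 + 2) d - opX (0 + 1) d) ^ (D.q i j - 1 - p)) *
          (opE 0 i d * opE (0 + 1) j d * opE (0 + 2) i d)) := by
  ext f w
  rw [show (opT (0 + 1) d * opT 0 d * opT (0 + 1) d - opT 0 d * opT (0 + 1) d * opT 0 d) f w =
    opT 1 d (d.T0 (opT 1 d f)) w - d.T0 (opT 1 d (d.T0 f)) w from rfl]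
  match w with
  | [] =>
    rw [At.rhs0 (D := D) (atXnil d 0) (atXnil d 1) (atXnil d 2) (atEnil d 0) (atEnil d 1)
      (atEnil d 2) f, opT_nil, T0_nil, sub_zero]
  | [false] =>
    rw [At.rhs0 (D := D) (atX0F d _) (atXF (atXnil d.shF 0)) (atXF (atXnil d.shF 1)) (atE0F d _)
      (fun i => atEF (atEnil d.shF 0 i)) (fun i => atEF (atEnil d.shF 1 i)) f]
    rw [opT_one_F, T0_nil, T0_one, sub_zero]
  | [true] =>
    rw [At.rhs0 (D := D) (atX0T d _) (atXT (atXnil d.shT 0)) (atXT (atXnil d.shT 1)) (atE0T d _)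
      (fun i => atET (atEnil d.shT 0 i)) (fun i => atET (atEnil d.shT 1 i)) f]
    rw [opT_one_T, T0_nil, T0_one, sub_zero]
  | [false, false] =>
    rw [At.rhs0 (D := D) (atX0F d _) (atX1FF d _) (atXF (atXF (atXnil d.shF.shF 0))) (atE0F d _)
      (atE1FF d _) (fun i => atEF (atEF (atEnil d.shF.shF 0 i))) f]
    simp only [opT_one_F, T0_one, T0_FF', map_zero, sub_zero]
  | [false, true] =>
    rw [At.rhs0 (D := D) (atX0F d _) (atX1FT d _) (atXF (atXT (atXnil d.shF.shT 0))) (atE0F d _)
      (atE1FT d _) (fun i => atEF (atET (atEnil d.shF.shT 0 i))) f]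
    simp only [opT_one_F, opT_one_T, T0_one, T0_FT, map_zero, sub_zero]
  | [true, false] =>
    rw [At.rhs0 (D := D) (atX0T d _) (atX1TF d _) (atXT (atXF (atXnil d.shT.shF 0))) (atE0T d _)
      (atE1TF d _) (fun i => atET (atEF (atEnil d.shT.shF 0 i))) f]
    simp only [opT_one_F, opT_one_T, T0_one, T0_TF, map_zero, add_zero, sub_zero]
  | [true, true] =>
    rw [At.rhs0 (D := D) (atX0T d _) (atX1TT d _) (atXT (atXT (atXnil d.shT.shT 0))) (atE0T d _)
      (atE1TT d _) (fun i => atET (atET (atEnil d.shT.shT 0 i))) f]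
    simp only [opT_one_F, opT_one_T, T0_one, T0_TT, map_zero, sub_zero]
  | false :: false :: false :: w =>
    rw [rhs_at d (atX0F d _) (atX1FF d _) (atX2FFF d _) (atE0F d _) (atE1FF d _) (atE2FFF d _) f,
      ← braid_F]
    simp only [T1_FFF, T0_FF]
    rfl
  | true :: true :: true :: w =>
    rw [rhs_at d (atX0T d _) (atX1TT d _) (atX2TTT d _) (atE0T d _) (atE1TT d _) (atE2TTT d _) f]
    have h := d.swap.braid_F
    rw [show d.swap.r1 = d.r2 from rfl] at h
    rw [← h]
    simp only [T1_TTT, T0_TT]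
    rfl
  | false :: false :: true :: w =>
    rw [rhs_at d (atX0F d _) (atX1FF d _) (atX2FFT d _) (atE0F d _) (atE1FF d _) (atE2FFT d _) f]
    simp only [T1_FFT, T1_FTF, T1_TFF', T0_FF', T0_FT, T0_TF]
    rw [pt1 d.cross1, er1]
    rfl
  | false :: true :: false :: w =>
    rw [rhs_at d (atX0F d _) (atX1FT d _) (atX2FTF d _) (atE0F d _) (atE1FT d _) (atE2FTF d _) f]
    simp only [T1_FFT, T1_FTF, T1_TFF', T0_FF', T0_FT, T0_TF]
    rw [pt2 d.cross1, er2]
    rfl
  | true :: false :: false :: w =>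
    rw [rhs_at d (atX0T d _) (atX1TF d _) (atX2TFF d _) (atE0T d _) (atE1TF d _) (atE2TFF d _) f]
    simp only [T1_FFT, T1_FTF, T1_TFF', T0_FF', T0_FT, T0_TF]
    rw [pt3 d.cross1, er3]
    rfl
  | true :: true :: false :: w =>
    rw [rhs_at d (atX0T d _) (atX1TT d _) (atX2TTF d _) (atE0T d _) (atE1TT d _) (atE2TTF d _) f]
    simp only [T1_TTF', T1_TFT', T1_FTT', T0_TT', T0_FT', T0_TF']
    rw [pt1 d.swap.cross2, er1']
    rfl
  | true :: false :: true :: w =>
    rw [rhs_at d (atX0T d _) (atX1TF d _) (atX2TFT d _) (atE0T d _) (atE1TF d _) (atE2TFT d _) f]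
    simp only [T1_TTF', T1_TFT', T1_FTT', T0_TT', T0_FT', T0_TF']
    rw [pt2 d.swap.cross2, er2']
    rfl
  | false :: true :: true :: w =>
    rw [rhs_at d (atX0F d _) (atX1FT d _) (atX2FTT d _) (atE0F d _) (atE1FT d _) (atE2FTT d _) f]
    simp only [T1_TTF', T1_TFT', T1_FTT', T0_TT', T0_FT', T0_TF']
    rw [pt3 d.swap.cross2, er3']
    rfl

end Loc

open Loc in
theorem prf_rB (D : Datum K I) : S_rB D := by
  intro P _ _ d k
  induction k generalizing d with
  | zero => exact d.braid_zero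
  | succ k ih =>
    have h1 := ih d.shF
    have h2 := ih d.shT
    have h3 : ∀ i j : I, (if i = j then 0 else
      D.c i j • ((∑ p ∈ Finset.range (D.q i j),
        (opX (k + 1) d - opX (k + 1 + 1) d) ^ p *
          (opX (k + 1 + 2) d - opX (k + 1 + 1) d) ^ (D.q i j - 1 - p)) *
          (opE (k + 1) i d * opE (k + 1 + 1) j d * opE (k + 1 + 2) i d))) =
      glue (if i = j then 0 else
        D.c i j • ((∑ p ∈ Finset.range (D.q i j),
          (opX k d.shF - opX (k + 1) d.shF) ^ p *
            (opX (k + 2) d.shF - opX (k + 1) d.shF) ^ (D.q i j - 1 - p)) *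
            (opE k i d.shF * opE (k + 1) j d.shF * opE (k + 2) i d.shF)))
        (if i = j then 0 else
        D.c i j • ((∑ p ∈ Finset.range (D.q i j),
          (opX k d.shT - opX (k + 1) d.shT) ^ p *
            (opX (k + 2) d.shT - opX (k + 1) d.shT) ^ (D.q i j - 1 - p)) *
            (opE k i d.shT * opE (k + 1) j d.shT * opE (k + 2) i d.shT))) := by
      intro i j
      split_ifs
      · exact glue_zero.symm
      · rw [← glue_smul]
        congr 1
        rw [Finset.sum_mul, Finset.sum_mul, Finset.sum_mul, ← glue_sum]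
        refine Finset.sum_congr rfl fun p _ => ?_
        rw [show opX (k + 1 + 1) d = glue (opX (k + 1) d.shF) (opX (k + 1) d.shT) from rfl,
          show opX (k + 1 + 2) d = glue (opX (k + 2) d.shF) (opX (k + 2) d.shT) from rfl,
          show opE (k + 1 + 1) j d = glue (opE (k + 1) j d.shF) (opE (k + 1) j d.shT) from rfl,
          show opE (k + 1 + 2) i d = glue (opE (k + 2) i d.shF) (opE (k + 2) i d.shT) from rfl,
          opX_succ, opE_succ, glue_sub, glue_sub, glue_mul, glue_mul, mul_assoc, glue_pow_mul,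
          glue_pow_mul]
        simp only [mul_assoc]
    simp only [h3, glue_sum]
    rw [← h1, ← h2, show opT (k + 1 + 1) d = glue (opT (k + 1) d.shF) (opT (k + 1) d.shT) from rfl,
      show opT (k + 1) d = glue (opT k d.shF) (opT k d.shT) from rfl, glue_mul, glue_mul, glue_mul,
      glue_mul, glue_sub]

end Pbw

end Pool.Agent.KLR
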