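import Pool.Agent.Work.MP_e487d8_al.Pbw.Glue

/-! MP_e487d8_al, PBW block: the relations of `t` with `x` and the square of `t` for the operators
on functions on words (`prf_rQ`). -/

set_option autoImplicit false
set_option linter.unusedSectionVars false

namespace Pool.Agent.KLR

variable {K I : Type} [Field K] [Fintype I] [DecidableEq I]

namespace Pbw

variable {D : Datum K I} {P : Type} [AddCommGroup P] [Module K P]

open Loc

namespace RQX

/-! ### operators which act diagonally at a word -/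

/-- the operator `F` acts at the word `w` by `φ` -/
def At (w : List Bool) (F : Module.End K (List Bool → P)) (φ : Module.End K P) : Prop :=
  ∀ f, F f w = φ (f w)

theorem At.mul {w : List Bool} {F G : Module.End K (List Bool → P)} {φ ψ : Module.End K P}
    (h : At w F φ) (h' : At w G ψ) : At w (F * G) (φ * ψ) := fun f => by
  rw [Module.End.mul_apply, h, h', Module.End.mul_apply]

theorem At.add {w : List Bool} {F G : Module.End K (List Bool → P)} {φ ψ : Module.End K P}
    (h : At w F φ) (h' : At w G ψ) : At w (F + G) (φ + ψ) := fun f => by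
  rw [LinearMap.add_apply, Pi.add_apply, h, h', LinearMap.add_apply]

theorem At.sub {w : List Bool} {F G : Module.End K (List Bool → P)} {φ ψ : Module.End K P}
    (h : At w F φ) (h' : At w G ψ) : At w (F - G) (φ - ψ) := fun f => by
  rw [LinearMap.sub_apply, Pi.sub_apply, h, h', LinearMap.sub_apply]

theorem At.smul {w : List Bool} {F : Module.End K (List Bool → P)} {φ : Module.End K P} (r : K)
    (h : At w F φ) : At w (r • F) (r • φ) := fun f => by
  rw [LinearMap.smul_apply, Pi.smul_apply, h, LinearMap.smul_apply]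

theorem At.zero (w : List Bool) : At w (0 : Module.End K (List Bool → P)) 0 := fun _ => rfl

theorem At.one (w : List Bool) : At w (1 : Module.End K (List Bool → P)) 1 := fun _ => rfl

theorem At.pow {w : List Bool} {F : Module.End K (List Bool → P)} {φ : Module.End K P}
    (h : At w F φ) (n : ℕ) : At w (F ^ n) (φ ^ n) := by
  induction n with
  | zero => rw [pow_zero, pow_zero]; exact At.one w
  | succ n ih => rw [pow_succ, pow_succ]; exact ih.mul h

theorem At.sum {w : List Bool} {ι : Type*} (s : Finset ι)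
    {F : ι → Module.End K (List Bool → P)} {φ : ι → Module.End K P}
    (h : ∀ i, At w (F i) (φ i)) : At w (∑ i ∈ s, F i) (∑ i ∈ s, φ i) := by
  classical
  induction s using Finset.induction_on with
  | empty => rw [Finset.sum_empty, Finset.sum_empty]; exact At.zero w
  | insert a s ha ih => rw [Finset.sum_insert ha, Finset.sum_insert ha]; exact (h a).add ih

theorem At.sumE {w : List Bool} {F G : I → Module.End K (List Bool → P)}
    {φ ψ : I → Module.End K P} (h : ∀ i, At w (F i) (φ i)) (h' : ∀ i, At w (G i) (ψ i)) :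
    At w (∑ i, F i * G i) (∑ i, φ i * ψ i) := At.sum _ fun i => (h i).mul (h' i)

/-- the right side of the quadratic relation -/
noncomputable def quad (D : Datum K I) {B : Type} [Ring B] [Algebra K B] (x x' : B) (e e' : I → B) :
    B := ∑ i, ∑ j, if i = j then 0 else D.c i j • ((x - x') ^ D.q i j * (e i * e' j))

theorem At.quad (D : Datum K I) {w : List Bool} {X X' : Module.End K (List Bool → P)}
    {x x' : Module.End K P} {F G : I → Module.End K (List Bool → P)}
    {φ ψ : I → Module.End K P} (hx : At w X x) (hx' : At w X' x')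
    (h : ∀ i, At w (F i) (φ i)) (h' : ∀ i, At w (G i) (ψ i)) :
    At w (quad D X X' F G) (quad D x x' φ ψ) := by
  unfold RQX.quad
  refine At.sum _ fun i => At.sum _ fun j => ?_
  split_ifs
  · exact At.zero w
  · exact (((hx.sub hx').pow _).mul ((h i).mul (h' j))).smul _

theorem quad_zero_right (D : Datum K I) {B : Type} [Ring B] [Algebra K B] (x x' : B) (e : I → B) :
    quad D x x' e (fun _ => 0) = 0 := by
  unfold quad
  refine Finset.sum_eq_zero fun i _ => Finset.sum_eq_zero fun j _ => ?_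
  split_ifs
  · rfl
  · rw [mul_zero, mul_zero, smul_zero]

theorem quad_glue (D : Datum K I) (x x' y y' : Module.End K (List Bool → P))
    (e e' g g' : I → Module.End K (List Bool → P)) :
    quad D (glue x y) (glue x' y') (fun i => glue (e i) (g i)) (fun i => glue (e' i) (g' i)) =
      glue (quad D x x' e e') (quad D y y' g g') := by
  unfold quad
  rw [← glue_sum]
  refine Finset.sum_congr rfl fun i _ => ?_
  rw [← glue_sum]
  refine Finset.sum_congr rfl fun j _ => ?_
  split_ifs
  · rw [glue_zero]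
  · rw [glue_sub, glue_mul, glue_pow_mul, glue_smul]

theorem map_quad (D : Datum K I) {B B' : Type} [Ring B] [Algebra K B] [Ring B'] [Algebra K B']
    (r : B →ₐ[K] B') (x x' : B) (e e' : I → B) :
    r (quad D x x' e e') = quad D (r x) (r x') (fun i => r (e i)) (fun i => r (e' i)) := by
  unfold quad
  rw [map_sum]
  refine Finset.sum_congr rfl fun i _ => ?_
  rw [map_sum]
  refine Finset.sum_congr rfl fun j _ => ?_
  split_ifs
  · exact map_zero r
  · rw [map_smul, map_mul, map_pow, map_sub, map_mul]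

/-! ### values of the operators -/

theorem X0_nil (d : Loc D P) : At [] (opX 0 d) 0 := fun f => opX_nil 0 d f
theorem X1_nil (d : Loc D P) : At [] (opX 1 d) 0 := fun f => opX_nil 1 d f
theorem E0_nil (d : Loc D P) (i : I) : At [] (opE 0 i d) 0 := fun f => opE_nil 0 i d f
theorem E1_nil (d : Loc D P) (i : I) : At [] (opE 1 i d) 0 := fun f => opE_nil 1 i d f

theorem X0_F (d : Loc D P) (w : List Bool) : At (false :: w) (opX 0 d) (d.r1 (D.x 0)) :=
  fun _ => rfl
theorem X0_T (d : Loc D P) (w : List Bool) : At (true :: w) (opX 0 d) (d.r2 (D.x 0)) :=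
  fun _ => rfl
theorem E0_F (d : Loc D P) (w : List Bool) (i : I) :
    At (false :: w) (opE 0 i d) (d.r1 (D.e 0 i)) := fun _ => rfl
theorem E0_T (d : Loc D P) (w : List Bool) (i : I) :
    At (true :: w) (opE 0 i d) (d.r2 (D.e 0 i)) := fun _ => rfl

theorem X1_one (d : Loc D P) (b : Bool) : At [b] (opX 1 d) 0 := by
  cases b <;> exact fun _ => rfl
theorem E1_one (d : Loc D P) (b : Bool) (i : I) : At [b] (opE 1 i d) 0 := by
  cases b <;> exact fun _ => rfl

theorem X1_FF (d : Loc D P) (w : List Bool) :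
    At (false :: false :: w) (opX 1 d) (d.r1 (D.x 1)) := by
  intro f
  have h : D.shn 1 (D.x 0) = D.x 1 := D.shn_x 1 0
  rw [← h]
  rfl
theorem X1_FT (d : Loc D P) (w : List Bool) :
    At (false :: true :: w) (opX 1 d) (d.r2 (D.x 0)) := fun _ => rfl
theorem X1_TF (d : Loc D P) (w : List Bool) :
    At (true :: false :: w) (opX 1 d) (d.r1 (D.x 0)) := fun _ => rfl
theorem X1_TT (d : Loc D P) (w : List Bool) :
    At (true :: true :: w) (opX 1 d) (d.r2 (D.x 1)) := by
  intro f
  have h : D.shn 1 (D.x 0) = D.x 1 := D.shn_x 1 0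
  rw [← h]
  rfl

theorem E1_FF (d : Loc D P) (w : List Bool) (i : I) :
    At (false :: false :: w) (opE 1 i d) (d.r1 (D.e 1 i)) := by
  intro f
  have h : D.shn 1 (D.e 0 i) = D.e 1 i := D.shn_e 1 0 i
  rw [← h]
  rfl
theorem E1_FT (d : Loc D P) (w : List Bool) (i : I) :
    At (false :: true :: w) (opE 1 i d) (d.r2 (D.e 0 i)) := fun _ => rfl
theorem E1_TF (d : Loc D P) (w : List Bool) (i : I) :
    At (true :: false :: w) (opE 1 i d) (d.r1 (D.e 0 i)) := fun _ => rfl
theorem E1_TT (d : Loc D P) (w : List Bool) (i : I) :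
    At (true :: true :: w) (opE 1 i d) (d.r2 (D.e 1 i)) := by
  intro f
  have h : D.shn 1 (D.e 0 i) = D.e 1 i := D.shn_e 1 0 i
  rw [← h]
  rfl

/-! ### the algebra generated by the `e`, `x` and `v` -/

section alg

variable (d : Loc D P) (i j : ℕ)

theorem prod_prod (a b c c' : I) :
    (d.r1 (D.e i a) * d.r2 (D.e j b)) * (d.r1 (D.e i c) * d.r2 (D.e j c')) =
      if a = c ∧ b = c' then d.r1 (D.e i a) * d.r2 (D.e j b) else 0 := by
  have h : (d.r1 (D.e i a) * d.r2 (D.e j b)) * (d.r1 (D.e i c) * d.r2 (D.e j c')) =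
      (d.r1 (D.e i a) * d.r1 (D.e i c)) * (d.r2 (D.e j b) * d.r2 (D.e j c')) := by
    rw [mul_assoc, ← mul_assoc (d.r2 (D.e j b)), ← d.comm, mul_assoc, mul_assoc]
  rw [h, ← map_mul, ← map_mul, D.e_mul_e, D.e_mul_e]
  by_cases h1 : a = c
  · by_cases h2 : b = c'
    · rw [if_pos h1, if_pos h2, if_pos ⟨h1, h2⟩]
    · rw [if_neg h2, map_zero, mul_zero, if_neg fun h => h2 h.2]
  · rw [if_neg h1, map_zero, zero_mul, if_neg fun h => h1 h.1]

theorem dd_mul (c c' : I) : d.dd i j * (d.r1 (D.e i c) * d.r2 (D.e j c')) =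
    if c = c' then d.r1 (D.e i c) * d.r2 (D.e j c') else 0 := by
  unfold dd
  rw [Finset.sum_mul]
  simp_rw [prod_prod]
  split_ifs with h
  · subst h
    rw [Finset.sum_eq_single c]
    · rw [if_pos ⟨rfl, rfl⟩]
    · intro b _ hb
      rw [if_neg fun h => hb h.1]
    · intro h
      exact absurd (Finset.mem_univ _) h
  · refine Finset.sum_eq_zero fun b _ => ?_
    rw [if_neg]
    rintro ⟨h1, h2⟩
    exact h (h1.symm.trans h2)

theorem mul_nn {c c' : I} (h : c ≠ c') : (d.r1 (D.e i c) * d.r2 (D.e j c')) * d.nn i j =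
    d.r1 (D.e i c) * d.r2 (D.e j c') := by
  unfold nn
  rw [Finset.mul_sum, Finset.sum_eq_single c]
  · rw [Finset.mul_sum, Finset.sum_eq_single c']
    · rw [if_neg h, prod_prod, if_pos ⟨rfl, rfl⟩]
    · intro b _ hb
      split_ifs
      · rw [mul_zero]
      · rw [prod_prod, if_neg fun h => hb h.2.symm]
    · intro h
      exact absurd (Finset.mem_univ _) h
  · intro b _ hb
    rw [Finset.mul_sum]
    refine Finset.sum_eq_zero fun b' _ => ?_
    split_ifs
    · rw [mul_zero]
    · rw [prod_prod, if_neg fun h => hb h.1.symm]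
  · intro h
    exact absurd (Finset.mem_univ _) h

theorem dd_nn : d.dd i j * d.nn i j = 0 := by
  conv_lhs => rw [nn]
  rw [Finset.mul_sum]
  refine Finset.sum_eq_zero fun c _ => ?_
  rw [Finset.mul_sum]
  refine Finset.sum_eq_zero fun c' _ => ?_
  split_ifs with h
  · rw [mul_zero]
  · rw [dd_mul, if_neg h]

/-! commutation of the first action -/

theorem x_e1 (c : I) : d.r1 (D.x i) * d.r1 (D.e i c) = d.r1 (D.e i c) * d.r1 (D.x i) := by
  rw [← map_mul, D.x_e, map_mul]

theorem x_e2 (c : I) : d.r2 (D.x j) * d.r2 (D.e j c) = d.r2 (D.e j c) * d.r2 (D.x j) := by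
  rw [← map_mul, D.x_e, map_mul]

theorem xy_e1 (c : I) : (d.r1 (D.x i) - d.r2 (D.x j)) * d.r1 (D.e i c) =
    d.r1 (D.e i c) * (d.r1 (D.x i) - d.r2 (D.x j)) := by
  rw [sub_mul, mul_sub, x_e1, d.comm]

theorem xy_e2 (c : I) : (d.r1 (D.x i) - d.r2 (D.x j)) * d.r2 (D.e j c) =
    d.r2 (D.e j c) * (d.r1 (D.x i) - d.r2 (D.x j)) := by
  rw [sub_mul, mul_sub, x_e2, d.comm]

theorem x1_xy : d.r1 (D.x i) * (d.r1 (D.x i) - d.r2 (D.x j)) =
    (d.r1 (D.x i) - d.r2 (D.x j)) * d.r1 (D.x i) := by
  rw [sub_mul, mul_sub, d.comm]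

theorem x2_xy : d.r2 (D.x j) * (d.r1 (D.x i) - d.r2 (D.x j)) =
    (d.r1 (D.x i) - d.r2 (D.x j)) * d.r2 (D.x j) := by
  rw [sub_mul, mul_sub, d.comm]

theorem xy_dd : (d.r1 (D.x i) - d.r2 (D.x j)) * d.dd i j =
    d.dd i j * (d.r1 (D.x i) - d.r2 (D.x j)) := d.comm_dd i j (xy_e1 d i j) (xy_e2 d i j)

theorem x1_A : d.r1 (D.x i) * d.A i j = d.A i j * d.r1 (D.x i) :=
  d.comm_A i j (x_e1 d i) (fun _ => d.comm _ _) (x1_xy d i j)

theorem x2_A : d.r2 (D.x j) * d.A i j = d.A i j * d.r2 (D.x j) :=
  d.comm_A i j (fun _ => (d.comm _ _).symm) (x_e2 d j) (x2_xy d i j)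

theorem x1_qq : d.r1 (D.x i) * d.qq i j = d.qq i j * d.r1 (D.x i) :=
  d.comm_qq i j (x_e1 d i) (fun _ => d.comm _ _) (x1_xy d i j)

theorem x2_qq : d.r2 (D.x j) * d.qq i j = d.qq i j * d.r2 (D.x j) :=
  d.comm_qq i j (fun _ => (d.comm _ _).symm) (x_e2 d j) (x2_xy d i j)

theorem x1_nn : d.r1 (D.x i) * d.nn i j = d.nn i j * d.r1 (D.x i) :=
  d.comm_nn i j (x_e1 d i) (fun _ => d.comm _ _)

theorem x2_nn : d.r2 (D.x j) * d.nn i j = d.nn i j * d.r2 (D.x j) :=
  d.comm_nn i j (fun _ => (d.comm _ _).symm) (x_e2 d j)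

/-! commutation of the `e` -/

theorem e1_e1 (c c' : I) : d.r1 (D.e i c) * d.r1 (D.e i c') = d.r1 (D.e i c') * d.r1 (D.e i c) := by
  rw [← map_mul, D.e_comm, map_mul]

theorem e2_e2 (c c' : I) : d.r2 (D.e j c) * d.r2 (D.e j c') = d.r2 (D.e j c') * d.r2 (D.e j c) := by
  rw [← map_mul, D.e_comm, map_mul]

theorem e1_qq (c : I) : d.r1 (D.e i c) * d.qq i j = d.qq i j * d.r1 (D.e i c) :=
  d.comm_qq i j (e1_e1 d i c) (fun _ => d.comm _ _) (xy_e1 d i j c).symm

theorem e2_qq (c : I) : d.r2 (D.e j c) * d.qq i j = d.qq i j * d.r2 (D.e j c) :=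
  d.comm_qq i j (fun _ => (d.comm _ _).symm) (e2_e2 d j c) (xy_e2 d i j c).symm

theorem e1_nn (c : I) : d.r1 (D.e i c) * d.nn i j = d.nn i j * d.r1 (D.e i c) :=
  d.comm_nn i j (e1_e1 d i c) (fun _ => d.comm _ _)

theorem e2_nn (c : I) : d.r2 (D.e j c) * d.nn i j = d.nn i j * d.r2 (D.e j c) :=
  d.comm_nn i j (fun _ => (d.comm _ _).symm) (e2_e2 d j c)

theorem qq_A : d.qq i j * d.A i j = d.A i j * d.qq i j := by
  refine d.comm_A i j (fun c => (e1_qq d i j c).symm) (fun c => (e2_qq d i j c).symm) ?_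
  rw [mul_sub, sub_mul, ← x1_qq, ← x2_qq]

theorem nn_A : d.nn i j * d.A i j = d.A i j * d.nn i j := by
  refine d.comm_A i j (fun c => (e1_nn d i j c).symm) (fun c => (e2_nn d i j c).symm) ?_
  rw [mul_sub, sub_mul, ← x1_nn, ← x2_nn]

theorem nn_qq : d.nn i j * d.qq i j = d.qq i j * d.nn i j := by
  refine d.comm_qq i j (fun c => (e1_nn d i j c).symm) (fun c => (e2_nn d i j c).symm) ?_
  rw [mul_sub, sub_mul, ← x1_nn, ← x2_nn]

theorem dd_qq : d.dd i j * d.qq i j = 0 := by
  conv_lhs => rw [qq]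
  rw [Finset.mul_sum]
  refine Finset.sum_eq_zero fun c _ => ?_
  rw [Finset.mul_sum]
  refine Finset.sum_eq_zero fun c' _ => ?_
  split_ifs with h
  · rw [mul_zero]
  · have hp : d.dd i j * (d.r1 (D.x i) - d.r2 (D.x j)) ^ D.q c c' =
        (d.r1 (D.x i) - d.r2 (D.x j)) ^ D.q c c' * d.dd i j :=
      ((show Commute (d.dd i j) (d.r1 (D.x i) - d.r2 (D.x j)) from
        (xy_dd d i j).symm).pow_right _)
    rw [mul_smul_comm, ← mul_assoc, hp, mul_assoc, dd_mul, if_neg h, mul_zero, smul_zero]

theorem qq_mul_nn : d.qq i j * d.nn i j = d.qq i j := by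
  conv_lhs => rw [qq]
  conv_rhs => rw [qq]
  rw [Finset.sum_mul]
  refine Finset.sum_congr rfl fun c _ => ?_
  rw [Finset.sum_mul]
  refine Finset.sum_congr rfl fun c' _ => ?_
  split_ifs with h
  · rw [zero_mul]
  · rw [smul_mul_assoc, mul_assoc, mul_nn d i j h]

theorem A_nn : d.A i j * d.nn i j = 0 := by
  unfold A
  rw [mul_assoc, dd_nn, mul_zero]

theorem A_qq : d.A i j * d.qq i j = 0 := by
  unfold A
  rw [mul_assoc, dd_qq, mul_zero]

theorem EE_dd : d.r1 (D.E i) * d.r2 (D.E j) * d.dd i j = d.dd i j := by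
  unfold dd
  rw [Finset.mul_sum]
  refine Finset.sum_congr rfl fun c _ => ?_
  have h1 : d.r1 (D.E i) * d.r1 (D.e i c) = d.r1 (D.e i c) := by
    rw [← map_mul, D.E_comm, D.e_E]
  have h2 : d.r2 (D.E j) * d.r2 (D.e j c) = d.r2 (D.e j c) := by
    rw [← map_mul, D.E_comm, D.e_E]
  rw [mul_assoc, ← mul_assoc (d.r2 (D.E j)), ← d.comm, mul_assoc, h2, ← mul_assoc, h1]

theorem A_xy : d.A i j * (d.r1 (D.x i) - d.r2 (D.x j)) = d.dd i j := by
  unfold A
  rw [mul_assoc, ← xy_dd, ← mul_assoc, d.v_mul, EE_dd]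

theorem A_x1 : d.A i j * d.r1 (D.x i) = d.r2 (D.x j) * d.A i j + d.dd i j := by
  rw [← A_xy, mul_sub, x2_A]
  abel

theorem A_x2 : d.A i j * d.r2 (D.x j) = d.r1 (D.x i) * d.A i j - d.dd i j := by
  rw [← A_xy, mul_sub, x1_A]
  abel

/-- the square of `t` on the words `false :: true :: w` -/
theorem sq1 : (d.A i j + d.qq i j) * (d.nn i j - d.A i j) + d.A i j * d.A i j = d.qq i j := by
  rw [add_mul, mul_sub, mul_sub, A_nn, qq_mul_nn, qq_A, A_qq]
  abel

/-- the square of `t` on the words `true :: false :: w` -/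
theorem sq2 : (d.nn i j - d.A i j) * (d.A i j + d.qq i j) + d.A i j * d.A i j = d.qq i j := by
  rw [sub_mul, mul_add, mul_add, nn_A, A_nn, nn_qq, qq_mul_nn, A_qq]
  abel

/-- `qq` with the roles of the actions exchanged -/
theorem qq_swap : quad D (d.r2 (D.x j)) (d.r1 (D.x i)) (fun c => d.r2 (D.e j c))
    (fun c => d.r1 (D.e i c)) = d.qq i j := by
  unfold quad qq
  rw [Finset.sum_comm]
  refine Finset.sum_congr rfl fun c _ => Finset.sum_congr rfl fun c' _ => ?_
  by_cases h : c = c'
  · rw [if_pos h.symm, if_pos h]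
  · rw [if_neg fun h' => h h'.symm, if_neg h, D.c_symm c c' h]
    have hq : D.q c' c = D.q c c' := by
      unfold Datum.q
      rw [D.symm]
    have hneg : (d.r2 (D.x j) - d.r1 (D.x i)) ^ D.q c c' =
        (-1 : Module.End K P) ^ D.q c c' * (d.r1 (D.x i) - d.r2 (D.x j)) ^ D.q c c' := by
      rw [← neg_sub, neg_pow]
    have hs : ((-1 : K) ^ (D.A c c').natAbs * D.c c c') •
        ((-1 : Module.End K P) ^ D.q c c' * (d.r1 (D.x i) - d.r2 (D.x j)) ^ D.q c c' *
          (d.r2 (D.e j c') * d.r1 (D.e i c))) = D.c c c' •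
        ((d.r1 (D.x i) - d.r2 (D.x j)) ^ D.q c c' * (d.r1 (D.e i c) * d.r2 (D.e j c'))) := by
      rw [d.comm]
      have hk : (D.A c c').natAbs = D.q c c' := rfl
      rw [hk]
      rcases neg_one_pow_eq_or K (D.q c c') with h1 | h1
      · rcases Nat.even_or_odd (D.q c c') with h2 | h2
        · rw [h1, h2.neg_one_pow, one_mul, one_mul]
        · have h3 : (-1 : K) = 1 := h2.neg_one_pow.symm.trans h1
          have h4 : (-1 : Module.End K P) = 1 := by
            have h5 : (-1 : Module.End K P) = (-1 : K) • (1 : Module.End K P) := by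
              rw [neg_smul, one_smul]
            rw [h5, h3, one_smul]
          rw [h1, h4, one_pow, one_mul, one_mul]
      · rcases Nat.even_or_odd (D.q c c') with h2 | h2
        · have h3 : (-1 : K) = 1 := h1.symm.trans h2.neg_one_pow
          rw [h1, h2.neg_one_pow, h3, one_mul, one_mul]
        · rw [h1, h2.neg_one_pow, neg_one_mul, neg_smul, neg_one_mul, neg_mul, smul_neg, neg_neg]
    rw [hq, hneg]
    exact hs

theorem qq_quad : quad D (d.r1 (D.x i)) (d.r2 (D.x j)) (fun c => d.r1 (D.e i c))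
    (fun c => d.r2 (D.e j c)) = d.qq i j := rfl

end alg

/-! ### the relations for the first two strands -/

theorem dl_r1 (d : Loc D P) : ∑ i, d.r1 (D.e 0 i) * d.r1 (D.e 1 i) = d.r1 (D.dl 0) := by
  unfold Datum.dl
  rw [map_sum]
  exact Finset.sum_congr rfl fun i _ => (map_mul _ _ _).symm

theorem dl_r2 (d : Loc D P) : ∑ i, d.r2 (D.e 0 i) * d.r2 (D.e 1 i) = d.r2 (D.dl 0) := by
  unfold Datum.dl
  rw [map_sum]
  exact Finset.sum_congr rfl fun i _ => (map_mul _ _ _).symm

theorem dd_swap (d : Loc D P) (i j : ℕ) :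
    ∑ c, d.r2 (D.e j c) * d.r1 (D.e i c) = d.dd i j := by
  unfold dd
  exact Finset.sum_congr rfl fun c _ => (d.comm _ _).symm

theorem sum_nil (d : Loc D P) : At [] (∑ i, opE 0 i d * opE 1 i d) 0 := by
  have h := At.sumE (E0_nil d) (E1_nil d)
  simpa using h

theorem sum_one (d : Loc D P) (b : Bool) : At [b] (∑ i, opE 0 i d * opE 1 i d) 0 := by
  cases b
  · have h := At.sumE (E0_F d []) (E1_one d false)
    simpa using h
  · have h := At.sumE (E0_T d []) (E1_one d true)
    simpa using h

theorem sum_FF (d : Loc D P) (w : List Bool) :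
    At (false :: false :: w) (∑ i, opE 0 i d * opE 1 i d) (d.r1 (D.dl 0)) := by
  rw [← dl_r1]
  exact At.sumE (E0_F d _) (E1_FF d w)

theorem sum_TT (d : Loc D P) (w : List Bool) :
    At (true :: true :: w) (∑ i, opE 0 i d * opE 1 i d) (d.r2 (D.dl 0)) := by
  rw [← dl_r2]
  exact At.sumE (E0_T d _) (E1_TT d w)

theorem sum_FT (d : Loc D P) (w : List Bool) :
    At (false :: true :: w) (∑ i, opE 0 i d * opE 1 i d) (d.dd 0 0) :=
  At.sumE (E0_F d _) (E1_FT d w)

theorem sum_TF (d : Loc D P) (w : List Bool) :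
    At (true :: false :: w) (∑ i, opE 0 i d * opE 1 i d) (d.dd 0 0) := by
  rw [← dd_swap]
  exact At.sumE (E0_T d _) (E1_TF d w)

theorem app {a b c e : Module.End K P} (h : a * b = c * e) (p : P) : a (b p) = c (e p) :=
  LinearMap.congr_fun h p

theorem tx0_zero (d : Loc D P) :
    opT 0 d * opX 0 d = opX 1 d * opT 0 d - ∑ i, opE 0 i d * opE 1 i d := by
  apply ext_two
  · intro f
    rw [LinearMap.sub_apply, Pi.sub_apply, sum_nil d f, Module.End.mul_apply, Module.End.mul_apply,
      opT_nil, opX_nil, LinearMap.zero_apply, sub_zero]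
  · intro f b
    rw [LinearMap.sub_apply, Pi.sub_apply, sum_one d b f, Module.End.mul_apply,
      Module.End.mul_apply, opT_zero, T0_one, X1_one, LinearMap.zero_apply, LinearMap.zero_apply,
      sub_zero]
  · intro f b b' w
    rw [LinearMap.sub_apply, Pi.sub_apply, Module.End.mul_apply, Module.End.mul_apply, opT_zero]
    match b, b' with
    | false, false =>
      rw [T0_FF, X0_F, X1_FF, T0_FF, sum_FF]
      have h := congrArg d.r1 (D.t_x0 0)
      rw [map_mul, map_sub, map_mul] at h
      exact LinearMap.congr_fun h _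
    | true, true =>
      rw [T0_TT, X0_T, X1_TT, T0_TT, sum_TT]
      have h := congrArg d.r2 (D.t_x0 0)
      rw [map_mul, map_sub, map_mul] at h
      exact LinearMap.congr_fun h _
    | false, true =>
      rw [T0_FT, X0_F, X0_T, X1_FT, T0_FT, sum_FT, map_sub, LinearMap.add_apply,
        LinearMap.add_apply, map_add]
      have h1 := LinearMap.congr_fun (A_x1 d 0 0) (f (false :: true :: w))
      rw [Module.End.mul_apply, LinearMap.add_apply, Module.End.mul_apply] at h1
      rw [h1, app (x2_A d 0 0), app (x2_qq d 0 0), app (x2_A d 0 0)]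
      abel
    | true, false =>
      rw [T0_TF, X0_F, X0_T, X1_TF, T0_TF, sum_TF, map_add, LinearMap.sub_apply,
        LinearMap.sub_apply, map_sub]
      have h1 := LinearMap.congr_fun (A_x2 d 0 0) (f (true :: false :: w))
      rw [Module.End.mul_apply, LinearMap.sub_apply, Module.End.mul_apply] at h1
      rw [h1, app (x1_nn d 0 0), app (x1_A d 0 0) (f (false :: true :: w))]
      abel

theorem tx1_zero (d : Loc D P) :
    opT 0 d * opX 1 d = opX 0 d * opT 0 d + ∑ i, opE 0 i d * opE 1 i d := by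
  apply ext_two
  · intro f
    rw [LinearMap.add_apply, Pi.add_apply, sum_nil d f, Module.End.mul_apply, Module.End.mul_apply,
      opT_nil, opX_nil, LinearMap.zero_apply, add_zero]
  · intro f b
    rw [LinearMap.add_apply, Pi.add_apply, sum_one d b f, Module.End.mul_apply,
      Module.End.mul_apply, opT_zero, T0_one, LinearMap.zero_apply, add_zero]
    cases b
    · rw [X0_F, T0_one, map_zero]
    · rw [X0_T, T0_one, map_zero]
  · intro f b b' w
    rw [LinearMap.add_apply, Pi.add_apply, Module.End.mul_apply, Module.End.mul_apply, opT_zero]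
    match b, b' with
    | false, false =>
      rw [T0_FF, X0_F, X1_FF, T0_FF, sum_FF]
      have h := congrArg d.r1 (D.t_x1 0)
      rw [map_mul, map_add, map_mul] at h
      exact LinearMap.congr_fun h _
    | true, true =>
      rw [T0_TT, X0_T, X1_TT, T0_TT, sum_TT]
      have h := congrArg d.r2 (D.t_x1 0)
      rw [map_mul, map_add, map_mul] at h
      exact LinearMap.congr_fun h _
    | false, true =>
      rw [T0_FT, X0_F, X1_FT, X1_TF, T0_FT, sum_FT, map_sub, LinearMap.add_apply,
        LinearMap.add_apply, map_add]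
      have h1 := LinearMap.congr_fun (A_x2 d 0 0) (f (false :: true :: w))
      rw [Module.End.mul_apply, LinearMap.sub_apply, Module.End.mul_apply] at h1
      rw [h1, app (x1_A d 0 0) (f (true :: false :: w)), app (x1_qq d 0 0)]
      abel
    | true, false =>
      rw [T0_TF, X0_T, X1_FT, X1_TF, T0_TF, sum_TF, map_add, LinearMap.sub_apply,
        LinearMap.sub_apply, map_sub]
      have h1 := LinearMap.congr_fun (A_x1 d 0 0) (f (true :: false :: w))
      rw [Module.End.mul_apply, LinearMap.add_apply, Module.End.mul_apply] at h1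
      rw [h1, app (x2_nn d 0 0), app (x2_A d 0 0) (f (false :: true :: w))]
      abel

theorem tt_zero (d : Loc D P) : opT 0 d * opT 0 d =
    quad D (opX 0 d) (opX 1 d) (fun i => opE 0 i d) (fun i => opE 1 i d) := by
  apply ext_two
  · intro f
    have h := At.quad D (X0_nil d) (X1_nil d) (E0_nil d) (E1_nil d)
    rw [quad_zero_right] at h
    rw [h, Module.End.mul_apply, opT_nil, LinearMap.zero_apply]
  · intro f b
    rw [Module.End.mul_apply, opT_zero, T0_one]
    cases b
    · have h := At.quad D (X0_F d []) (X1_one d false) (E0_F d []) (E1_one d false)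
      rw [quad_zero_right] at h
      rw [h, LinearMap.zero_apply]
    · have h := At.quad D (X0_T d []) (X1_one d true) (E0_T d []) (E1_one d true)
      rw [quad_zero_right] at h
      rw [h, LinearMap.zero_apply]
  · intro f b b' w
    rw [Module.End.mul_apply, opT_zero]
    match b, b' with
    | false, false =>
      rw [T0_FF, T0_FF, At.quad D (X0_F d _) (X1_FF d w) (E0_F d _) (E1_FF d w)]
      have h := congrArg d.r1 (D.t_t 0)
      have h' := map_quad D d.r1 (D.x 0) (D.x 1) (D.e 0) (D.e 1)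
      rw [← h', ← Module.End.mul_apply, ← map_mul]
      exact LinearMap.congr_fun h _
    | true, true =>
      rw [T0_TT, T0_TT, At.quad D (X0_T d _) (X1_TT d w) (E0_T d _) (E1_TT d w)]
      have h := congrArg d.r2 (D.t_t 0)
      have h' := map_quad D d.r2 (D.x 0) (D.x 1) (D.e 0) (D.e 1)
      rw [← h', ← Module.End.mul_apply, ← map_mul]
      exact LinearMap.congr_fun h _
    | false, true =>
      rw [T0_FT, T0_FT, T0_TF, At.quad D (X0_F d _) (X1_FT d w) (E0_F d _) (E1_FT d w), qq_quad]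
      have h1 := LinearMap.congr_fun (sq1 d 0 0) (f (false :: true :: w))
      have h2 : (d.A 0 0 + d.qq 0 0) * d.A 0 0 = d.A 0 0 * (d.A 0 0 + d.qq 0 0) := by
        rw [add_mul, mul_add, qq_A]
      have h3 := app h2 (f (true :: false :: w))
      rw [LinearMap.add_apply, Module.End.mul_apply, Module.End.mul_apply] at h1
      rw [← h1, map_add, map_sub, h3]
      abel
    | true, false =>
      rw [T0_TF, T0_FT, T0_TF, At.quad D (X0_T d _) (X1_TF d w) (E0_T d _) (E1_TF d w), qq_swap]
      have h1 := LinearMap.congr_fun (sq2 d 0 0) (f (true :: false :: w))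
      have h2 : (d.nn 0 0 - d.A 0 0) * d.A 0 0 = d.A 0 0 * (d.nn 0 0 - d.A 0 0) := by
        rw [sub_mul, mul_sub, nn_A]
      have h3 := app h2 (f (false :: true :: w))
      rw [LinearMap.add_apply, Module.End.mul_apply, Module.End.mul_apply] at h1
      rw [← h1, map_add, map_sub, h3]
      abel

/-! ### all strands -/

theorem sum_succ (d : Loc D P) (k : ℕ) : ∑ i, opE (k + 1) i d * opE (k + 2) i d =
    glue (∑ i, opE k i d.shF * opE (k + 1) i d.shF) (∑ i, opE k i d.shT * opE (k + 1) i d.shT) := by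
  rw [← glue_sum]
  refine Finset.sum_congr rfl fun i _ => ?_
  rw [opE_succ, opE_succ (k + 1), glue_mul]

theorem tx0_aux (k : ℕ) (d : Loc D P) : opT k d * opX k d =
    opX (k + 1) d * opT k d - ∑ i, opE k i d * opE (k + 1) i d := by
  induction k generalizing d with
  | zero => exact tx0_zero d
  | succ k ih =>
    rw [sum_succ, opT_succ, opX_succ, opX_succ (k + 1), glue_mul, glue_mul, glue_sub, ih, ih]

theorem tx1_aux (k : ℕ) (d : Loc D P) : opT k d * opX (k + 1) d =
    opX k d * opT k d + ∑ i, opE k i d * opE (k + 1) i d := by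
  induction k generalizing d with
  | zero => exact tx1_zero d
  | succ k ih =>
    rw [sum_succ, opT_succ, opX_succ (k + 1), opX_succ k d, glue_mul, glue_mul, glue_add, ih, ih]

theorem tt_aux (k : ℕ) (d : Loc D P) : opT k d * opT k d =
    quad D (opX k d) (opX (k + 1) d) (fun i => opE k i d) (fun i => opE (k + 1) i d) := by
  induction k generalizing d with
  | zero => exact tt_zero d
  | succ k ih =>
    rw [opT_succ, glue_mul, ih, ih, ← quad_glue]
    rfl

end RQX

/-- the relations of `t` with `x` and the square of `t` -/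
theorem prf_rQ (D : Datum K I) : S_rQ D := fun _ _ _ d =>
  ⟨fun k => RQX.tx0_aux k d, fun k => RQX.tx1_aux k d, fun k => RQX.tt_aux k d⟩

end Pbw

end Pool.Agent.KLR
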