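import Pool.Agent.Work.MP_e487d8_al.Pbw.Glue

/-! MP_e487d8_al, PBW block: commutation of the operators `opT` with `opE`, and distant
commutation (`prf_rT`). -/

set_option autoImplicit false

namespace Pool.Agent.KLR

variable {K I : Type} [Field K] [Fintype I] [DecidableEq I]

namespace Pbw

variable {D : Datum K I} {P : Type} [AddCommGroup P] [Module K P]

open Loc

namespace RT

variable (d : Loc D P)

/-! ### the idempotents of the first strands and `dd`, `A`, `nn`, `qq` -/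

theorem r1_comm_r1e {a : KLRAlg D} (ha : ∀ c, a * D.e 0 c = D.e 0 c * a) (c : I) :
    d.r1 a * d.r1 (D.e 0 c) = d.r1 (D.e 0 c) * d.r1 a := by
  rw [← map_mul, ha, map_mul]

theorem r2_comm_r2e {a : KLRAlg D} (ha : ∀ c, a * D.e 0 c = D.e 0 c * a) (c : I) :
    d.r2 a * d.r2 (D.e 0 c) = d.r2 (D.e 0 c) * d.r2 a := by
  rw [← map_mul, ha, map_mul]

theorem r1_comm_x {a : KLRAlg D} (ha : a * D.x 0 = D.x 0 * a) :
    d.r1 a * (d.r1 (D.x 0) - d.r2 (D.x 0)) = (d.r1 (D.x 0) - d.r2 (D.x 0)) * d.r1 a := by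
  rw [mul_sub, sub_mul, ← map_mul, ha, map_mul, d.comm]

theorem r2_comm_x {a : KLRAlg D} (ha : a * D.x 0 = D.x 0 * a) :
    d.r2 a * (d.r1 (D.x 0) - d.r2 (D.x 0)) = (d.r1 (D.x 0) - d.r2 (D.x 0)) * d.r2 a := by
  rw [mul_sub, sub_mul, ← map_mul, ha, map_mul, ← d.comm]

/-- `r1 a` commutes with `A`, `qq`, `nn` if `a` commutes with `e 0 c`, `x 0` -/
theorem r1_A {a : KLRAlg D} (ha : ∀ c, a * D.e 0 c = D.e 0 c * a) (hx : a * D.x 0 = D.x 0 * a) :
    d.r1 a * d.A 0 0 = d.A 0 0 * d.r1 a :=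
  d.comm_A 0 0 (r1_comm_r1e d ha) (fun _ => d.comm _ _) (r1_comm_x d hx)

theorem r1_qq {a : KLRAlg D} (ha : ∀ c, a * D.e 0 c = D.e 0 c * a) (hx : a * D.x 0 = D.x 0 * a) :
    d.r1 a * d.qq 0 0 = d.qq 0 0 * d.r1 a :=
  d.comm_qq 0 0 (r1_comm_r1e d ha) (fun _ => d.comm _ _) (r1_comm_x d hx)

theorem r1_nn {a : KLRAlg D} (ha : ∀ c, a * D.e 0 c = D.e 0 c * a) :
    d.r1 a * d.nn 0 0 = d.nn 0 0 * d.r1 a :=
  d.comm_nn 0 0 (r1_comm_r1e d ha) (fun _ => d.comm _ _)

theorem r2_A {a : KLRAlg D} (ha : ∀ c, a * D.e 0 c = D.e 0 c * a) (hx : a * D.x 0 = D.x 0 * a) :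
    d.r2 a * d.A 0 0 = d.A 0 0 * d.r2 a :=
  d.comm_A 0 0 (fun _ => (d.comm _ _).symm) (r2_comm_r2e d ha) (r2_comm_x d hx)

theorem r2_qq {a : KLRAlg D} (ha : ∀ c, a * D.e 0 c = D.e 0 c * a) (hx : a * D.x 0 = D.x 0 * a) :
    d.r2 a * d.qq 0 0 = d.qq 0 0 * d.r2 a :=
  d.comm_qq 0 0 (fun _ => (d.comm _ _).symm) (r2_comm_r2e d ha) (r2_comm_x d hx)

theorem r2_nn {a : KLRAlg D} (ha : ∀ c, a * D.e 0 c = D.e 0 c * a) :
    d.r2 a * d.nn 0 0 = d.nn 0 0 * d.r2 a :=
  d.comm_nn 0 0 (fun _ => (d.comm _ _).symm) (r2_comm_r2e d ha)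

theorem e_e (i : I) : ∀ c, D.e 0 i * D.e 0 c = D.e 0 c * D.e 0 i := fun c => D.e_comm 0 0 i c

theorem e_x (i : I) : D.e 0 i * D.x 0 = D.x 0 * D.e 0 i := (D.x_e 0 0 i).symm

theorem shn_e0 (a : KLRAlg D) : ∀ c, D.shn 1 a * D.e 0 c = D.e 0 c * D.shn 1 a :=
  fun c => (e0_shn c a).symm

theorem shn_x0 (a : KLRAlg D) : D.shn 1 a * D.x 0 = D.x 0 * D.shn 1 a := (x0_shn a).symm

theorem dd_r1 (c : I) : d.dd 0 0 * d.r1 (D.e 0 c) = d.r1 (D.e 0 c) * d.r2 (D.e 0 c) := by
  unfold dd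
  rw [Finset.sum_mul, Finset.sum_eq_single c]
  · rw [mul_assoc, ← d.comm, ← mul_assoc, ← map_mul, D.e_idem]
  · intro b _ hb
    rw [mul_assoc, ← d.comm, ← mul_assoc, ← map_mul, D.e_mul_e_ne 0 hb, map_zero, zero_mul]
  · intro h
    exact absurd (Finset.mem_univ c) h

theorem dd_r2 (c : I) : d.dd 0 0 * d.r2 (D.e 0 c) = d.r1 (D.e 0 c) * d.r2 (D.e 0 c) := by
  unfold dd
  rw [Finset.sum_mul, Finset.sum_eq_single c]
  · rw [mul_assoc, ← map_mul, D.e_idem]
  · intro b _ hb
    rw [mul_assoc, ← map_mul, D.e_mul_e_ne 0 hb, map_zero, mul_zero]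
  · intro h
    exact absurd (Finset.mem_univ c) h

/-- `A` times the idempotent of the first action is `A` times that of the second action -/
theorem A_r1_r2 (c : I) : d.A 0 0 * d.r1 (D.e 0 c) = d.A 0 0 * d.r2 (D.e 0 c) := by
  unfold A
  rw [mul_assoc, mul_assoc, dd_r1, dd_r2]

theorem A_r1_E : d.A 0 0 * d.r1 (D.E 0) = d.A 0 0 := by
  unfold A
  rw [mul_assoc]
  congr 1
  unfold dd
  rw [Finset.sum_mul]
  refine Finset.sum_congr rfl fun c _ => ?_
  rw [mul_assoc, ← d.comm, ← mul_assoc, ← map_mul, D.e_E]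

theorem A_r2_E : d.A 0 0 * d.r2 (D.E 0) = d.A 0 0 := by
  unfold A
  rw [mul_assoc]
  congr 1
  unfold dd
  rw [Finset.sum_mul]
  refine Finset.sum_congr rfl fun c _ => ?_
  rw [mul_assoc, ← map_mul, D.e_E]

theorem nn_r1_E : d.nn 0 0 * d.r1 (D.E 0) = d.nn 0 0 := by
  unfold nn
  rw [Finset.sum_mul]
  refine Finset.sum_congr rfl fun c _ => ?_
  rw [Finset.sum_mul]
  refine Finset.sum_congr rfl fun c' _ => ?_
  split_ifs
  · rw [zero_mul]
  · rw [mul_assoc, ← d.comm, ← mul_assoc, ← map_mul, D.e_E]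

theorem nn_r2_E : d.nn 0 0 * d.r2 (D.E 0) = d.nn 0 0 := by
  unfold nn
  rw [Finset.sum_mul]
  refine Finset.sum_congr rfl fun c _ => ?_
  rw [Finset.sum_mul]
  refine Finset.sum_congr rfl fun c' _ => ?_
  split_ifs
  · rw [zero_mul]
  · rw [mul_assoc, ← map_mul, D.e_E]

theorem qq_r1_E : d.qq 0 0 * d.r1 (D.E 0) = d.qq 0 0 := by
  unfold qq
  rw [Finset.sum_mul]
  refine Finset.sum_congr rfl fun c _ => ?_
  rw [Finset.sum_mul]
  refine Finset.sum_congr rfl fun c' _ => ?_
  split_ifs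
  · rw [zero_mul]
  · rw [smul_mul_assoc, mul_assoc, mul_assoc, ← d.comm, ← mul_assoc (d.r1 _), ← map_mul, D.e_E]

theorem qq_r2_E : d.qq 0 0 * d.r2 (D.E 0) = d.qq 0 0 := by
  unfold qq
  rw [Finset.sum_mul]
  refine Finset.sum_congr rfl fun c _ => ?_
  rw [Finset.sum_mul]
  refine Finset.sum_congr rfl fun c' _ => ?_
  split_ifs
  · rw [zero_mul]
  · rw [smul_mul_assoc, mul_assoc, mul_assoc, ← map_mul, D.e_E]

/-! ### values of `opE 1` -/

theorem opE1_FF (i : I) (f : List Bool → P) (w : List Bool) :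
    opE 1 i d f (false :: false :: w) = d.r1 (D.shn 1 (D.e 0 i)) (f (false :: false :: w)) := rfl
theorem opE1_FT (i : I) (f : List Bool → P) (w : List Bool) :
    opE 1 i d f (false :: true :: w) = d.r2 (D.e 0 i) (f (false :: true :: w)) := rfl
theorem opE1_TF (i : I) (f : List Bool → P) (w : List Bool) :
    opE 1 i d f (true :: false :: w) = d.r1 (D.e 0 i) (f (true :: false :: w)) := rfl
theorem opE1_TT (i : I) (f : List Bool → P) (w : List Bool) :
    opE 1 i d f (true :: true :: w) = d.r2 (D.shn 1 (D.e 0 i)) (f (true :: true :: w)) := rfl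
theorem opE1_one (i : I) (f : List Bool → P) (b : Bool) : opE 1 i d f [b] = 0 := by
  cases b <;> rfl
theorem opE0_F (i : I) (f : List Bool → P) (w : List Bool) :
    opE 0 i d f (false :: w) = d.r1 (D.e 0 i) (f (false :: w)) := rfl
theorem opE0_T (i : I) (f : List Bool → P) (w : List Bool) :
    opE 0 i d f (true :: w) = d.r2 (D.e 0 i) (f (true :: w)) := rfl

/-! ### index zero -/

theorem tE_zero : d.T0 * glue (post (d.r1 (D.E 0))) (post (d.r2 (D.E 0))) = d.T0 := by
  have hA1 : ∀ p, d.A 0 0 (d.r1 (D.E 0) p) = d.A 0 0 p := fun p => LinearMap.congr_fun (A_r1_E d) p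
  have hA2 : ∀ p, d.A 0 0 (d.r2 (D.E 0) p) = d.A 0 0 p := fun p => LinearMap.congr_fun (A_r2_E d) p
  have hn1 : ∀ p, d.nn 0 0 (d.r1 (D.E 0) p) = d.nn 0 0 p :=
    fun p => LinearMap.congr_fun (nn_r1_E d) p
  have hq2 : ∀ p, d.qq 0 0 (d.r2 (D.E 0) p) = d.qq 0 0 p :=
    fun p => LinearMap.congr_fun (qq_r2_E d) p
  apply ext_two
  · intro f; rfl
  · intro f b; rw [Module.End.mul_apply, T0_one, T0_one]
  · intro f b b' w
    rw [Module.End.mul_apply]
    match b, b' with
    | false, false =>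
      rw [T0_FF, T0_FF, glue_false, post_apply, tl_apply, ← Module.End.mul_apply, ← map_mul, D.t_E]
    | true, true =>
      rw [T0_TT, T0_TT, glue_true, post_apply, tl_apply, ← Module.End.mul_apply, ← map_mul, D.t_E]
    | false, true =>
      rw [T0_FT, T0_FT, glue_true, glue_false, post_apply, post_apply, tl_apply, tl_apply, hA1,
        LinearMap.add_apply, LinearMap.add_apply, hA2, hq2]
    | true, false =>
      rw [T0_TF, T0_TF, glue_true, glue_false, post_apply, post_apply, tl_apply, tl_apply, hA2,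
        LinearMap.sub_apply, LinearMap.sub_apply, hA1, hn1]

theorem tE'_zero : d.T0 * glue (glue (post (d.shF.r1 (D.E 0))) (post (d.shF.r2 (D.E 0))))
    (glue (post (d.shT.r1 (D.E 0))) (post (d.shT.r2 (D.E 0)))) = d.T0 := by
  have hA1 : ∀ p, d.A 0 0 (d.r1 (D.E 0) p) = d.A 0 0 p := fun p => LinearMap.congr_fun (A_r1_E d) p
  have hA2 : ∀ p, d.A 0 0 (d.r2 (D.E 0) p) = d.A 0 0 p := fun p => LinearMap.congr_fun (A_r2_E d) p
  have hn2 : ∀ p, d.nn 0 0 (d.r2 (D.E 0) p) = d.nn 0 0 p :=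
    fun p => LinearMap.congr_fun (nn_r2_E d) p
  have hq1 : ∀ p, d.qq 0 0 (d.r1 (D.E 0) p) = d.qq 0 0 p :=
    fun p => LinearMap.congr_fun (qq_r1_E d) p
  apply ext_two
  · intro f; rfl
  · intro f b; rw [Module.End.mul_apply, T0_one, T0_one]
  · intro f b b' w
    rw [Module.End.mul_apply]
    match b, b' with
    | false, false =>
      rw [T0_FF, T0_FF, glue_false, glue_false, post_apply, tl_apply, tl_apply, shF_r1, D.shn_E,
        ← Module.End.mul_apply, ← map_mul, Nat.add_zero, D.t_E' 0]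
    | true, true =>
      rw [T0_TT, T0_TT, glue_true, glue_true, post_apply, tl_apply, tl_apply, shT_r2, D.shn_E,
        ← Module.End.mul_apply, ← map_mul, Nat.add_zero, D.t_E' 0]
    | false, true =>
      rw [T0_FT, T0_FT]
      simp only [glue_true, glue_false, post_apply, tl_apply, shF_r2, shT_r1, LinearMap.add_apply,
        hA1, hA2, hq1]
    | true, false =>
      rw [T0_TF, T0_TF]
      simp only [glue_true, glue_false, post_apply, tl_apply, shF_r2, shT_r1, LinearMap.sub_apply,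
        hA1, hA2, hn2]

theorem te0_zero (i : I) : d.T0 * opE 0 i d = opE 1 i d * d.T0 := by
  have hA : ∀ p, d.A 0 0 (d.r1 (D.e 0 i) p) = d.A 0 0 (d.r2 (D.e 0 i) p) :=
    fun p => LinearMap.congr_fun (A_r1_r2 d i) p
  have hA1 : ∀ p, d.r1 (D.e 0 i) (d.A 0 0 p) = d.A 0 0 (d.r1 (D.e 0 i) p) :=
    fun p => LinearMap.congr_fun (r1_A d (e_e i) (e_x i)) p
  have hA2 : ∀ p, d.r2 (D.e 0 i) (d.A 0 0 p) = d.A 0 0 (d.r2 (D.e 0 i) p) :=
    fun p => LinearMap.congr_fun (r2_A d (e_e i) (e_x i)) p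
  have hq2 : ∀ p, d.r2 (D.e 0 i) (d.qq 0 0 p) = d.qq 0 0 (d.r2 (D.e 0 i) p) :=
    fun p => LinearMap.congr_fun (r2_qq d (e_e i) (e_x i)) p
  have hn1 : ∀ p, d.r1 (D.e 0 i) (d.nn 0 0 p) = d.nn 0 0 (d.r1 (D.e 0 i) p) :=
    fun p => LinearMap.congr_fun (r1_nn d (e_e i)) p
  apply ext_two
  · intro f; rfl
  · intro f b; rw [Module.End.mul_apply, Module.End.mul_apply, T0_one, opE1_one]
  · intro f b b' w
    rw [Module.End.mul_apply, Module.End.mul_apply]
    match b, b' with
    | false, false =>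
      rw [T0_FF, opE1_FF, T0_FF, opE0_F, ← Module.End.mul_apply, ← Module.End.mul_apply, ← map_mul,
        ← map_mul, D.shn_e, D.t_e0]
    | true, true =>
      rw [T0_TT, opE1_TT, T0_TT, opE0_T, ← Module.End.mul_apply, ← Module.End.mul_apply, ← map_mul,
        ← map_mul, D.shn_e, D.t_e0]
    | false, true =>
      rw [T0_FT, opE1_FT, T0_FT, opE0_F, opE0_T]
      simp only [LinearMap.add_apply, map_add, map_sub, hA, hA2, hq2]
    | true, false =>
      rw [T0_TF, opE1_TF, T0_TF, opE0_F, opE0_T]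
      simp only [LinearMap.sub_apply, map_add, map_sub, hA, hA1, hn1]

theorem te1_zero (i : I) : d.T0 * opE 1 i d = opE 0 i d * d.T0 := by
  have hA : ∀ p, d.A 0 0 (d.r1 (D.e 0 i) p) = d.A 0 0 (d.r2 (D.e 0 i) p) :=
    fun p => LinearMap.congr_fun (A_r1_r2 d i) p
  have hA1 : ∀ p, d.r1 (D.e 0 i) (d.A 0 0 p) = d.A 0 0 (d.r1 (D.e 0 i) p) :=
    fun p => LinearMap.congr_fun (r1_A d (e_e i) (e_x i)) p
  have hA2 : ∀ p, d.r2 (D.e 0 i) (d.A 0 0 p) = d.A 0 0 (d.r2 (D.e 0 i) p) :=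
    fun p => LinearMap.congr_fun (r2_A d (e_e i) (e_x i)) p
  have hq1 : ∀ p, d.r1 (D.e 0 i) (d.qq 0 0 p) = d.qq 0 0 (d.r1 (D.e 0 i) p) :=
    fun p => LinearMap.congr_fun (r1_qq d (e_e i) (e_x i)) p
  have hn2 : ∀ p, d.r2 (D.e 0 i) (d.nn 0 0 p) = d.nn 0 0 (d.r2 (D.e 0 i) p) :=
    fun p => LinearMap.congr_fun (r2_nn d (e_e i)) p
  apply ext_two
  · intro f; rfl
  · intro f b
    rw [Module.End.mul_apply, Module.End.mul_apply, T0_one]
    cases b
    · rw [opE0_F, T0_one, map_zero]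
    · rw [opE0_T, T0_one, map_zero]
  · intro f b b' w
    rw [Module.End.mul_apply, Module.End.mul_apply]
    match b, b' with
    | false, false =>
      rw [T0_FF, opE1_FF, opE0_F, T0_FF, ← Module.End.mul_apply, ← Module.End.mul_apply, ← map_mul,
        ← map_mul, D.shn_e, Nat.add_zero, D.t_e1 0]
    | true, true =>
      rw [T0_TT, opE1_TT, opE0_T, T0_TT, ← Module.End.mul_apply, ← Module.End.mul_apply, ← map_mul,
        ← map_mul, D.shn_e, Nat.add_zero, D.t_e1 0]
    | false, true =>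
      rw [T0_FT, opE1_FT, opE1_TF, opE0_F, T0_FT]
      simp only [LinearMap.add_apply, map_add, map_sub, hA, hA1, hq1]
    | true, false =>
      rw [T0_TF, opE1_FT, opE1_TF, opE0_T, T0_TF]
      simp only [LinearMap.sub_apply, map_add, map_sub, hA, hA2, hn2]

/-- `T0` commutes with operators which act on the strands `2, 3, ...` and are natural -/
theorem T0_comm (G : Loc D P → Module.End K (List Bool → P))
    (hG : ∀ (d' : Loc D P) (g : Module.End K P), (∀ a, g * d'.r1 a = d'.r1 a * g) →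
      (∀ a, g * d'.r2 a = d'.r2 a * g) → post g * G d' = G d' * post g) :
    d.T0 * glue (glue (G d.shF.shF) (G d.shF.shT)) (glue (G d.shT.shF) (G d.shT.shT)) =
      glue (glue (G d.shF.shF) (G d.shF.shT)) (glue (G d.shT.shF) (G d.shT.shT)) * d.T0 := by
  have key : ∀ (d' : Loc D P) (g : Module.End K P), (∀ a, g * d'.r1 a = d'.r1 a * g) →
      (∀ a, g * d'.r2 a = d'.r2 a * g) → ∀ f w, g (G d' f w) = G d' (post g f) w := by
    intro d' g h1 h2 f w
    exact congrFun (LinearMap.congr_fun (hG d' g h1 h2) f) w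
  have hFF := key d.shF.shF (d.r1 (D.t 0))
    (fun a => by rw [shF_r1, shF_r1, D.shn_shn, ← map_mul, t0_shn, map_mul])
    (fun a => d.comm _ _)
  have hTT := key d.shT.shT (d.r2 (D.t 0)) (fun a => (d.comm _ _).symm)
    (fun a => by rw [shT_r2, shT_r2, D.shn_shn, ← map_mul, t0_shn, map_mul])
  have hA := key d.shF.shT (d.A 0 0) (fun a => (r1_A d (shn_e0 a) (shn_x0 a)).symm)
    (fun a => (r2_A d (shn_e0 a) (shn_x0 a)).symm)
  have hq := key d.shF.shT (d.qq 0 0) (fun a => (r1_qq d (shn_e0 a) (shn_x0 a)).symm)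
    (fun a => (r2_qq d (shn_e0 a) (shn_x0 a)).symm)
  have hn := key d.shF.shT (d.nn 0 0) (fun a => (r1_nn d (shn_e0 a)).symm)
    (fun a => (r2_nn d (shn_e0 a)).symm)
  apply ext_two
  · intro f; rfl
  · intro f b
    rw [Module.End.mul_apply, Module.End.mul_apply, T0_one]
    cases b <;> rfl
  · intro f b b' w
    rw [Module.End.mul_apply, Module.End.mul_apply]
    match b, b' with
    | false, false =>
      rw [T0_FF, glue_false, glue_false, hFF]
      rfl
    | true, true =>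
      rw [T0_TT, glue_true, glue_true, hTT]
      rfl
    | false, true =>
      rw [T0_FT]
      have e1 : tl (K := K) true (tl (K := K) false (d.T0 f)) =
          post (d.A 0 0) (tl (K := K) false (tl (K := K) true f)) +
            post (d.qq 0 0) (tl (K := K) false (tl (K := K) true f)) -
            post (d.A 0 0) (tl (K := K) true (tl (K := K) false f)) := rfl
      rw [glue_true, glue_false, glue_false, glue_true, shT_shF, LinearMap.add_apply, hA, hq, hA,
        glue_false, glue_true, e1, map_sub, map_add]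
      rfl
    | true, false =>
      rw [T0_TF]
      have e1 : tl (K := K) false (tl (K := K) true (d.T0 f)) =
          post (d.A 0 0) (tl (K := K) false (tl (K := K) true f)) +
            (post (d.nn 0 0) (tl (K := K) true (tl (K := K) false f)) -
            post (d.A 0 0) (tl (K := K) true (tl (K := K) false f))) := rfl
      rw [glue_true, glue_false, glue_false, glue_true, shT_shF, LinearMap.sub_apply, hA, hn, hA,
        glue_true, glue_false, e1, map_add, map_sub]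
      rfl

/-! ### all indices -/

theorem tE_aux (k : ℕ) : opT k d * ∑ i, opE k i d = opT k d := by
  induction k generalizing d with
  | zero => rw [sum_opE_zero, opT_zero, tE_zero]
  | succ k ih => rw [sum_opE_succ, opT_succ, glue_mul, ih, ih]

theorem tE'_aux (k : ℕ) : opT k d * ∑ i, opE (k + 1) i d = opT k d := by
  induction k generalizing d with
  | zero => rw [sum_opE_succ, sum_opE_zero, sum_opE_zero, opT_zero, tE'_zero]
  | succ k ih => rw [sum_opE_succ, opT_succ, glue_mul, ih, ih]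

theorem te0_aux (k : ℕ) (i : I) : opT k d * opE k i d = opE (k + 1) i d * opT k d := by
  induction k generalizing d with
  | zero => exact te0_zero d i
  | succ k ih => rw [opE_succ, opE_succ, opT_succ, glue_mul, glue_mul, ih, ih]

theorem te1_aux (k : ℕ) (i : I) : opT k d * opE (k + 1) i d = opE k i d * opT k d := by
  induction k generalizing d with
  | zero => exact te1_zero d i
  | succ k ih => rw [opE_succ (k + 1) i d, opE_succ k i d, opT_succ, glue_mul, glue_mul, ih, ih]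

theorem te_aux (k l : ℕ) (i : I) (h : l ≠ k) (h' : l ≠ k + 1) :
    opT k d * opE l i d = opE l i d * opT k d := by
  induction k generalizing d l with
  | zero =>
    obtain ⟨l, rfl⟩ : ∃ l', l = l' + 2 := ⟨l - 2, by omega⟩
    exact T0_comm d (fun d' => opE l i d') (fun d' g h1 h2 => post_opE l i d' h1 h2)
  | succ k ih =>
    cases l with
    | zero =>
      obtain ⟨h1, h2, h3, h4⟩ := comm_tail d (e0_shn i)
      rw [opE_zero, opT_succ, glue_mul, glue_mul, post_opT k d.shF h1 h2, post_opT k d.shT h3 h4]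
    | succ l =>
      rw [opT_succ, opE_succ, glue_mul, glue_mul, ih d.shF l (by omega) (by omega),
        ih d.shT l (by omega) (by omega)]

theorem tx_aux (k l : ℕ) (h : l ≠ k) (h' : l ≠ k + 1) :
    opT k d * opX l d = opX l d * opT k d := by
  induction k generalizing d l with
  | zero =>
    obtain ⟨l, rfl⟩ : ∃ l', l = l' + 2 := ⟨l - 2, by omega⟩
    exact T0_comm d (fun d' => opX l d') (fun d' g h1 h2 => post_opX l d' h1 h2)
  | succ k ih =>
    cases l with
    | zero =>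
      obtain ⟨h1, h2, h3, h4⟩ := comm_tail d x0_shn
      rw [opX_zero, opT_succ, glue_mul, glue_mul, post_opT k d.shF h1 h2, post_opT k d.shT h3 h4]
    | succ l =>
      rw [opT_succ, opX_succ, glue_mul, glue_mul, ih d.shF l (by omega) (by omega),
        ih d.shT l (by omega) (by omega)]

theorem far_aux (k l : ℕ) (h : k + 1 < l) : opT k d * opT l d = opT l d * opT k d := by
  induction k generalizing d l with
  | zero =>
    obtain ⟨l, rfl⟩ : ∃ l', l = l' + 2 := ⟨l - 2, by omega⟩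
    exact T0_comm d (fun d' => opT l d') (fun d' g h1 h2 => post_opT l d' h1 h2)
  | succ k ih =>
    obtain ⟨l, rfl⟩ : ∃ l', l = l' + 1 := ⟨l - 1, by omega⟩
    rw [opT_succ, opT_succ, glue_mul, glue_mul, ih d.shF l (by omega), ih d.shT l (by omega)]

end RT

theorem prf_rT (D : Datum K I) : S_rT D := fun _ _ _ d =>
  ⟨RT.tE_aux d, RT.tE'_aux d, RT.te0_aux d, RT.te1_aux d, RT.te_aux d, RT.tx_aux d, RT.far_aux d⟩

end Pbw

end Pool.Agent.KLR
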