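import Pool.Agent.Work.MP_e487d8_al.Pbw.Stmts

/-! MP_e487d8_al, PBW block: spanning by shuffles. -/

set_option autoImplicit false

namespace Pool.Agent.KLR

variable {K I : Type} [Field K] [Fintype I] [DecidableEq I]

namespace Pbw

namespace Stable

variable (D : Datum K I)

theorem tr_chain (m : ℕ) : D.tr (m + 1) (D.chain m) = D.chain m := by
  induction m with
  | zero => exact map_one _
  | succ m ih =>
    have h : D.chain (m + 1) = D.chain m * D.t m := rfl
    have h1 : D.tr (m + 1 + 1) (D.chain m) = D.chain m := by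
      rw [← ih, D.tr_tr (by omega)]
    rw [h, map_mul, h1, D.tr_t, if_pos (by omega)]

theorem e_chain (m : ℕ) (i : I) : D.e 0 i * D.chain m = D.chain m * D.e m i := by
  induction m with
  | zero => simp [Datum.chain]
  | succ m ih =>
    have h : D.chain (m + 1) = D.chain m * D.t m := rfl
    rw [h, ← mul_assoc, ih, mul_assoc, mul_assoc, D.t_e1]

theorem chain_succ (m : ℕ) : D.chain (m + 1) = D.t 0 * D.shn 1 (D.chain m) := by
  induction m with
  | zero => simp [Datum.chain]
  | succ m ih =>
    have h' : D.chain (m + 1) = D.chain m * D.t m := rfl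
    calc D.chain (m + 1 + 1) = D.chain (m + 1) * D.t (m + 1) := rfl
      _ = D.t 0 * D.shn 1 (D.chain m) * D.t (m + 1) := by rw [ih]
      _ = D.t 0 * D.shn 1 (D.chain (m + 1)) := by
        rw [h', map_mul, D.shn_t, mul_assoc, add_comm 1 m]

theorem tw_true {w : List Bool} (h : w.count false = 0) : D.tw w = 1 := by
  induction w with
  | nil => rfl
  | cons b w ih =>
    cases b with
    | false => simp at h
    | true =>
      rw [List.count_cons_of_ne (by simp)] at h
      have h1 : D.tw (true :: w) = D.shn 1 (D.tw w) * D.chain (w.count false) := rfl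
      rw [h1, ih h, h, map_one, one_mul]
      rfl

theorem tw_false {w : List Bool} (h : w.count true = 0) : D.tw w = 1 := by
  induction w with
  | nil => rfl
  | cons b w ih =>
    cases b with
    | true => simp at h
    | false =>
      rw [List.count_cons_of_ne (by simp)] at h
      have h1 : D.tw (false :: w) = D.shn 1 (D.tw w) := rfl
      rw [h1, ih h, map_one]

theorem tw_rep (m n : ℕ) : D.tw (List.replicate m false ++ List.replicate n true) = 1 := by
  induction m with
  | zero =>
    apply tw_true
    simp [List.count_replicate]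
  | succ m ih =>
    have h1 : D.tw (List.replicate (m + 1) false ++ List.replicate n true) =
      D.shn 1 (D.tw (List.replicate m false ++ List.replicate n true)) := rfl
    rw [h1, ih, map_one]

theorem comm1 {g : KLRAlg D} (hg : D.tr 1 g = g) (b : KLRAlg D) :
    g * D.shn 1 b = D.shn 1 b * g := by
  have h := D.tr_mul_shn (le_refl 1) g b
  rwa [hg] at h

variable {D}
variable {m n : ℕ} {U P : Type} [AddCommGroup U] [Module K U] [AddCommGroup P] [Module K P]
  {r1 r2 : KLRAlg D →ₐ[K] Module.End K U} {r : KLRAlg D →ₐ[K] Module.End K P}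
  {Z : Submodule K P} {β : U →ₗ[K] P}

theorem mem_Z {z : P} (hz : z ∈ Z) : z ∈ shSpan D m n r Z β :=
  (le_sup_left : Z ≤ shSpan D m n r Z β) hz

theorem mem_w {w : List Bool} (h : w.count false = m) (h' : w.count true = n) (p : U) :
    r (D.tw w) (β p) ∈ shSpan D m n r Z β :=
  (le_sup_right : _ ≤ shSpan D m n r Z β) (Submodule.subset_span ⟨w, p, h, h', rfl⟩)

theorem mem_beta (p : U) : β p ∈ shSpan D m n r Z β := by
  have h := mem_w (D := D) (m := m) (n := n) (r := r) (Z := Z) (β := β)
    (w := List.replicate m false ++ List.replicate n true)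
    (by simp [List.count_replicate]) (by simp [List.count_replicate]) p
  rw [tw_rep, map_one] at h
  exact h

/-- to show that an operator maps the span to a submodule it is enough to look at the
generators -/
theorem ind {X : Submodule K P} {f : Module.End K P} (hZ : ∀ z ∈ Z, f z ∈ X)
    (hw : ∀ (w : List Bool) (p : U), w.count false = m → w.count true = n →
      f (r (D.tw w) (β p)) ∈ X) : ∀ y ∈ shSpan D m n r Z β, f y ∈ X := by
  have h : shSpan D m n r Z β ≤ X.comap f := by
    refine sup_le (fun z hz => hZ z hz) ?_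
    rw [Submodule.span_le]
    rintro y ⟨w, p, h1, h2, rfl⟩
    exact hw w p h1 h2
  exact fun y hy => h hy

theorem mul_app (r : KLRAlg D →ₐ[K] Module.End K P) (a b : KLRAlg D) (y : P) :
    r (a * b) y = r a (r b y) := by
  rw [map_mul]
  rfl

end Stable

open Stable

theorem stable_zero_left (D : Datum K I) (n : ℕ) (U P : Type) [AddCommGroup U] [Module K U]
    [AddCommGroup P] [Module K P] (r2 : KLRAlg D →ₐ[K] Module.End K U)
    (r : KLRAlg D →ₐ[K] Module.End K P)
    (Z : Submodule K P) (β : U →ₗ[K] P)
    (hZ : ∀ a, ∀ z ∈ Z, r a z ∈ Z)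
    (hr : ∀ a p, r (D.shn 0 a) (β p) - β (r2 a p) ∈ Z) :
    ∀ a, ∀ y ∈ shSpan D 0 n r Z β, r a y ∈ shSpan D 0 n r Z β := by
  intro a
  apply ind
  · exact fun z hz => mem_Z (hZ a z hz)
  · intro w p h1 h2
    rw [tw_true D h1, map_one]
    have h := hr a p
    rw [D.shn_zero] at h
    have h3 : r a (β p) = (r a (β p) - β (r2 a p)) + β (r2 a p) := by abel
    change r a (β p) ∈ _
    rw [h3]
    exact add_mem (mem_Z h) (mem_beta _)

/-- the strands from `m` on act on `β p` as on the second factor -/
theorem stable_zero_right (D : Datum K I) (m : ℕ) (U P : Type) [AddCommGroup U] [Module K U]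
    [AddCommGroup P] [Module K P] (r1 r2 : KLRAlg D →ₐ[K] Module.End K U)
    (r : KLRAlg D →ₐ[K] Module.End K P)
    (Z : Submodule K P) (β : U →ₗ[K] P) (h2 : StrandHom D 0 r2)
    (hZ : ∀ a, ∀ z ∈ Z, r a z ∈ Z)
    (hl : ∀ a p, r (D.tr m a) (β p) - β (r1 a p) ∈ Z)
    (hr : ∀ a p, r (D.shn m a) (β p) - β (r2 a p) ∈ Z) :
    ∀ a, ∀ y ∈ shSpan D m 0 r Z β, r a y ∈ shSpan D m 0 r Z β := by
  have hgen : ∀ g : KLRAlg D, (∀ p, r g (β p) ∈ shSpan D m 0 r Z β) →
      ∀ y ∈ shSpan D m 0 r Z β, r g y ∈ shSpan D m 0 r Z β := by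
    intro g hg
    apply ind
    · exact fun z hz => mem_Z (hZ g z hz)
    · intro w p _ h4
      rw [tw_false D h4, map_one]
      exact hg p
  have htr : ∀ g : KLRAlg D, D.tr m g = g → ∀ p, r g (β p) ∈ shSpan D m 0 r Z β := by
    intro g hg p
    have h := hl g p
    rw [hg] at h
    have h3 : r g (β p) = (r g (β p) - β (r1 g p)) + β (r1 g p) := by abel
    rw [h3]
    exact add_mem (mem_Z h) (mem_beta _)
  have he : ∀ k, m ≤ k → ∀ i p, r (D.e k i) (β p) ∈ Z := by
    intro k hk i p
    have h := hr (D.e (k - m) i) p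
    rw [D.shn_e, h2.zero _ (by omega), show m + (k - m) = k by omega] at h
    simpa using h
  have hE : ∀ k, m ≤ k → ∀ p, r (D.E k) (β p) ∈ Z := by
    intro k hk p
    unfold Datum.E
    rw [map_sum, LinearMap.sum_apply]
    exact sum_mem fun i _ => he k hk i p
  intro a
  induction a using KLRAlg.induction with
  | hs c =>
    intro y hy
    rw [AlgHom.commutes, Module.algebraMap_end_apply]
    exact Submodule.smul_mem _ _ hy
  | hadd a b ha hb =>
    intro y hy
    rw [map_add]
    exact add_mem (ha y hy) (hb y hy)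
  | hmul a b ha hb =>
    intro y hy
    rw [mul_app]
    exact ha _ (hb y hy)
  | he k i =>
    apply hgen
    intro p
    by_cases hk : k < m
    · exact htr _ (by rw [D.tr_e, if_pos hk]) p
    · exact mem_Z (he k (by omega) i p)
  | hx k =>
    apply hgen
    intro p
    by_cases hk : k < m
    · exact htr _ (by rw [D.tr_x, if_pos hk]) p
    · rw [← D.x_E, mul_app]
      exact mem_Z (hZ _ _ (hE k (by omega) p))
  | ht k =>
    apply hgen
    intro p
    by_cases hk : k + 1 < m
    · exact htr _ (by rw [D.tr_t, if_pos hk]) p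
    · rw [← D.t_E', mul_app]
      exact mem_Z (hZ _ _ (hE (k + 1) (by omega) p))

/-- the statement for `m` and `n` -/
def St (D : Datum K I) (m n : ℕ) : Prop := ∀ (U P : Type) [AddCommGroup U] [Module K U]
  [AddCommGroup P] [Module K P] (r1 r2 : KLRAlg D →ₐ[K] Module.End K U)
  (r : KLRAlg D →ₐ[K] Module.End K P)
  (Z : Submodule K P) (β : U →ₗ[K] P), StrandHom D m r1 → StrandHom D n r2 →
  (∀ a, ∀ z ∈ Z, r a z ∈ Z) →
  (∀ a p, r (D.tr m a) (β p) - β (r1 a p) ∈ Z) →
  (∀ a p, r (D.shn m a) (β p) - β (r2 a p) ∈ Z) →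
  ∀ a, ∀ y ∈ shSpan D m n r Z β, r a y ∈ shSpan D m n r Z β

theorem StrandHom.shift {D : Datum K I} {n : ℕ} {V : Type} [AddCommGroup V] [Module K V]
    {r : KLRAlg D →ₐ[K] Module.End K V} (h : StrandHom D (n + 1) r) :
    StrandHom D n (r.comp (D.shn 1)) where
  one k hk := by
    rw [AlgHom.comp_apply, D.shn_E]
    exact h.one (1 + k) (by omega)
  zero k hk i := by
    rw [AlgHom.comp_apply, D.shn_e]
    exact h.zero (1 + k) (by omega) i

section step

variable {D : Datum K I} {m n : ℕ} {U P : Type} [AddCommGroup U] [Module K U] [AddCommGroup P]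
  [Module K P] {r1 r2 : KLRAlg D →ₐ[K] Module.End K U} {r : KLRAlg D →ₐ[K] Module.End K P}
  {Z : Submodule K P} {β : U →ₗ[K] P}

/-- step F -/
theorem stepF (ih : St D m n) (h1 : StrandHom D (m + 1) r1) (h2 : StrandHom D n r2)
    (hZ : ∀ a, ∀ z ∈ Z, r a z ∈ Z)
    (hl : ∀ a p, r (D.tr (m + 1) a) (β p) - β (r1 a p) ∈ Z)
    (hr : ∀ a p, r (D.shn (m + 1) a) (β p) - β (r2 a p) ∈ Z) :
    ∀ a, ∀ y ∈ shSpan D m n (r.comp (D.shn 1)) Z β,
      r (D.shn 1 a) y ∈ shSpan D m n (r.comp (D.shn 1)) Z β := by
  refine ih U P (r1.comp (D.shn 1)) r2 (r.comp (D.shn 1)) Z β h1.shift h2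
    (fun a z hz => hZ _ z hz) ?_ ?_
  · intro a p
    have h := hl (D.shn 1 a) p
    rw [show m + 1 = 1 + m by omega, D.tr_shn] at h
    exact h
  · intro a p
    have h := hr a p
    rw [show m + 1 = 1 + m by omega, ← D.shn_shn] at h
    exact h

theorem W_mem {X : Submodule K P} (hX : ∀ a, ∀ y ∈ X, r (D.shn 1 a) y ∈ X) (hZX : Z ≤ X)
    (hβ : ∀ p, β p ∈ X) (hl : ∀ a p, r (D.tr m a) (β p) - β (r1 a p) ∈ Z)
    {w : KLRAlg D} (hw : w ∈ W D m) (p : U) : r w (β p) ∈ X := by
  have h : W D m ≤ Submodule.comap ((LinearMap.applyₗ (β p)).comp r.toLinearMap) X := by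
    unfold W
    rw [Submodule.span_le]
    rintro z ⟨_, a, b, rfl⟩
    change r (D.shn 1 a * D.tr m b) (β p) ∈ X
    rw [mul_app]
    apply hX
    have h3 : r (D.tr m b) (β p) = (r (D.tr m b) (β p) - β (r1 b p)) + β (r1 b p) := by abel
    rw [h3]
    exact add_mem (hZX (hl b p)) (hβ _)
  exact h hw

/-- step T -/
theorem stepT (hW1 : S_W1 D) (ih : St D (m + 1) n) (h1 : StrandHom D (m + 1) r1)
    (h2 : StrandHom D (n + 1) r2)
    (hZ : ∀ a, ∀ z ∈ Z, r a z ∈ Z)
    (hl : ∀ a p, r (D.tr (m + 1) a) (β p) - β (r1 a p) ∈ Z)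
    (hr : ∀ a p, r (D.shn (m + 1) a) (β p) - β (r2 a p) ∈ Z)
    {X : Submodule K P} (hX : ∀ a, ∀ y ∈ X, r (D.shn 1 a) y ∈ X) (hZX : Z ≤ X)
    (hβ : ∀ p, β p ∈ X) :
    ∀ a, ∀ y ∈ shSpan D (m + 1) n (r.comp (D.shn 1)) X (r (D.chain (m + 1)) ∘ₗ β),
      r (D.shn 1 a) y ∈
        shSpan D (m + 1) n (r.comp (D.shn 1)) X (r (D.chain (m + 1)) ∘ₗ β) := by
  refine ih U P r1 (r2.comp (D.shn 1)) (r.comp (D.shn 1)) X _ h1 h2.shift hX ?_ ?_
  · intro a p
    have hw := W_mem hX hZX hβ hl (hW1 (m + 1) a) p
    have h3 := hZX (hZ (D.chain (m + 1)) _ (hl a p))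
    rw [map_sub, LinearMap.sub_apply, mul_app, mul_app] at hw
    rw [map_sub] at h3
    have h4 := add_mem hw h3
    rw [sub_add_sub_cancel] at h4
    exact h4
  · intro a p
    have h3 := hZX (hZ (D.chain (m + 1)) _ (hr (D.shn 1 a) p))
    rw [map_sub, ← mul_app] at h3
    have h5 : D.chain (m + 1) * D.shn (m + 1) (D.shn 1 a) =
        D.shn 1 (D.shn (m + 1) a) * D.chain (m + 1) := by
      rw [D.shn_shn, D.shn_shn, ← tr_chain D (m + 1), D.tr_mul_shn (le_refl _),
        show 1 + (m + 1) = m + 1 + 1 by omega]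
    rw [h5, mul_app] at h3
    exact h3

/-- the span decomposed by the first letter -/
theorem split_span : shSpan D (m + 1) (n + 1) r Z β =
    shSpan D (m + 1) n (r.comp (D.shn 1)) (shSpan D m (n + 1) (r.comp (D.shn 1)) Z β)
      (r (D.chain (m + 1)) ∘ₗ β) := by
  apply le_antisymm
  · refine sup_le (fun z hz => mem_Z (mem_Z hz)) ?_
    rw [Submodule.span_le]
    rintro y ⟨w, p, h1, h2, rfl⟩
    match w with
    | [] => simp at h1
    | false :: w =>
      rw [List.count_cons_self] at h1
      rw [List.count_cons_of_ne (by simp)] at h2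
      exact mem_Z (mem_w (r := r.comp (D.shn 1)) (w := w) (by omega) h2 p)
    | true :: w =>
      rw [List.count_cons_self] at h2
      rw [List.count_cons_of_ne (by simp)] at h1
      have h3 := mem_w (D := D) (m := m + 1) (n := n) (r := r.comp (D.shn 1)) (w := w)
        (Z := shSpan D m (n + 1) (r.comp (D.shn 1)) Z β)
        (β := r (D.chain (m + 1)) ∘ₗ β) h1 (by omega) p
      have h4 : D.tw (true :: w) = D.shn 1 (D.tw w) * D.chain (w.count false) := rfl
      change r (D.tw (true :: w)) (β p) ∈ _
      rw [h4, h1, mul_app]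
      exact h3
  · refine sup_le (sup_le (fun z hz => mem_Z hz) ?_) ?_
    · rw [Submodule.span_le]
      rintro y ⟨w, p, h1, h2, rfl⟩
      have h4 : D.tw (false :: w) = D.shn 1 (D.tw w) := rfl
      have h3 := mem_w (D := D) (m := m + 1) (n := n + 1) (r := r) (w := false :: w)
        (Z := Z) (β := β) (by rw [List.count_cons_self, h1])
        (by rw [List.count_cons_of_ne (by simp), h2]) p
      rw [h4] at h3
      exact h3
    · rw [Submodule.span_le]
      rintro y ⟨w, p, h1, h2, rfl⟩
      have h4 : D.tw (true :: w) = D.shn 1 (D.tw w) * D.chain (w.count false) := rfl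
      have h3 := mem_w (D := D) (m := m + 1) (n := n + 1) (r := r) (w := true :: w)
        (Z := Z) (β := β) (by rw [List.count_cons_of_ne (by simp), h1])
        (by rw [List.count_cons_self, h2]) p
      rw [h4, h1, mul_app] at h3
      exact h3

theorem stable_step (hW1 : S_W1 D) (hW2 : S_W2 D) (hW3 : S_W3 D) (ihF : St D m (n + 1))
    (ihT : St D (m + 1) n) : St D (m + 1) (n + 1) := by
  intro U P _ _ _ _ r1 r2 r Z β h1 h2 hZ hl hr
  have F := stepF ihF h1 h2 hZ hl hr
  have T := stepT hW1 ihT h1 h2 hZ hl hr F (fun z hz => mem_Z hz) (fun p => mem_beta p)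
  rw [← split_span] at T
  have hXF : shSpan D m (n + 1) (r.comp (D.shn 1)) Z β ≤ shSpan D (m + 1) (n + 1) r Z β := by
    rw [split_span]
    exact fun z hz => mem_Z hz
  have hW : ∀ w ∈ W D (m + 1), ∀ p, r w (β p) ∈ shSpan D m (n + 1) (r.comp (D.shn 1)) Z β :=
    fun w hw p => W_mem F (fun z hz => mem_Z hz) (fun p => mem_beta p) hl hw p
  -- an element which acts on `β p` as on the first or the second factor
  have hact : ∀ g : KLRAlg D, (D.tr (m + 1) g = g ∨ ∃ g', D.shn (m + 1) g' = g) → ∀ p, ∃ p',
      r g (β p) - β p' ∈ Z := by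
    rintro g (hg | ⟨g', rfl⟩) p
    · refine ⟨r1 g p, ?_⟩
      have h := hl g p
      rwa [hg] at h
    · exact ⟨_, hr g' p⟩
  have hY : ∀ (g : KLRAlg D), (D.tr (m + 1) g = g ∨ ∃ g', D.shn (m + 1) g' = g) →
      ∀ (w : List Bool) (p : U), w.count false = m + 1 → w.count true = n + 1 →
      r (D.tw w) (r g (β p)) ∈ shSpan D (m + 1) (n + 1) r Z β := by
    intro g hg w p h3 h4
    obtain ⟨p', hp⟩ := hact g hg p
    have h5 : r g (β p) = (r g (β p) - β p') + β p' := by abel
    rw [h5, map_add]
    exact add_mem (mem_Z (hZ _ _ hp)) (mem_w h3 h4 p')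
  have hF : ∀ (g : KLRAlg D), D.tr (m + 1) g = g → (∀ b, g * D.shn 1 b = D.shn 1 b * g) →
      ∀ y ∈ shSpan D m (n + 1) (r.comp (D.shn 1)) Z β,
        r g y ∈ shSpan D m (n + 1) (r.comp (D.shn 1)) Z β := by
    intro g hg hc
    apply ind
    · exact fun z hz => mem_Z (hZ g z hz)
    · intro w p h3 h4
      change r g (r (D.shn 1 (D.tw w)) (β p)) ∈ _
      rw [← mul_app, hc, mul_app]
      apply F
      obtain ⟨p', hp⟩ := hact g (Or.inl hg) p
      have h5 : r g (β p) = (r g (β p) - β p') + β p' := by abel
      rw [h5]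
      exact add_mem (mem_Z hp) (mem_beta p')
  have tre : ∀ i, D.tr (m + 1) (D.e 0 i) = D.e 0 i := fun i => by rw [D.tr_e, if_pos (by omega)]
  have trx : D.tr (m + 1) (D.x 0) = D.x 0 := by rw [D.tr_x, if_pos (by omega)]
  have ce : ∀ i b, D.e 0 i * D.shn 1 b = D.shn 1 b * D.e 0 i := fun i b =>
    comm1 D (by rw [D.tr_e, if_pos (by omega)]) b
  have cx : ∀ b, D.x 0 * D.shn 1 b = D.shn 1 b * D.x 0 := fun b =>
    comm1 D (by rw [D.tr_x, if_pos (by omega)]) b
  -- `t 0 * t 0` on the first part
  have htt : ∀ y ∈ shSpan D m (n + 1) (r.comp (D.shn 1)) Z β,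
      r (D.t 0 * D.t 0) y ∈ shSpan D m (n + 1) (r.comp (D.shn 1)) Z β := by
    intro y hy
    have hx1 : ∀ y ∈ shSpan D m (n + 1) (r.comp (D.shn 1)) Z β,
        r (D.x 0 - D.x (0 + 1)) y ∈ shSpan D m (n + 1) (r.comp (D.shn 1)) Z β := by
      intro y hy
      rw [map_sub, LinearMap.sub_apply]
      refine sub_mem (hF _ trx cx y hy) ?_
      have h := F (D.x 0) y hy
      rw [D.shn_x] at h
      exact h
    have hx2 : ∀ (q : ℕ), ∀ y ∈ shSpan D m (n + 1) (r.comp (D.shn 1)) Z β,
        r ((D.x 0 - D.x (0 + 1)) ^ q) y ∈ shSpan D m (n + 1) (r.comp (D.shn 1)) Z β := by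
      intro q
      induction q with
      | zero => intro y hy; rw [pow_zero, map_one]; exact hy
      | succ q ihq => intro y hy; rw [pow_succ, mul_app]; exact ihq _ (hx1 y hy)
    rw [D.t_t, map_sum, LinearMap.sum_apply]
    refine sum_mem fun i _ => ?_
    rw [map_sum, LinearMap.sum_apply]
    refine sum_mem fun j _ => ?_
    split_ifs with hij
    · rw [map_zero]; exact zero_mem _
    · rw [map_smul, LinearMap.smul_apply, mul_app, mul_app]
      refine Submodule.smul_mem _ _ (hx2 _ _ (hF _ (tre i) (ce i) _ ?_))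
      have h := F (D.e 0 j) y hy
      rw [D.shn_e] at h
      exact h
  intro a
  induction a using KLRAlg.induction with
  | hs c =>
    intro y hy
    rw [AlgHom.commutes, Module.algebraMap_end_apply]
    exact Submodule.smul_mem _ _ hy
  | hadd a b ha hb =>
    intro y hy
    rw [map_add]
    exact add_mem (ha y hy) (hb y hy)
  | hmul a b ha hb =>
    intro y hy
    rw [mul_app]
    exact ha _ (hb y hy)
  | he k i =>
    rcases k with _ | k
    · apply ind
      · exact fun z hz => mem_Z (hZ _ z hz)
      · intro w p h3 h4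
        match w with
        | [] => simp at h3
        | false :: w =>
          have h5 : D.tw (false :: w) = D.shn 1 (D.tw w) := rfl
          rw [h5, ← mul_app, ce, mul_app, ← h5]
          exact hY _ (Or.inl (tre i)) _ p h3 h4
        | true :: w =>
          have h5 : D.tw (true :: w) = D.shn 1 (D.tw w) * D.chain (w.count false) := rfl
          have h6 : w.count false = m + 1 := by
            rwa [List.count_cons_of_ne (by simp)] at h3
          have h7 : D.e 0 i * D.tw (true :: w) = D.tw (true :: w) * D.e (m + 1) i := by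
            rw [h5, h6, ← mul_assoc, ce, mul_assoc, e_chain, mul_assoc]
          rw [← mul_app, h7, mul_app]
          exact hY _ (Or.inr ⟨D.e 0 i, by rw [D.shn_e, add_zero]⟩) _ p h3 h4
    · intro y hy
      have h := T (D.e k i) y hy
      rw [D.shn_e, add_comm 1 k] at h
      exact h
  | hx k =>
    rcases k with _ | k
    · apply ind
      · exact fun z hz => mem_Z (hZ _ z hz)
      · intro w p h3 h4
        match w with
        | [] => simp at h3
        | false :: w =>
          have h5 : D.tw (false :: w) = D.shn 1 (D.tw w) := rfl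
          rw [h5, ← mul_app, cx, mul_app, ← h5]
          exact hY _ (Or.inl trx) _ p h3 h4
        | true :: w =>
          have h5 : D.tw (true :: w) = D.shn 1 (D.tw w) * D.chain (w.count false) := rfl
          have h6 : w.count false = m + 1 := by
            rwa [List.count_cons_of_ne (by simp)] at h3
          have h7 : D.x 0 * D.tw (true :: w) = D.tw (true :: w) * D.x (m + 1) +
              D.shn 1 (D.tw w) * (D.x 0 * D.chain (m + 1) - D.chain (m + 1) * D.x (m + 1)) := by
            rw [h5, h6, ← mul_assoc, cx, mul_sub, mul_assoc, mul_assoc, add_sub_cancel]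
          rw [← mul_app, h7, map_add, LinearMap.add_apply, mul_app, mul_app]
          refine add_mem (hY _ (Or.inr ⟨D.x 0, by rw [D.shn_x, add_zero]⟩) _ p h3 h4) ?_
          exact hXF (F _ _ (hW _ (hW2 (m + 1)) p))
    · intro y hy
      have h := T (D.x k) y hy
      rw [D.shn_x, add_comm 1 k] at h
      exact h
  | ht k =>
    rcases k with _ | k
    · apply ind
      · exact fun z hz => mem_Z (hZ _ z hz)
      · intro w p h3 h4
        match w with
        | [] => simp at h3
        | [false] => simp at h4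
        | [true] => simp at h3
        | false :: false :: w =>
          have h5 : D.tw (false :: false :: w) = D.shn 1 (D.shn 1 (D.tw w)) := rfl
          have h6 : D.t 0 * D.tw (false :: false :: w) =
              D.tw (false :: false :: w) * D.t 0 := by
            rw [h5, D.shn_shn]
            have h := D.tr_mul_shn (le_refl 2) (D.t 0) (D.tw w)
            rwa [D.tr_t, if_pos (by omega)] at h
          rw [← mul_app, h6, mul_app]
          refine hY _ (Or.inl ?_) _ p h3 h4
          rw [List.count_cons_self, List.count_cons_self] at h3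
          rw [D.tr_t, if_pos (by omega)]
        | false :: true :: w =>
          have h5 : D.tw (false :: true :: w) =
              D.shn 1 (D.shn 1 (D.tw w) * D.chain (w.count false)) := rfl
          have h6 : w.count false = m := by
            rw [List.count_cons_self, List.count_cons_of_ne (by simp)] at h3
            omega
          have h7 : D.t 0 * D.tw (false :: true :: w) = D.tw (true :: false :: w) := by
            have h8 : D.tw (true :: false :: w) =
              D.shn 1 (D.shn 1 (D.tw w)) * D.chain ((false :: w).count false) := rfl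
            rw [h5, h8, List.count_cons_self, h6, chain_succ, map_mul, ← mul_assoc, ← mul_assoc]
            congr 1
            rw [D.shn_shn]
            have h := D.tr_mul_shn (le_refl 2) (D.t 0) (D.tw w)
            rwa [D.tr_t, if_pos (by omega)] at h
          rw [← mul_app, h7]
          apply mem_w
          · rw [List.count_cons_of_ne (by simp), List.count_cons_self, h6]
          · rw [List.count_cons_of_ne (by simp), List.count_cons_self] at h4
            rw [List.count_cons_self, List.count_cons_of_ne (by simp), h4]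
        | true :: false :: w =>
          have h8 : D.tw (true :: false :: w) =
              D.shn 1 (D.shn 1 (D.tw w)) * D.chain ((false :: w).count false) := rfl
          have h6 : (false :: w).count false = m + 1 := by
            rwa [List.count_cons_of_ne (by simp)] at h3
          have h7 : D.t 0 * D.tw (true :: false :: w) =
              D.shn 1 (D.shn 1 (D.tw w)) * (D.t 0 * D.t 0 * D.shn 1 (D.chain m)) := by
            have h9 : D.t 0 * D.shn 1 (D.shn 1 (D.tw w)) = D.shn 1 (D.shn 1 (D.tw w)) * D.t 0 := by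
              rw [D.shn_shn]
              have h := D.tr_mul_shn (le_refl 2) (D.t 0) (D.tw w)
              rwa [D.tr_t, if_pos (by omega)] at h
            rw [h8, h6, chain_succ, ← mul_assoc (D.t 0) (D.shn 1 (D.shn 1 (D.tw w))), h9]
            simp only [mul_assoc]
          rw [← mul_app, h7, mul_app, mul_app]
          exact hXF (F _ _ (htt _ (F _ _ (mem_beta p))))
        | true :: true :: w =>
          have h6 : w.count false = m + 1 := by
            rwa [List.count_cons_of_ne (by simp), List.count_cons_of_ne (by simp)] at h3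
          have h8 : D.tw (true :: true :: w) =
              D.shn 1 (D.shn 1 (D.tw w)) * (D.shn 1 (D.chain (m + 1)) * D.chain (m + 1)) := by
            have h8 : D.tw (true :: true :: w) = D.shn 1 (D.shn 1 (D.tw w) *
                D.chain (w.count false)) * D.chain ((true :: w).count false) := rfl
            rw [h8, List.count_cons_of_ne (by simp), h6, map_mul, mul_assoc]
          have h7 : D.t 0 * D.tw (true :: true :: w) = D.tw (true :: true :: w) * D.t (m + 1) +
              D.shn 1 (D.shn 1 (D.tw w)) * (D.t 0 * (D.shn 1 (D.chain (m + 1)) *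
                D.chain (m + 1)) - D.shn 1 (D.chain (m + 1)) * D.chain (m + 1) *
                D.t (m + 1)) := by
            have h9 : D.t 0 * D.shn 1 (D.shn 1 (D.tw w)) = D.shn 1 (D.shn 1 (D.tw w)) * D.t 0 := by
              rw [D.shn_shn]
              have h := D.tr_mul_shn (le_refl 2) (D.t 0) (D.tw w)
              rwa [D.tr_t, if_pos (by omega)] at h
            rw [h8, ← mul_assoc, h9, mul_sub, mul_assoc, mul_assoc (D.shn 1 (D.shn 1 (D.tw w))),
              add_sub_cancel]
          rw [← mul_app, h7, map_add, LinearMap.add_apply, mul_app, mul_app]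
          refine add_mem (hY _ (Or.inr ⟨D.t 0, by rw [D.shn_t, add_zero]⟩) _ p h3 h4) ?_
          exact hXF (F _ _ (hW _ (hW3 (m + 1)) p))
    · intro y hy
      have h := T (D.t k) y hy
      rw [D.shn_t, add_comm 1 k] at h
      exact h

end step

/-- `∑_w tw w • β(p)` is stable under the KLR algebra -/
theorem prf_stable (D : Datum K I) (h1 : S_W1 D) (h2 : S_W2 D) (h3 : S_W3 D) : S_stable D := by
  have h : ∀ m n, St D m n := by
    intro m
    induction m with
    | zero =>
      intro n U P _ _ _ _ r1 r2 r Z β _ _ hZ _ hr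
      exact stable_zero_left D n U P r2 r Z β hZ hr
    | succ m ihm =>
      intro n
      induction n with
      | zero =>
        intro U P _ _ _ _ r1 r2 r Z β _ hs2 hZ hl hr
        exact stable_zero_right D (m + 1) U P r1 r2 r Z β hs2 hZ hl hr
      | succ n ihn => exact stable_step h1 h2 h3 (ihm (n + 1)) ihn
  exact h

end Pbw

end Pool.Agent.KLR
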