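import Pool.Agent.Work.MP_e487d8_al.Pbw.W
import Pool.Agent.Work.MP_e487d8_al.Pbw.Stable
import Pool.Agent.Work.MP_e487d8_al.Pbw.Def
import Pool.Agent.Work.MP_e487d8_al.Pbw.RT
import Pool.Agent.Work.MP_e487d8_al.Pbw.RQ
import Pool.Agent.Work.MP_e487d8_al.Pbw.RB
import Pool.Agent.Work.MP_e487d8_al.Pbw.Bal
import Pool.Agent.Work.MP_e487d8_al.Pbw.Ind
import Pool.Agent.Work.MP_e487d8_al.Pbw.Main

/-! MP_e487d8_al: the shuffle basis theorem. -/

set_option autoImplicit false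

namespace Pool.Agent.KLR

variable {K I : Type} [Field K] [Fintype I] [DecidableEq I]

/-- the shuffle basis theorem: `M ∘ N` has the basis `tw w • mk (u ⊗ v)` over the shuffles `w` -/
theorem basis (D : Datum K I) : S_basis D :=
  Pbw.basis_of D (Pbw.prf_stable D (Pbw.prf_W1 D) (Pbw.prf_W2 D) (Pbw.prf_W3 D))
    (Pbw.rels_of (Pbw.prf_rE D) (Pbw.prf_rT D) (Pbw.prf_rQ D) (Pbw.prf_rB D))
    (Pbw.prf_bal D (Pbw.prf_rV D)) (Pbw.prf_ind D (Pbw.prf_rV D))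
    (Pbw.prf_def D (Pbw.prf_shift D))

end Pool.Agent.KLR
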