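import Pool.Agent.Work.MP_e487d8_al.Pbw.Stmts

/-! MP_e487d8_al, PBW block: commutation of `chain m` modulo the error terms `W m`. -/

set_option autoImplicit false

namespace Pool.Agent.KLR

variable {K I : Type} [Field K] [Fintype I] [DecidableEq I] (D : Datum K I)

namespace Pbw

namespace WX

theorem mem_gen {m : ℕ} (hm : 0 < m) (a b : KLRAlg D) : D.shn 1 a * D.tr m b ∈ W D m :=
  Submodule.subset_span ⟨hm, a, b, rfl⟩

theorem mono (m : ℕ) : W D m ≤ W D (m + 1) := by
  unfold W
  refine Submodule.span_le.2 ?_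
  rintro z ⟨hm, a, b, rfl⟩
  have h := mem_gen D (m := m + 1) (Nat.succ_pos m) a (D.tr m b)
  rw [D.tr_tr (Nat.le_succ m)] at h
  exact h

theorem shn_mul {m : ℕ} (c : KLRAlg D) {z : KLRAlg D} (hz : z ∈ W D m) :
    D.shn 1 c * z ∈ W D m := by
  unfold W at hz
  induction hz using Submodule.span_induction with
  | mem z hz =>
    obtain ⟨hm, a, b, rfl⟩ := hz
    rw [← mul_assoc, ← map_mul]
    exact mem_gen D hm _ _
  | zero => rw [mul_zero]; exact Submodule.zero_mem _
  | add x y _ _ hx hy => rw [mul_add]; exact Submodule.add_mem _ hx hy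
  | smul r x _ hx => rw [mul_smul_comm]; exact Submodule.smul_mem _ r hx

/-- the elements which multiply `W m` from the right into itself -/
noncomputable def stab (m : ℕ) : Subalgebra K (KLRAlg D) where
  carrier := {z | ∀ w ∈ W D m, w * z ∈ W D m}
  mul_mem' := by
    intro a b ha hb w hw
    rw [← mul_assoc]
    exact hb _ (ha w hw)
  add_mem' := by
    intro a b ha hb w hw
    rw [mul_add]
    exact Submodule.add_mem _ (ha w hw) (hb w hw)
  algebraMap_mem' := by
    intro r w hw
    rw [← Algebra.commutes, ← Algebra.smul_def]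
    exact Submodule.smul_mem _ r hw

theorem stab_tr (m : ℕ) (c : KLRAlg D) : D.tr m c ∈ stab D m := by
  intro w hw
  unfold W at hw
  induction hw using Submodule.span_induction with
  | mem z hz =>
    obtain ⟨hm, a, b, rfl⟩ := hz
    rw [mul_assoc, ← map_mul]
    exact mem_gen D hm _ _
  | zero => rw [zero_mul]; exact Submodule.zero_mem _
  | add x y _ _ hx hy => rw [add_mul]; exact Submodule.add_mem _ hx hy
  | smul r x _ hx => rw [smul_mul_assoc]; exact Submodule.smul_mem _ r hx

theorem stab_shn (m : ℕ) (c : KLRAlg D) : D.shn m c ∈ stab D m := by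
  intro w hw
  unfold W at hw
  induction hw using Submodule.span_induction with
  | mem z hz =>
    obtain ⟨hm, a, b, rfl⟩ := hz
    rw [mul_assoc, D.tr_mul_shn le_rfl, ← mul_assoc]
    obtain ⟨n, rfl⟩ : ∃ n, m = 1 + n := ⟨m - 1, by omega⟩
    rw [← D.shn_shn 1 n c, ← map_mul]
    exact mem_gen D hm _ _
  | zero => rw [zero_mul]; exact Submodule.zero_mem _
  | add x y _ _ hx hy => rw [add_mul]; exact Submodule.add_mem _ hx hy
  | smul r x _ hx => rw [smul_mul_assoc]; exact Submodule.smul_mem _ r hx

theorem stab_x (m k : ℕ) : D.x k ∈ stab D m := by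
  by_cases h : k < m
  · have := stab_tr D m (D.x k)
    rwa [D.tr_x, if_pos h] at this
  · have := stab_shn D m (D.x (k - m))
    rwa [D.shn_x, show m + (k - m) = k by omega] at this

theorem stab_e (m k : ℕ) (i : I) : D.e k i ∈ stab D m := by
  by_cases h : k < m
  · have := stab_tr D m (D.e k i)
    rwa [D.tr_e, if_pos h] at this
  · have := stab_shn D m (D.e (k - m) i)
    rwa [D.shn_e, show m + (k - m) = k by omega] at this

/-- the error of the braid relation -/
noncomputable def Qb (k : ℕ) : KLRAlg D :=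
  ∑ i, ∑ j, if i = j then 0 else
      D.c i j • ((∑ p ∈ Finset.range (D.q i j),
        (D.x k - D.x (k + 1)) ^ p * (D.x (k + 2) - D.x (k + 1)) ^ (D.q i j - 1 - p)) *
          (D.e k i * D.e (k + 1) j * D.e (k + 2) i))

theorem braid (k : ℕ) :
    D.t (k + 1) * D.t k * D.t (k + 1) - D.t k * D.t (k + 1) * D.t k = Qb D k := D.t_braid k

theorem stab_Qb (m k : ℕ) : Qb D k ∈ stab D m := by
  unfold Qb
  refine Subalgebra.sum_mem _ fun i _ => Subalgebra.sum_mem _ fun j _ => ?_
  split_ifs
  · exact Subalgebra.zero_mem _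
  · refine Subalgebra.smul_mem _ (Subalgebra.mul_mem _ ?_ ?_) _
    · refine Subalgebra.sum_mem _ fun p _ => Subalgebra.mul_mem _ ?_ ?_
      · exact Subalgebra.pow_mem _ (Subalgebra.sub_mem _ (stab_x D m _) (stab_x D m _)) _
      · exact Subalgebra.pow_mem _ (Subalgebra.sub_mem _ (stab_x D m _) (stab_x D m _)) _
    · exact Subalgebra.mul_mem _ (Subalgebra.mul_mem _ (stab_e D m _ _) (stab_e D m _ _))
        (stab_e D m _ _)

theorem mul_t {m : ℕ} {w : KLRAlg D} (hw : w ∈ W D m) : w * D.t m ∈ W D (m + 1) := by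
  have h := stab_shn D m (D.t 0) w hw
  rw [D.shn_t, Nat.add_zero] at h
  exact mono D m h

theorem chain_succ (m : ℕ) : D.chain (m + 1) = D.chain m * D.t m := rfl

theorem tr_chain (m n : ℕ) (h : m < n) : D.tr n (D.chain m) = D.chain m := by
  induction m with
  | zero => exact map_one _
  | succ m ih => rw [chain_succ, map_mul, ih (by omega), D.tr_t, if_pos h]

/-- `chain m` commutes with the strands from `m + 1` on -/
theorem chain_shn (m : ℕ) (c : KLRAlg D) :
    D.chain m * D.shn (m + 1) c = D.shn (m + 1) c * D.chain m := by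
  have h := D.tr_mul_shn (le_refl (m + 1)) (D.chain m) c
  rwa [tr_chain D m (m + 1) (Nat.lt_succ_self m)] at h

theorem chain_t (m : ℕ) : D.chain m * D.t (m + 1) = D.t (m + 1) * D.chain m := by
  have h := chain_shn D m (D.t 0)
  rwa [D.shn_t, Nat.add_zero] at h

theorem chain_x (m : ℕ) : D.chain m * D.x (m + 1) = D.x (m + 1) * D.chain m := by
  have h := chain_shn D m (D.x 0)
  rwa [D.shn_x, Nat.add_zero] at h

theorem chain_e (m : ℕ) (i : I) : D.chain m * D.e (m + 1) i = D.e (m + 1) i * D.chain m := by
  have h := chain_shn D m (D.e 0 i)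
  rwa [D.shn_e, Nat.add_zero] at h

theorem chain_mem (m n : ℕ) (h : m < n) : D.chain m ∈ W D n := by
  have := mem_gen D (m := n) (by omega) 1 (D.chain m)
  rwa [tr_chain D m n h, map_one, one_mul] at this

theorem chain_dl (m : ℕ) : D.chain m * D.dl m ∈ W D (m + 1) := by
  refine (?_ : D.dl m ∈ stab D (m + 1)) _ (chain_mem D m (m + 1) (Nat.lt_succ_self m))
  unfold Datum.dl
  exact Subalgebra.sum_mem _ fun i _ => Subalgebra.mul_mem _ (stab_e D _ _ _) (stab_e D _ _ _)

/-- `e` -/
theorem err_e (m k : ℕ) (i : I) (h : k < m) : D.e (k + 1) i * D.chain m = D.chain m * D.e k i := by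
  induction m with
  | zero => omega
  | succ m ih =>
    rw [chain_succ]
    rcases Nat.lt_succ_iff_lt_or_eq.1 h with h | h
    · rw [← mul_assoc, ih h, mul_assoc, mul_assoc, D.t_e m k i (by omega) (by omega)]
    · subst h
      rw [← mul_assoc, ← chain_e, mul_assoc, mul_assoc, D.t_e0]

/-- `x` -/
theorem err_x (m k : ℕ) (h : k < m) :
    D.x (k + 1) * D.chain m - D.chain m * D.x k ∈ W D m := by
  induction m with
  | zero => omega
  | succ m ih =>
    rw [chain_succ]
    rcases Nat.lt_succ_iff_lt_or_eq.1 h with h | h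
    · have h1 := mul_t D (ih h)
      have h2 : (D.x (k + 1) * D.chain m - D.chain m * D.x k) * D.t m =
          D.x (k + 1) * (D.chain m * D.t m) - D.chain m * D.t m * D.x k := by
        rw [sub_mul, mul_assoc, mul_assoc, mul_assoc, D.t_x m k (by omega) (by omega)]
      rwa [h2] at h1
    · subst h
      have h1 := chain_dl D k
      have h2 : D.chain k * D.dl k =
          D.x (k + 1) * (D.chain k * D.t k) - D.chain k * D.t k * D.x k := by
        rw [← mul_assoc, ← chain_x, mul_assoc, mul_assoc, D.t_x0, ← mul_sub]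
        congr 1
        abel
      rwa [h2] at h1

/-- `t` -/
theorem err_t (m k : ℕ) (h : k + 1 < m) :
    D.t (k + 1) * D.chain m - D.chain m * D.t k ∈ W D m := by
  induction m with
  | zero => omega
  | succ m ih =>
    rcases Nat.lt_succ_iff_lt_or_eq.1 h with h | h
    · rw [chain_succ]
      have h1 := mul_t D (ih h)
      have h2 : (D.t (k + 1) * D.chain m - D.chain m * D.t k) * D.t m =
          D.t (k + 1) * (D.chain m * D.t m) - D.chain m * D.t m * D.t k := by
        rw [sub_mul, mul_assoc, mul_assoc, mul_assoc, D.t_far k m h]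
      rwa [h2] at h1
    · subst h
      have h1 : D.chain k * Qb D k ∈ W D (k + 1 + 1) :=
        stab_Qb D (k + 1 + 1) k _ (chain_mem D k (k + 1 + 1) (by omega))
      have h2 : D.chain k * Qb D k =
          D.t (k + 1) * D.chain (k + 1 + 1) - D.chain (k + 1 + 1) * D.t k := by
        rw [chain_succ, chain_succ, ← braid, mul_sub]
        congr 1
        · rw [← mul_assoc, ← mul_assoc, ← mul_assoc, ← mul_assoc, chain_t]
        · simp only [mul_assoc]
      rwa [h2] at h1

end WX

open WX

theorem prf_W1 : S_W1 D := by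
  intro m a
  induction a using KLRAlg.induction with
  | hs r =>
    rw [AlgHom.commutes, AlgHom.commutes, Algebra.commutes, sub_self]
    exact Submodule.zero_mem _
  | hadd a b ha hb =>
    have h : D.shn 1 (D.tr m (a + b)) * D.chain m - D.chain m * D.tr m (a + b) =
        (D.shn 1 (D.tr m a) * D.chain m - D.chain m * D.tr m a) +
          (D.shn 1 (D.tr m b) * D.chain m - D.chain m * D.tr m b) := by
      simp only [map_add, add_mul, mul_add]
      abel
    rw [h]
    exact Submodule.add_mem _ ha hb
  | hmul a b ha hb =>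
    have h : D.shn 1 (D.tr m (a * b)) * D.chain m - D.chain m * D.tr m (a * b) =
        D.shn 1 (D.tr m a) * (D.shn 1 (D.tr m b) * D.chain m - D.chain m * D.tr m b) +
          (D.shn 1 (D.tr m a) * D.chain m - D.chain m * D.tr m a) * D.tr m b := by
      simp only [map_mul]
      noncomm_ring
    rw [h]
    exact Submodule.add_mem _ (shn_mul D _ hb) (stab_tr D m b _ ha)
  | he k i =>
    rw [D.tr_e]
    split_ifs with h
    · rw [D.shn_e, add_comm 1 k, err_e D m k i h, sub_self]
      exact Submodule.zero_mem _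
    · simp
  | hx k =>
    rw [D.tr_x]
    split_ifs with h
    · rw [D.shn_x, add_comm 1 k]
      exact err_x D m k h
    · simp
  | ht k =>
    rw [D.tr_t]
    split_ifs with h
    · rw [D.shn_t, add_comm 1 k]
      exact err_t D m k h
    · simp

theorem prf_W2 : S_W2 D := by
  intro m
  induction m with
  | zero =>
    have h : D.x 0 * D.chain 0 - D.chain 0 * D.x 0 = 0 := by
      show D.x 0 * 1 - 1 * D.x 0 = 0
      rw [mul_one, one_mul, sub_self]
    rw [h]
    exact Submodule.zero_mem _
  | succ m ih =>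
    have h : D.x 0 * D.chain (m + 1) - D.chain (m + 1) * D.x (m + 1) =
        (D.x 0 * D.chain m - D.chain m * D.x m) * D.t m - D.chain m * D.dl m := by
      rw [chain_succ, mul_assoc (D.chain m), D.t_x1, mul_add, sub_mul]
      simp only [mul_assoc]
      abel
    rw [h]
    exact Submodule.sub_mem _ (mul_t D ih) (chain_dl D m)

theorem prf_W3 : S_W3 D := by
  intro m
  induction m with
  | zero =>
    have h : D.t 0 * (D.shn 1 (D.chain 0) * D.chain 0) - D.shn 1 (D.chain 0) * D.chain 0 * D.t 0
        = 0 := by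
      show D.t 0 * (D.shn 1 1 * 1) - D.shn 1 1 * 1 * D.t 0 = 0
      rw [map_one, one_mul, mul_one, one_mul, sub_self]
    rw [h]
    exact Submodule.zero_mem _
  | succ m ih =>
    set Z := D.shn 1 (D.chain m) * D.chain m with hZ
    have hZs : D.shn 1 (D.chain (m + 1)) * D.chain (m + 1) = Z * D.t (m + 1) * D.t m := by
      rw [chain_succ, map_mul, D.shn_t, add_comm 1 m, hZ]
      calc D.shn 1 (D.chain m) * D.t (m + 1) * (D.chain m * D.t m)
          = D.shn 1 (D.chain m) * (D.t (m + 1) * D.chain m) * D.t m := by simp only [mul_assoc]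
        _ = _ := by rw [← chain_t]; simp only [mul_assoc]
    rw [hZs]
    have h : D.t 0 * (Z * D.t (m + 1) * D.t m) - Z * D.t (m + 1) * D.t m * D.t (m + 1) =
        (D.t 0 * Z - Z * D.t m) * (D.t (m + 1) * D.t m) - Z * Qb D m := by
      rw [← braid]
      noncomm_ring
    rw [h]
    refine Submodule.sub_mem _ ?_ ?_
    · refine mono D m ?_
      have h1 : D.t (m + 1) * D.t m = D.shn m (D.t 1 * D.t 0) := by
        rw [map_mul, D.shn_t, D.shn_t]
        rfl
      rw [h1]
      exact stab_shn D m _ _ ih
    · refine stab_Qb D (m + 1) m _ ?_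
      have := mem_gen D (m := m + 1) (Nat.succ_pos m) (D.chain m) (D.chain m)
      rwa [tr_chain D m (m + 1) (Nat.lt_succ_self m)] at this

end Pbw

end Pool.Agent.KLR
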