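import Mathlib

/-! MP_e487d8_al, PBW block: the formal braid identity for two strands of one kind and one strand
of the other kind. -/

set_option autoImplicit false
set_option linter.unusedSimpArgs false

namespace Pool.Agent.KLR

namespace Pbw

/-- the elements of the ring describing the crossings: `t` is the crossing of the two strands of
the same kind, `A0, k0, l0` (`A1, k1, l1`) describe the crossing of the strand `0` (`1`) with the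
strand of the other kind -/
structure Cross {B : Type*} [Ring B] (t A0 A1 k0 k1 l0 l1 th th' : B) : Prop where
  tA0 : t * A0 = A1 * t + A0 * A1
  tA1 : t * A1 = A0 * t - A0 * A1
  AA : A1 * A0 = A0 * A1
  tk0 : t * k0 = k1 * t - th
  tk1 : t * k1 = k0 * t + th
  tl0 : t * l0 = l1 * t - th'
  tl1 : t * l1 = l0 * t + th'
  kA0 : k0 * A0 = 0
  kA1 : k1 * A1 = 0
  lA0 : l0 * A0 = 0
  lA1 : l1 * A1 = 0
  Ak0 : A0 * k0 = 0
  Ak1 : A1 * k1 = 0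
  Al0 : A0 * l0 = 0
  Al1 : A1 * l1 = 0
  kA01 : k0 * A1 = A1 * k0
  kA10 : k1 * A0 = A0 * k1
  lA01 : l0 * A1 = A1 * l0
  lA10 : l1 * A0 = A0 * l1
  kk : k1 * k0 = k0 * k1
  ll : l1 * l0 = l0 * l1
  lk : l1 * k0 = k0 * l1
  thA0 : th * A0 = 0
  thA1 : th * A1 = 0
  Ath0 : A0 * th = 0
  Ath1 : A1 * th = 0
  thA0' : th' * A0 = 0
  thA1' : th' * A1 = 0
  Ath0' : A0 * th' = 0
  Ath1' : A1 * th' = 0
  thk : th * k1 = k1 * th
  thl : th' * l1 = l1 * th'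

namespace Cross

variable {B : Type*} [Ring B] {t A0 A1 k0 k1 l0 l1 th th' : B}

theorem assoc {a b c : B} (h : a * b = c) (x : B) : a * (b * x) = c * x := by
  rw [← mul_assoc, h]

section
variable (h : Cross t A0 A1 k0 k1 l0 l1 th th')
include h

theorem x0 : A0 * (A1 * k0) = 0 := by rw [← h.kA01, ← mul_assoc, h.Ak0, zero_mul]
theorem x0' (y : B) : A0 * (A1 * (k0 * y)) = 0 := by
  rw [← mul_assoc A1, ← mul_assoc A0, h.x0, zero_mul]

/-- diagonal entry 1 -/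
theorem e11 : -((A1 + k1) * A0 * (l1 - A1)) + A1 * t * A1 + t * A1 * t =
    A0 * (t * t - k1 * l1) := by
  simp only [mul_add, add_mul, mul_sub, sub_mul, mul_neg, neg_mul, mul_assoc, h.tA0,
    assoc h.tA0, h.tA1,
    assoc h.tA1, h.AA, assoc h.AA, h.tk0, assoc h.tk0, h.tk1, assoc h.tk1, h.tl0, assoc h.tl0,
    h.tl1, assoc h.tl1, h.kA0, assoc h.kA0, h.kA1, assoc h.kA1, h.lA0, assoc h.lA0, h.lA1,
    assoc h.lA1, h.Ak0, assoc h.Ak0, h.Ak1, assoc h.Ak1, h.Al0, assoc h.Al0, h.Al1,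
    assoc h.Al1, h.kA01, assoc h.kA01, h.kA10, assoc h.kA10, h.lA01, assoc h.lA01, h.lA10,
    assoc h.lA10, h.kk, assoc h.kk, h.ll, assoc h.ll, h.lk, assoc h.lk, h.thA0, assoc h.thA0,
    h.thA1, assoc h.thA1, h.Ath0, assoc h.Ath0, h.Ath1, assoc h.Ath1, h.thA0', assoc h.thA0',
    h.thA1', assoc h.thA1', h.Ath0', assoc h.Ath0', h.Ath1', assoc h.Ath1', h.thk, assoc h.thk,
    h.thl, assoc h.thl, h.x0, h.x0', mul_zero, zero_mul]
  abel

/-- off diagonal entry -/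
theorem e12 : -((A1 + k1) * A0 * A1) - A1 * t * (A1 + k1) + t * (A1 + k1) * A0 = 0 := by
  simp only [mul_add, add_mul, mul_sub, sub_mul, mul_neg, neg_mul, mul_assoc, h.tA0,
    assoc h.tA0, h.tA1,
    assoc h.tA1, h.AA, assoc h.AA, h.tk0, assoc h.tk0, h.tk1, assoc h.tk1, h.tl0, assoc h.tl0,
    h.tl1, assoc h.tl1, h.kA0, assoc h.kA0, h.kA1, assoc h.kA1, h.lA0, assoc h.lA0, h.lA1,
    assoc h.lA1, h.Ak0, assoc h.Ak0, h.Ak1, assoc h.Ak1, h.Al0, assoc h.Al0, h.Al1,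
    assoc h.Al1, h.kA01, assoc h.kA01, h.kA10, assoc h.kA10, h.lA01, assoc h.lA01, h.lA10,
    assoc h.lA10, h.kk, assoc h.kk, h.ll, assoc h.ll, h.lk, assoc h.lk, h.thA0, assoc h.thA0,
    h.thA1, assoc h.thA1, h.Ath0, assoc h.Ath0, h.Ath1, assoc h.Ath1, h.thA0', assoc h.thA0',
    h.thA1', assoc h.thA1', h.Ath0', assoc h.Ath0', h.Ath1', assoc h.Ath1', h.thk, assoc h.thk,
    h.thl, assoc h.thl, h.x0, h.x0', mul_zero, zero_mul]
  abel

/-- off diagonal entry -/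
theorem e13 : (A1 + k1) * (A0 + k0) * t - t * ((A1 + k1) * (A0 + k0)) = 0 := by
  simp only [mul_add, add_mul, mul_sub, sub_mul, mul_neg, neg_mul, mul_assoc, h.tA0,
    assoc h.tA0, h.tA1,
    assoc h.tA1, h.AA, assoc h.AA, h.tk0, assoc h.tk0, h.tk1, assoc h.tk1, h.tl0, assoc h.tl0,
    h.tl1, assoc h.tl1, h.kA0, assoc h.kA0, h.kA1, assoc h.kA1, h.lA0, assoc h.lA0, h.lA1,
    assoc h.lA1, h.Ak0, assoc h.Ak0, h.Ak1, assoc h.Ak1, h.Al0, assoc h.Al0, h.Al1,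
    assoc h.Al1, h.kA01, assoc h.kA01, h.kA10, assoc h.kA10, h.lA01, assoc h.lA01, h.lA10,
    assoc h.lA10, h.kk, assoc h.kk, h.ll, assoc h.ll, h.lk, assoc h.lk, h.thA0, assoc h.thA0,
    h.thA1, assoc h.thA1, h.Ath0, assoc h.Ath0, h.Ath1, assoc h.Ath1, h.thA0', assoc h.thA0',
    h.thA1', assoc h.thA1', h.Ath0', assoc h.Ath0', h.Ath1', assoc h.Ath1', h.thk, assoc h.thk,
    h.thl, assoc h.thl, h.x0, h.x0', mul_zero, zero_mul]
  abel

/-- off diagonal entry -/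
theorem e21 : -(A1 * A0 * (l1 - A1)) - (l1 - A1) * t * A1 + A0 * (l1 - A1) * t = 0 := by
  simp only [mul_add, add_mul, mul_sub, sub_mul, mul_neg, neg_mul, mul_assoc, h.tA0,
    assoc h.tA0, h.tA1,
    assoc h.tA1, h.AA, assoc h.AA, h.tk0, assoc h.tk0, h.tk1, assoc h.tk1, h.tl0, assoc h.tl0,
    h.tl1, assoc h.tl1, h.kA0, assoc h.kA0, h.kA1, assoc h.kA1, h.lA0, assoc h.lA0, h.lA1,
    assoc h.lA1, h.Ak0, assoc h.Ak0, h.Ak1, assoc h.Ak1, h.Al0, assoc h.Al0, h.Al1,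
    assoc h.Al1, h.kA01, assoc h.kA01, h.kA10, assoc h.kA10, h.lA01, assoc h.lA01, h.lA10,
    assoc h.lA10, h.kk, assoc h.kk, h.ll, assoc h.ll, h.lk, assoc h.lk, h.thA0, assoc h.thA0,
    h.thA1, assoc h.thA1, h.Ath0, assoc h.Ath0, h.Ath1, assoc h.Ath1, h.thA0', assoc h.thA0',
    h.thA1', assoc h.thA1', h.Ath0', assoc h.Ath0', h.Ath1', assoc h.Ath1', h.thk, assoc h.thk,
    h.thl, assoc h.thl, h.x0, h.x0', mul_zero, zero_mul]
  abel

/-- diagonal entry 2 -/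
theorem e22 : -(A1 * A0 * A1) + (l1 - A1) * t * (A1 + k1) - (A0 + k0) * t * (l0 - A0) - A0 * A1 * A0 =
    l1 * th + k0 * th' := by
  simp only [mul_add, add_mul, mul_sub, sub_mul, mul_neg, neg_mul, mul_assoc, h.tA0,
    assoc h.tA0, h.tA1,
    assoc h.tA1, h.AA, assoc h.AA, h.tk0, assoc h.tk0, h.tk1, assoc h.tk1, h.tl0, assoc h.tl0,
    h.tl1, assoc h.tl1, h.kA0, assoc h.kA0, h.kA1, assoc h.kA1, h.lA0, assoc h.lA0, h.lA1,
    assoc h.lA1, h.Ak0, assoc h.Ak0, h.Ak1, assoc h.Ak1, h.Al0, assoc h.Al0, h.Al1,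
    assoc h.Al1, h.kA01, assoc h.kA01, h.kA10, assoc h.kA10, h.lA01, assoc h.lA01, h.lA10,
    assoc h.lA10, h.kk, assoc h.kk, h.ll, assoc h.ll, h.lk, assoc h.lk, h.thA0, assoc h.thA0,
    h.thA1, assoc h.thA1, h.Ath0, assoc h.Ath0, h.Ath1, assoc h.Ath1, h.thA0', assoc h.thA0',
    h.thA1', assoc h.thA1', h.Ath0', assoc h.Ath0', h.Ath1', assoc h.Ath1', h.thk, assoc h.thk,
    h.thl, assoc h.thl, h.x0, h.x0', mul_zero, zero_mul]
  abel

/-- off diagonal entry -/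
theorem e23 : A1 * (A0 + k0) * t - (A0 + k0) * t * A0 + A0 * A1 * (A0 + k0) = 0 := by
  simp only [mul_add, add_mul, mul_sub, sub_mul, mul_neg, neg_mul, mul_assoc, h.tA0,
    assoc h.tA0, h.tA1,
    assoc h.tA1, h.AA, assoc h.AA, h.tk0, assoc h.tk0, h.tk1, assoc h.tk1, h.tl0, assoc h.tl0,
    h.tl1, assoc h.tl1, h.kA0, assoc h.kA0, h.kA1, assoc h.kA1, h.lA0, assoc h.lA0, h.lA1,
    assoc h.lA1, h.Ak0, assoc h.Ak0, h.Ak1, assoc h.Ak1, h.Al0, assoc h.Al0, h.Al1,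
    assoc h.Al1, h.kA01, assoc h.kA01, h.kA10, assoc h.kA10, h.lA01, assoc h.lA01, h.lA10,
    assoc h.lA10, h.kk, assoc h.kk, h.ll, assoc h.ll, h.lk, assoc h.lk, h.thA0, assoc h.thA0,
    h.thA1, assoc h.thA1, h.Ath0, assoc h.Ath0, h.Ath1, assoc h.Ath1, h.thA0', assoc h.thA0',
    h.thA1', assoc h.thA1', h.Ath0', assoc h.Ath0', h.Ath1', assoc h.Ath1', h.thk, assoc h.thk,
    h.thl, assoc h.thl, h.x0, h.x0', mul_zero, zero_mul]
  abel

/-- off diagonal entry -/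
theorem e31 : t * (l0 - A0) * (l1 - A1) - (l0 - A0) * (l1 - A1) * t = 0 := by
  simp only [mul_add, add_mul, mul_sub, sub_mul, mul_neg, neg_mul, mul_assoc, h.tA0,
    assoc h.tA0, h.tA1,
    assoc h.tA1, h.AA, assoc h.AA, h.tk0, assoc h.tk0, h.tk1, assoc h.tk1, h.tl0, assoc h.tl0,
    h.tl1, assoc h.tl1, h.kA0, assoc h.kA0, h.kA1, assoc h.kA1, h.lA0, assoc h.lA0, h.lA1,
    assoc h.lA1, h.Ak0, assoc h.Ak0, h.Ak1, assoc h.Ak1, h.Al0, assoc h.Al0, h.Al1,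
    assoc h.Al1, h.kA01, assoc h.kA01, h.kA10, assoc h.kA10, h.lA01, assoc h.lA01, h.lA10,
    assoc h.lA10, h.kk, assoc h.kk, h.ll, assoc h.ll, h.lk, assoc h.lk, h.thA0, assoc h.thA0,
    h.thA1, assoc h.thA1, h.Ath0, assoc h.Ath0, h.Ath1, assoc h.Ath1, h.thA0', assoc h.thA0',
    h.thA1', assoc h.thA1', h.Ath0', assoc h.Ath0', h.Ath1', assoc h.Ath1', h.thk, assoc h.thk,
    h.thl, assoc h.thl, h.x0, h.x0', mul_zero, zero_mul]
  abel

/-- off diagonal entry -/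
theorem e32 : t * (l0 - A0) * A1 - A0 * t * (l0 - A0) + (l0 - A0) * A1 * A0 = 0 := by
  simp only [mul_add, add_mul, mul_sub, sub_mul, mul_neg, neg_mul, mul_assoc, h.tA0,
    assoc h.tA0, h.tA1,
    assoc h.tA1, h.AA, assoc h.AA, h.tk0, assoc h.tk0, h.tk1, assoc h.tk1, h.tl0, assoc h.tl0,
    h.tl1, assoc h.tl1, h.kA0, assoc h.kA0, h.kA1, assoc h.kA1, h.lA0, assoc h.lA0, h.lA1,
    assoc h.lA1, h.Ak0, assoc h.Ak0, h.Ak1, assoc h.Ak1, h.Al0, assoc h.Al0, h.Al1,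
    assoc h.Al1, h.kA01, assoc h.kA01, h.kA10, assoc h.kA10, h.lA01, assoc h.lA01, h.lA10,
    assoc h.lA10, h.kk, assoc h.kk, h.ll, assoc h.ll, h.lk, assoc h.lk, h.thA0, assoc h.thA0,
    h.thA1, assoc h.thA1, h.Ath0, assoc h.Ath0, h.Ath1, assoc h.Ath1, h.thA0', assoc h.thA0',
    h.thA1', assoc h.thA1', h.Ath0', assoc h.Ath0', h.Ath1', assoc h.Ath1', h.thk, assoc h.thk,
    h.thl, assoc h.thl, h.x0, h.x0', mul_zero, zero_mul]
  abel

/-- diagonal entry 3 -/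
theorem e33 : t * A0 * t - A0 * t * A0 - (l0 - A0) * A1 * (A0 + k0) = A1 * (t * t - l0 * k0) := by
  simp only [mul_add, add_mul, mul_sub, sub_mul, mul_neg, neg_mul, mul_assoc, h.tA0,
    assoc h.tA0, h.tA1,
    assoc h.tA1, h.AA, assoc h.AA, h.tk0, assoc h.tk0, h.tk1, assoc h.tk1, h.tl0, assoc h.tl0,
    h.tl1, assoc h.tl1, h.kA0, assoc h.kA0, h.kA1, assoc h.kA1, h.lA0, assoc h.lA0, h.lA1,
    assoc h.lA1, h.Ak0, assoc h.Ak0, h.Ak1, assoc h.Ak1, h.Al0, assoc h.Al0, h.Al1,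
    assoc h.Al1, h.kA01, assoc h.kA01, h.kA10, assoc h.kA10, h.lA01, assoc h.lA01, h.lA10,
    assoc h.lA10, h.kk, assoc h.kk, h.ll, assoc h.ll, h.lk, assoc h.lk, h.thA0, assoc h.thA0,
    h.thA1, assoc h.thA1, h.Ath0, assoc h.Ath0, h.Ath1, assoc h.Ath1, h.thA0', assoc h.thA0',
    h.thA1', assoc h.thA1', h.Ath0', assoc h.Ath0', h.Ath1', assoc h.Ath1', h.thk, assoc h.thk,
    h.thl, assoc h.thl, h.x0, h.x0', mul_zero, zero_mul]
  abel

end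

end Cross

end Pbw

end Pool.Agent.KLR
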