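import Pool.Agent.Work.MP_e487d8_al.Pbw.Stmts

/-! MP_e487d8_al, PBW block: basic API for the operators on functions on words, and the relations
between the `e` and the `x` (`prf_rE`). -/

set_option autoImplicit false

namespace Pool.Agent.KLR

variable {K I : Type} [Field K] [Fintype I] [DecidableEq I]

namespace Pbw

variable {D : Datum K I} {P : Type} [AddCommGroup P] [Module K P]

namespace Loc

/-! ### derived facts on `Loc` -/

section

variable (d : Loc D P)

@[simp] theorem shF_r1 (a : KLRAlg D) : d.shF.r1 a = d.r1 (D.shn 1 a) := rfl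
@[simp] theorem shF_r2 (a : KLRAlg D) : d.shF.r2 a = d.r2 a := rfl
@[simp] theorem shT_r1 (a : KLRAlg D) : d.shT.r1 a = d.r1 a := rfl
@[simp] theorem shT_r2 (a : KLRAlg D) : d.shT.r2 a = d.r2 (D.shn 1 a) := rfl
theorem shF_shT : d.shF.shT = d.shT.shF := rfl
theorem shT_shF : d.shT.shF = d.shF.shT := rfl

theorem EE_v (i j : ℕ) : d.r1 (D.E i) * d.r2 (D.E j) * d.v i j = d.v i j := by
  rw [← d.v_mul, mul_assoc, d.mul_v, d.v_E]

/-- an endomorphism which commutes with `x i - y j` and with `E i E j` commutes with `v i j` -/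
theorem comm_v (i j : ℕ) {g : Module.End K P}
    (h : g * (d.r1 (D.x i) - d.r2 (D.x j)) = (d.r1 (D.x i) - d.r2 (D.x j)) * g)
    (h' : g * (d.r1 (D.E i) * d.r2 (D.E j)) = (d.r1 (D.E i) * d.r2 (D.E j)) * g) :
    g * d.v i j = d.v i j * g := by
  calc g * d.v i j = g * (d.r1 (D.E i) * d.r2 (D.E j) * d.v i j) := by rw [d.EE_v]
    _ = d.v i j * ((d.r1 (D.x i) - d.r2 (D.x j)) * g) * d.v i j := by
      rw [← mul_assoc g, h', ← d.v_mul, mul_assoc (d.v i j)]
    _ = d.v i j * g * ((d.r1 (D.x i) - d.r2 (D.x j)) * d.v i j) := by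
      rw [← h]; simp only [mul_assoc]
    _ = d.v i j * (g * (d.r1 (D.E i) * d.r2 (D.E j))) := by rw [d.mul_v, mul_assoc]
    _ = d.v i j * g := by rw [h', ← mul_assoc, d.v_E]

/-- an endomorphism commuting with both actions commutes with `v i j` -/
theorem comm_v' (i j : ℕ) {g : Module.End K P} (h1 : ∀ a, g * d.r1 a = d.r1 a * g)
    (h2 : ∀ a, g * d.r2 a = d.r2 a * g) : g * d.v i j = d.v i j * g := by
  apply d.comm_v
  · rw [mul_sub, sub_mul, h1, h2]
  · rw [← mul_assoc, h1, mul_assoc, h2, mul_assoc]

theorem comm_dd (i j : ℕ) {g : Module.End K P}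
    (h1 : ∀ c, g * d.r1 (D.e i c) = d.r1 (D.e i c) * g)
    (h2 : ∀ c, g * d.r2 (D.e j c) = d.r2 (D.e j c) * g) : g * d.dd i j = d.dd i j * g := by
  unfold dd
  rw [Finset.mul_sum, Finset.sum_mul]
  refine Finset.sum_congr rfl fun c _ => ?_
  rw [← mul_assoc, h1, mul_assoc, h2, mul_assoc]

theorem comm_nn (i j : ℕ) {g : Module.End K P}
    (h1 : ∀ c, g * d.r1 (D.e i c) = d.r1 (D.e i c) * g)
    (h2 : ∀ c, g * d.r2 (D.e j c) = d.r2 (D.e j c) * g) : g * d.nn i j = d.nn i j * g := by
  unfold nn
  rw [Finset.mul_sum, Finset.sum_mul]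
  refine Finset.sum_congr rfl fun c _ => ?_
  rw [Finset.mul_sum, Finset.sum_mul]
  refine Finset.sum_congr rfl fun c' _ => ?_
  split_ifs
  · rw [mul_zero, zero_mul]
  · rw [← mul_assoc, h1, mul_assoc, h2, mul_assoc]

theorem comm_qq (i j : ℕ) {g : Module.End K P}
    (h1 : ∀ c, g * d.r1 (D.e i c) = d.r1 (D.e i c) * g)
    (h2 : ∀ c, g * d.r2 (D.e j c) = d.r2 (D.e j c) * g)
    (h : g * (d.r1 (D.x i) - d.r2 (D.x j)) = (d.r1 (D.x i) - d.r2 (D.x j)) * g) :
    g * d.qq i j = d.qq i j * g := by
  unfold qq
  rw [Finset.mul_sum, Finset.sum_mul]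
  refine Finset.sum_congr rfl fun c _ => ?_
  rw [Finset.mul_sum, Finset.sum_mul]
  refine Finset.sum_congr rfl fun c' _ => ?_
  split_ifs
  · rw [mul_zero, zero_mul]
  · have hp : g * (d.r1 (D.x i) - d.r2 (D.x j)) ^ D.q c c' =
        (d.r1 (D.x i) - d.r2 (D.x j)) ^ D.q c c' * g :=
      ((show Commute g (d.r1 (D.x i) - d.r2 (D.x j)) from h).pow_right _)
    rw [mul_smul_comm, smul_mul_assoc, ← mul_assoc, hp, mul_assoc, ← mul_assoc g, h1,
      mul_assoc (d.r1 _) g, h2]
    simp only [mul_assoc]

theorem comm_A (i j : ℕ) {g : Module.End K P}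
    (h1 : ∀ c, g * d.r1 (D.e i c) = d.r1 (D.e i c) * g)
    (h2 : ∀ c, g * d.r2 (D.e j c) = d.r2 (D.e j c) * g)
    (h : g * (d.r1 (D.x i) - d.r2 (D.x j)) = (d.r1 (D.x i) - d.r2 (D.x j)) * g) :
    g * d.A i j = d.A i j * g := by
  unfold A
  have hE1 : g * d.r1 (D.E i) = d.r1 (D.E i) * g := by
    unfold Datum.E
    rw [map_sum, Finset.mul_sum, Finset.sum_mul]
    exact Finset.sum_congr rfl fun c _ => h1 c
  have hE2 : g * d.r2 (D.E j) = d.r2 (D.E j) * g := by
    unfold Datum.E
    rw [map_sum, Finset.mul_sum, Finset.sum_mul]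
    exact Finset.sum_congr rfl fun c _ => h2 c
  rw [← mul_assoc, d.comm_v i j h (by rw [← mul_assoc, hE1, mul_assoc, hE2, mul_assoc]),
    mul_assoc, d.comm_dd i j h1 h2, mul_assoc]

end

/-! ### `glue`, `tl` and `post` -/

@[simp] theorem tl_apply (b : Bool) (f : List Bool → P) (w : List Bool) :
    tl (K := K) b f w = f (b :: w) := rfl
@[simp] theorem post_apply (g : Module.End K P) (f : List Bool → P) (w : List Bool) :
    post g f w = g (f w) := rfl
@[simp] theorem glue_nil (g h : Module.End K (List Bool → P)) (f : List Bool → P) :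
    glue g h f [] = 0 := rfl
@[simp] theorem glue_false (g h : Module.End K (List Bool → P)) (f : List Bool → P)
    (w : List Bool) : glue g h f (false :: w) = g (tl (K := K) false f) w := rfl
@[simp] theorem glue_true (g h : Module.End K (List Bool → P)) (f : List Bool → P)
    (w : List Bool) : glue g h f (true :: w) = h (tl (K := K) true f) w := rfl
@[simp] theorem tl_glue_false (g h : Module.End K (List Bool → P)) (f : List Bool → P) :
    tl (K := K) false (glue g h f) = g (tl (K := K) false f) := rfl
@[simp] theorem tl_glue_true (g h : Module.End K (List Bool → P)) (f : List Bool → P) :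
    tl (K := K) true (glue g h f) = h (tl (K := K) true f) := rfl

theorem tl_post (b : Bool) (g : Module.End K P) (f : List Bool → P) :
    tl (K := K) b (post g f) = post g (tl (K := K) b f) := rfl

theorem ext_tl {f g : List Bool → P} (h0 : f [] = g [])
    (h1 : tl (K := K) false f = tl (K := K) false g)
    (h2 : tl (K := K) true f = tl (K := K) true g) : f = g := by
  funext w
  match w with
  | [] => exact h0
  | false :: w => exact congrFun h1 w
  | true :: w => exact congrFun h2 w

theorem glue_mul (g h g' h' : Module.End K (List Bool → P)) :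
    glue g h * glue g' h' = glue (g * g') (h * h') := by
  ext f w
  match w with
  | [] => rfl
  | false :: w => rfl
  | true :: w => rfl

theorem glue_add (g h g' h' : Module.End K (List Bool → P)) :
    glue g h + glue g' h' = glue (g + g') (h + h') := by
  ext f w
  match w with
  | [] => simp
  | false :: w => rfl
  | true :: w => rfl

theorem glue_sub (g h g' h' : Module.End K (List Bool → P)) :
    glue g h - glue g' h' = glue (g - g') (h - h') := by
  ext f w
  match w with
  | [] => simp
  | false :: w => rfl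
  | true :: w => rfl

theorem glue_smul (r : K) (g h : Module.End K (List Bool → P)) :
    r • glue g h = glue (r • g) (r • h) := by
  ext f w
  match w with
  | [] => simp
  | false :: w => rfl
  | true :: w => rfl

theorem glue_zero : glue (0 : Module.End K (List Bool → P)) 0 = 0 := by
  ext f w
  match w with
  | [] => rfl
  | false :: w => rfl
  | true :: w => rfl

theorem glue_sum {ι : Type*} (s : Finset ι) (g h : ι → Module.End K (List Bool → P)) :
    ∑ i ∈ s, glue (g i) (h i) = glue (∑ i ∈ s, g i) (∑ i ∈ s, h i) := by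
  classical
  induction s using Finset.induction_on with
  | empty => simp [glue_zero]
  | insert a s ha ih => rw [Finset.sum_insert ha, Finset.sum_insert ha, Finset.sum_insert ha, ih,
      glue_add]

theorem glue_pow_mul (n : ℕ) (g h g' h' : Module.End K (List Bool → P)) :
    glue g h ^ n * glue g' h' = glue (g ^ n * g') (h ^ n * h') := by
  induction n with
  | zero => simp
  | succ n ih => rw [pow_succ', mul_assoc, ih, glue_mul, pow_succ', pow_succ', mul_assoc, mul_assoc]

theorem post_mul (g h : Module.End K P) : post g * post h = post (g * h) := rfl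
theorem post_add (g h : Module.End K P) : post g + post h = post (g + h) := rfl
theorem post_zero : post (0 : Module.End K P) = 0 := rfl
theorem post_sum {ι : Type*} (s : Finset ι) (g : ι → Module.End K P) :
    ∑ i ∈ s, post (g i) = post (∑ i ∈ s, g i) := by
  classical
  induction s using Finset.induction_on with
  | empty => simp [post_zero]
  | insert a s ha ih => rw [Finset.sum_insert ha, Finset.sum_insert ha, ih, post_add]

theorem post_glue (a : Module.End K P) (g h : Module.End K (List Bool → P)) :
    post a * glue g h = glue (post a * g) (post a * h) := by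
  ext f w
  match w with
  | [] => exact map_zero a
  | false :: w => rfl
  | true :: w => rfl

theorem glue_post (a : Module.End K P) (g h : Module.End K (List Bool → P)) :
    glue g h * post a = glue (g * post a) (h * post a) := by
  ext f w
  match w with
  | [] => rfl
  | false :: w => rfl
  | true :: w => rfl

/-! ### the operators -/

theorem opE_zero (i : I) (d : Loc D P) :
    opE 0 i d = glue (post (d.r1 (D.e 0 i))) (post (d.r2 (D.e 0 i))) := rfl
theorem opE_succ (k : ℕ) (i : I) (d : Loc D P) :
    opE (k + 1) i d = glue (opE k i d.shF) (opE k i d.shT) := rfl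
theorem opX_zero (d : Loc D P) :
    opX 0 d = glue (post (d.r1 (D.x 0))) (post (d.r2 (D.x 0))) := rfl
theorem opX_succ (k : ℕ) (d : Loc D P) :
    opX (k + 1) d = glue (opX k d.shF) (opX k d.shT) := rfl
theorem opT_zero (d : Loc D P) : opT 0 d = d.T0 := rfl
theorem opT_succ (k : ℕ) (d : Loc D P) :
    opT (k + 1) d = glue (opT k d.shF) (opT k d.shT) := rfl

@[simp] theorem opE_nil (k : ℕ) (i : I) (d : Loc D P) (f : List Bool → P) : opE k i d f [] = 0 := by
  cases k <;> rfl
@[simp] theorem opX_nil (k : ℕ) (d : Loc D P) (f : List Bool → P) : opX k d f [] = 0 := by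
  cases k <;> rfl
@[simp] theorem opT_nil (k : ℕ) (d : Loc D P) (f : List Bool → P) : opT k d f [] = 0 := by
  cases k <;> rfl

/-! values of `T0` -/

@[simp] theorem T0_nil (d : Loc D P) (f : List Bool → P) : d.T0 f [] = 0 := rfl
@[simp] theorem T0_one (d : Loc D P) (f : List Bool → P) (b : Bool) : d.T0 f [b] = 0 := by
  cases b <;> rfl
theorem T0_FF (d : Loc D P) (f : List Bool → P) (w : List Bool) :
    d.T0 f (false :: false :: w) = d.r1 (D.t 0) (f (false :: false :: w)) := rfl
theorem T0_TT (d : Loc D P) (f : List Bool → P) (w : List Bool) :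
    d.T0 f (true :: true :: w) = d.r2 (D.t 0) (f (true :: true :: w)) := rfl
theorem T0_FT (d : Loc D P) (f : List Bool → P) (w : List Bool) :
    d.T0 f (false :: true :: w) =
      (d.A 0 0 + d.qq 0 0) (f (true :: false :: w)) - d.A 0 0 (f (false :: true :: w)) := rfl
theorem T0_TF (d : Loc D P) (f : List Bool → P) (w : List Bool) :
    d.T0 f (true :: false :: w) =
      d.A 0 0 (f (true :: false :: w)) + (d.nn 0 0 - d.A 0 0) (f (false :: true :: w)) := rfl

/-- two operators agree if they agree on the words of length 0, 1, >= 2 -/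
theorem ext_two {F G : Module.End K (List Bool → P)} (h0 : ∀ f, F f [] = G f [])
    (h1 : ∀ f b, F f [b] = G f [b]) (h2 : ∀ f b b' w, F f (b :: b' :: w) = G f (b :: b' :: w)) :
    F = G := by
  ext f w
  match w with
  | [] => exact h0 f
  | [b] => exact h1 f b
  | b :: b' :: w => exact h2 f b b' w

/-! naturality: `post g` commutes with the operators if `g` commutes with both actions -/

theorem post_opE (k : ℕ) (i : I) (d : Loc D P) {g : Module.End K P}
    (h1 : ∀ a, g * d.r1 a = d.r1 a * g) (h2 : ∀ a, g * d.r2 a = d.r2 a * g) :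
    post g * opE k i d = opE k i d * post g := by
  induction k generalizing d with
  | zero => rw [opE_zero, post_glue, glue_post, post_mul, post_mul, post_mul, post_mul, h1, h2]
  | succ k ih =>
    rw [opE_succ, post_glue, glue_post, ih d.shF (fun a => h1 _) h2, ih d.shT h1 (fun a => h2 _)]

theorem post_opX (k : ℕ) (d : Loc D P) {g : Module.End K P}
    (h1 : ∀ a, g * d.r1 a = d.r1 a * g) (h2 : ∀ a, g * d.r2 a = d.r2 a * g) :
    post g * opX k d = opX k d * post g := by
  induction k generalizing d with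
  | zero => rw [opX_zero, post_glue, glue_post, post_mul, post_mul, post_mul, post_mul, h1, h2]
  | succ k ih =>
    rw [opX_succ, post_glue, glue_post, ih d.shF (fun a => h1 _) h2, ih d.shT h1 (fun a => h2 _)]

theorem post_T0 (d : Loc D P) {g : Module.End K P}
    (h1 : ∀ a, g * d.r1 a = d.r1 a * g) (h2 : ∀ a, g * d.r2 a = d.r2 a * g) :
    post g * d.T0 = d.T0 * post g := by
  have hx : g * (d.r1 (D.x 0) - d.r2 (D.x 0)) = (d.r1 (D.x 0) - d.r2 (D.x 0)) * g := by
    rw [mul_sub, sub_mul, h1, h2]
  have hA := d.comm_A 0 0 (fun c => h1 _) (fun c => h2 _) hx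
  have hq := d.comm_qq 0 0 (fun c => h1 _) (fun c => h2 _) hx
  have hn := d.comm_nn 0 0 (g := g) (fun c => h1 _) (fun c => h2 _)
  have hA' : ∀ p, g (d.A 0 0 p) = d.A 0 0 (g p) := fun p => LinearMap.congr_fun hA p
  have hq' : ∀ p, g (d.qq 0 0 p) = d.qq 0 0 (g p) := fun p => LinearMap.congr_fun hq p
  have hn' : ∀ p, g (d.nn 0 0 p) = d.nn 0 0 (g p) := fun p => LinearMap.congr_fun hn p
  have h1' : ∀ p, g (d.r1 (D.t 0) p) = d.r1 (D.t 0) (g p) := fun p => LinearMap.congr_fun (h1 _) p
  have h2' : ∀ p, g (d.r2 (D.t 0) p) = d.r2 (D.t 0) (g p) := fun p => LinearMap.congr_fun (h2 _) p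
  apply ext_two
  · intro f; simp [Module.End.mul_apply]
  · intro f b; simp [Module.End.mul_apply]
  · intro f b b' w
    rw [Module.End.mul_apply, Module.End.mul_apply, post_apply]
    match b, b' with
    | false, false => rw [T0_FF, T0_FF, post_apply, h1']
    | true, true => rw [T0_TT, T0_TT, post_apply, h2']
    | false, true =>
      rw [T0_FT, T0_FT]
      simp only [post_apply, map_sub, LinearMap.add_apply, map_add, hA', hq']
    | true, false =>
      rw [T0_TF, T0_TF]
      simp only [post_apply, map_sub, LinearMap.sub_apply, map_add, hA', hn']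

theorem post_opT (k : ℕ) (d : Loc D P) {g : Module.End K P}
    (h1 : ∀ a, g * d.r1 a = d.r1 a * g) (h2 : ∀ a, g * d.r2 a = d.r2 a * g) :
    post g * opT k d = opT k d * post g := by
  induction k generalizing d with
  | zero => exact post_T0 d h1 h2
  | succ k ih =>
    rw [opT_succ, post_glue, glue_post, ih d.shF (fun a => h1 _) h2, ih d.shT h1 (fun a => h2 _)]

/-! elements of the first strand commute with `shn 1` -/

theorem e0_shn (i : I) (a : KLRAlg D) : D.e 0 i * D.shn 1 a = D.shn 1 a * D.e 0 i := by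
  have h := D.tr_mul_shn (le_refl 1) (D.e 0 i) a
  rwa [D.tr_e, if_pos (by omega)] at h

theorem x0_shn (a : KLRAlg D) : D.x 0 * D.shn 1 a = D.shn 1 a * D.x 0 := by
  have h := D.tr_mul_shn (le_refl 1) (D.x 0) a
  rwa [D.tr_x, if_pos (by omega)] at h

theorem t0_shn (a : KLRAlg D) : D.t 0 * D.shn 2 a = D.shn 2 a * D.t 0 := by
  have h := D.tr_mul_shn (le_refl 2) (D.t 0) a
  rwa [D.tr_t, if_pos (by omega)] at h

end Loc

open Loc

/-! ### the relations between `e` and `x` -/

theorem ee_aux (d : Loc D P) (k : ℕ) (i j : I) :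
    opE k i d * opE k j d = if i = j then opE k i d else 0 := by
  induction k generalizing d with
  | zero =>
    rw [opE_zero, opE_zero, glue_mul, post_mul, post_mul, ← map_mul, ← map_mul, D.e_mul_e]
    split_ifs
    · rfl
    · rw [map_zero, map_zero, post_zero, glue_zero]
  | succ k ih =>
    rw [opE_succ, opE_succ, glue_mul, ih, ih]
    split_ifs
    · rfl
    · rw [glue_zero]

/-- an element `post a` of the first strand commutes with the operators on the other strands -/
theorem comm_tail (d : Loc D P) {a : KLRAlg D} (ha : ∀ b, a * D.shn 1 b = D.shn 1 b * a) :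
    (∀ b, d.r1 a * d.shF.r1 b = d.shF.r1 b * d.r1 a) ∧
    (∀ b, d.r1 a * d.shF.r2 b = d.shF.r2 b * d.r1 a) ∧
    (∀ b, d.r2 a * d.shT.r1 b = d.shT.r1 b * d.r2 a) ∧
    (∀ b, d.r2 a * d.shT.r2 b = d.shT.r2 b * d.r2 a) := by
  refine ⟨fun b => ?_, fun b => d.comm a b, fun b => (d.comm b a).symm, fun b => ?_⟩
  · rw [shF_r1, ← map_mul, ha, map_mul]
  · rw [shT_r2, ← map_mul, ha, map_mul]

theorem ee_comm_aux (d : Loc D P) (k l : ℕ) (i j : I) :
    opE k i d * opE l j d = opE l j d * opE k i d := by
  induction k generalizing d l with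
  | zero =>
    cases l with
    | zero =>
      rw [opE_zero, opE_zero, glue_mul, glue_mul, post_mul, post_mul, post_mul, post_mul,
        ← map_mul, ← map_mul, D.e_comm, map_mul, map_mul]
    | succ l =>
      obtain ⟨h1, h2, h3, h4⟩ := comm_tail d (e0_shn i)
      rw [opE_zero, opE_succ, glue_mul, glue_mul, post_opE l j d.shF h1 h2,
        post_opE l j d.shT h3 h4]
  | succ k ih =>
    cases l with
    | zero =>
      obtain ⟨h1, h2, h3, h4⟩ := comm_tail d (e0_shn j)
      rw [opE_zero, opE_succ, glue_mul, glue_mul, post_opE k i d.shF h1 h2,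
        post_opE k i d.shT h3 h4]
    | succ l => rw [opE_succ, opE_succ, glue_mul, glue_mul, ih, ih]

theorem xx_aux (d : Loc D P) (k l : ℕ) : opX k d * opX l d = opX l d * opX k d := by
  induction k generalizing d l with
  | zero =>
    cases l with
    | zero => rfl
    | succ l =>
      obtain ⟨h1, h2, h3, h4⟩ := comm_tail d x0_shn
      rw [opX_zero, opX_succ, glue_mul, glue_mul, post_opX l d.shF h1 h2, post_opX l d.shT h3 h4]
  | succ k ih =>
    cases l with
    | zero =>
      obtain ⟨h1, h2, h3, h4⟩ := comm_tail d x0_shn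
      rw [opX_zero, opX_succ, glue_mul, glue_mul, post_opX k d.shF h1 h2, post_opX k d.shT h3 h4]
    | succ l => rw [opX_succ, opX_succ, glue_mul, glue_mul, ih, ih]

theorem xe_aux (d : Loc D P) (k l : ℕ) (i : I) : opX k d * opE l i d = opE l i d * opX k d := by
  induction k generalizing d l with
  | zero =>
    cases l with
    | zero =>
      rw [opX_zero, opE_zero, glue_mul, glue_mul, post_mul, post_mul, post_mul, post_mul,
        ← map_mul, ← map_mul, D.x_e, map_mul, map_mul]
    | succ l =>
      obtain ⟨h1, h2, h3, h4⟩ := comm_tail d x0_shn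
      rw [opX_zero, opE_succ, glue_mul, glue_mul, post_opE l i d.shF h1 h2,
        post_opE l i d.shT h3 h4]
  | succ k ih =>
    cases l with
    | zero =>
      obtain ⟨h1, h2, h3, h4⟩ := comm_tail d (e0_shn i)
      rw [opE_zero, opX_succ, glue_mul, glue_mul, post_opX k d.shF h1 h2, post_opX k d.shT h3 h4]
    | succ l => rw [opX_succ, opE_succ, glue_mul, glue_mul, ih, ih]

theorem sum_opE_zero (d : Loc D P) :
    ∑ i, opE 0 i d = glue (post (d.r1 (D.E 0))) (post (d.r2 (D.E 0))) := by
  simp only [opE_zero]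
  rw [glue_sum, post_sum, post_sum, ← map_sum, ← map_sum]
  rfl

theorem sum_opE_succ (d : Loc D P) (k : ℕ) :
    ∑ i, opE (k + 1) i d = glue (∑ i, opE k i d.shF) (∑ i, opE k i d.shT) := by
  simp only [opE_succ]
  rw [glue_sum]

theorem xE_aux (d : Loc D P) (k : ℕ) : opX k d * ∑ i, opE k i d = opX k d := by
  induction k generalizing d with
  | zero =>
    rw [sum_opE_zero, opX_zero, glue_mul, post_mul, post_mul, ← map_mul, ← map_mul, D.x_E]
  | succ k ih => rw [sum_opE_succ, opX_succ, glue_mul, ih, ih]

theorem prf_rE (D : Datum K I) : S_rE D := fun _ _ _ d =>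
  ⟨ee_aux d, ee_comm_aux d, xx_aux d, xe_aux d, xE_aux d⟩

end Pbw

end Pool.Agent.KLR
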