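import Pool.Agent.Work.MP_e487d8_al.Pbw.Glue
import Pool.Agent.Work.MP_e487d8_al.Pbw.Cross

/-! MP_e487d8_al, PBW block: the crossing data of a `Loc` satisfy the formal rules `Cross`. -/

set_option autoImplicit false

namespace Pool.Agent.KLR

variable {K I : Type} [Field K] [Fintype I] [DecidableEq I]

namespace Pbw

variable {D : Datum K I} {P : Type} [AddCommGroup P] [Module K P]

namespace Loc

/-- `g` commutes with all dots and all idempotents -/
structure Dg (d : Loc D P) (g : Module.End K P) : Prop where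
  e1 : ∀ k c, g * d.r1 (D.e k c) = d.r1 (D.e k c) * g
  e2 : ∀ k c, g * d.r2 (D.e k c) = d.r2 (D.e k c) * g
  x1 : ∀ k, g * d.r1 (D.x k) = d.r1 (D.x k) * g
  x2 : ∀ k, g * d.r2 (D.x k) = d.r2 (D.x k) * g

namespace Dg

variable {d : Loc D P} {g h : Module.End K P}

theorem x12 (hg : d.Dg g) (i j : ℕ) :
    g * (d.r1 (D.x i) - d.r2 (D.x j)) = (d.r1 (D.x i) - d.r2 (D.x j)) * g := by
  rw [mul_sub, sub_mul, hg.x1, hg.x2]

theorem cA (hg : d.Dg g) (i j : ℕ) : g * d.A i j = d.A i j * g :=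
  d.comm_A i j (hg.e1 i) (hg.e2 j) (hg.x12 i j)
theorem cQ (hg : d.Dg g) (i j : ℕ) : g * d.qq i j = d.qq i j * g :=
  d.comm_qq i j (hg.e1 i) (hg.e2 j) (hg.x12 i j)
theorem cN (hg : d.Dg g) (i j : ℕ) : g * d.nn i j = d.nn i j * g :=
  d.comm_nn i j (hg.e1 i) (hg.e2 j)
theorem cD (hg : d.Dg g) (i j : ℕ) : g * d.dd i j = d.dd i j * g :=
  d.comm_dd i j (hg.e1 i) (hg.e2 j)
theorem cE1 (hg : d.Dg g) (i : ℕ) : g * d.r1 (D.E i) = d.r1 (D.E i) * g := by
  unfold Datum.E
  rw [map_sum, Finset.mul_sum, Finset.sum_mul]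
  exact Finset.sum_congr rfl fun c _ => hg.e1 i c
theorem cE2 (hg : d.Dg g) (i : ℕ) : g * d.r2 (D.E i) = d.r2 (D.E i) * g := by
  unfold Datum.E
  rw [map_sum, Finset.mul_sum, Finset.sum_mul]
  exact Finset.sum_congr rfl fun c _ => hg.e2 i c
theorem cv (hg : d.Dg g) (i j : ℕ) : g * d.v i j = d.v i j * g :=
  d.comm_v i j (hg.x12 i j) (by rw [← mul_assoc, hg.cE1, mul_assoc, hg.cE2, mul_assoc])

theorem mul (hg : d.Dg g) (hh : d.Dg h) : d.Dg (g * h) where
  e1 k c := by rw [mul_assoc, hh.e1, ← mul_assoc, hg.e1, mul_assoc]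
  e2 k c := by rw [mul_assoc, hh.e2, ← mul_assoc, hg.e2, mul_assoc]
  x1 k := by rw [mul_assoc, hh.x1, ← mul_assoc, hg.x1, mul_assoc]
  x2 k := by rw [mul_assoc, hh.x2, ← mul_assoc, hg.x2, mul_assoc]

theorem add (hg : d.Dg g) (hh : d.Dg h) : d.Dg (g + h) where
  e1 k c := by rw [add_mul, mul_add, hh.e1, hg.e1]
  e2 k c := by rw [add_mul, mul_add, hh.e2, hg.e2]
  x1 k := by rw [add_mul, mul_add, hh.x1, hg.x1]
  x2 k := by rw [add_mul, mul_add, hh.x2, hg.x2]

theorem sub (hg : d.Dg g) (hh : d.Dg h) : d.Dg (g - h) where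
  e1 k c := by rw [sub_mul, mul_sub, hh.e1, hg.e1]
  e2 k c := by rw [sub_mul, mul_sub, hh.e2, hg.e2]
  x1 k := by rw [sub_mul, mul_sub, hh.x1, hg.x1]
  x2 k := by rw [sub_mul, mul_sub, hh.x2, hg.x2]

theorem smul (r : K) (hg : d.Dg g) : d.Dg (r • g) where
  e1 k c := by rw [smul_mul_assoc, mul_smul_comm, hg.e1]
  e2 k c := by rw [smul_mul_assoc, mul_smul_comm, hg.e2]
  x1 k := by rw [smul_mul_assoc, mul_smul_comm, hg.x1]
  x2 k := by rw [smul_mul_assoc, mul_smul_comm, hg.x2]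

theorem zero : d.Dg 0 where
  e1 k c := by rw [zero_mul, mul_zero]
  e2 k c := by rw [zero_mul, mul_zero]
  x1 k := by rw [zero_mul, mul_zero]
  x2 k := by rw [zero_mul, mul_zero]

theorem one : d.Dg 1 where
  e1 k c := by rw [one_mul, mul_one]
  e2 k c := by rw [one_mul, mul_one]
  x1 k := by rw [one_mul, mul_one]
  x2 k := by rw [one_mul, mul_one]

theorem pow (hg : d.Dg g) (n : ℕ) : d.Dg (g ^ n) := by
  induction n with
  | zero => rw [pow_zero]; exact one
  | succ n ih => rw [pow_succ]; exact ih.mul hg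

theorem sum {ι : Type*} (s : Finset ι) (f : ι → Module.End K P) (hf : ∀ i ∈ s, d.Dg (f i)) :
    d.Dg (∑ i ∈ s, f i) := by
  classical
  induction s using Finset.induction_on with
  | empty => rw [Finset.sum_empty]; exact zero
  | insert a s ha ih =>
    rw [Finset.sum_insert ha]
    exact (hf a (Finset.mem_insert_self a s)).add
      (ih fun i hi => hf i (Finset.mem_insert_of_mem hi))

variable (d) in
theorem re1 (k : ℕ) (c : I) : d.Dg (d.r1 (D.e k c)) where
  e1 l c' := by rw [← map_mul, ← map_mul, D.e_comm]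
  e2 l c' := d.comm _ _
  x1 l := by rw [← map_mul, ← map_mul, D.x_e]
  x2 l := d.comm _ _

variable (d) in
theorem re2 (k : ℕ) (c : I) : d.Dg (d.r2 (D.e k c)) where
  e1 l c' := (d.comm _ _).symm
  e2 l c' := by rw [← map_mul, ← map_mul, D.e_comm]
  x1 l := (d.comm _ _).symm
  x2 l := by rw [← map_mul, ← map_mul, D.x_e]

variable (d) in
theorem rx1 (k : ℕ) : d.Dg (d.r1 (D.x k)) where
  e1 l c' := by rw [← map_mul, ← map_mul, D.x_e]
  e2 l c' := d.comm _ _
  x1 l := by rw [← map_mul, ← map_mul, D.x_comm]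
  x2 l := d.comm _ _

variable (d) in
theorem rx2 (k : ℕ) : d.Dg (d.r2 (D.x k)) where
  e1 l c' := (d.comm _ _).symm
  e2 l c' := by rw [← map_mul, ← map_mul, D.x_e]
  x1 l := (d.comm _ _).symm
  x2 l := by rw [← map_mul, ← map_mul, D.x_comm]

variable (d) in
theorem dA (i j : ℕ) : d.Dg (d.A i j) where
  e1 l c' := ((re1 d l c').cA i j).symm
  e2 l c' := ((re2 d l c').cA i j).symm
  x1 l := ((rx1 d l).cA i j).symm
  x2 l := ((rx2 d l).cA i j).symm

variable (d) in
theorem dQ (i j : ℕ) : d.Dg (d.qq i j) where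
  e1 l c' := ((re1 d l c').cQ i j).symm
  e2 l c' := ((re2 d l c').cQ i j).symm
  x1 l := ((rx1 d l).cQ i j).symm
  x2 l := ((rx2 d l).cQ i j).symm

variable (d) in
theorem dN (i j : ℕ) : d.Dg (d.nn i j) where
  e1 l c' := ((re1 d l c').cN i j).symm
  e2 l c' := ((re2 d l c').cN i j).symm
  x1 l := ((rx1 d l).cN i j).symm
  x2 l := ((rx2 d l).cN i j).symm

variable (d) in
theorem dv (i j : ℕ) : d.Dg (d.v i j) where
  e1 l c' := ((re1 d l c').cv i j).symm
  e2 l c' := ((re2 d l c').cv i j).symm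
  x1 l := ((rx1 d l).cv i j).symm
  x2 l := ((rx2 d l).cv i j).symm

variable (d) in
theorem dD (i j : ℕ) : d.Dg (d.dd i j) where
  e1 l c' := ((re1 d l c').cD i j).symm
  e2 l c' := ((re2 d l c').cD i j).symm
  x1 l := ((rx1 d l).cD i j).symm
  x2 l := ((rx2 d l).cD i j).symm

end Dg

section colours

variable (d : Loc D P)

theorem r1_ee (k : ℕ) (c c' : I) :
    d.r1 (D.e k c) * d.r1 (D.e k c') = if c = c' then d.r1 (D.e k c) else 0 := by
  rw [← map_mul, D.e_mul_e]; split_ifs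
  · rfl
  · exact map_zero _

theorem r2_ee (k : ℕ) (c c' : I) :
    d.r2 (D.e k c) * d.r2 (D.e k c') = if c = c' then d.r2 (D.e k c) else 0 := by
  rw [← map_mul, D.e_mul_e]; split_ifs
  · rfl
  · exact map_zero _

/-- `dd` on colours -/
theorem dd_ee (i j : ℕ) (c c' : I) :
    d.dd i j * (d.r1 (D.e i c) * d.r2 (D.e j c')) =
      if c = c' then d.r1 (D.e i c) * d.r2 (D.e j c') else 0 := by
  unfold dd
  rw [Finset.sum_mul]
  have h : ∀ b, d.r1 (D.e i b) * d.r2 (D.e j b) * (d.r1 (D.e i c) * d.r2 (D.e j c')) =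
      if b = c then (if c = c' then d.r1 (D.e i c) * d.r2 (D.e j c') else 0) else 0 := by
    intro b
    have h1 : d.r1 (D.e i b) * d.r2 (D.e j b) * (d.r1 (D.e i c) * d.r2 (D.e j c')) =
        (d.r1 (D.e i b) * d.r1 (D.e i c)) * (d.r2 (D.e j b) * d.r2 (D.e j c')) := by
      rw [mul_assoc, ← mul_assoc (d.r2 (D.e j b)), ← d.comm, mul_assoc (d.r1 (D.e i c)),
        ← mul_assoc]
    rw [h1, r1_ee, r2_ee]
    split_ifs with h2 h3 h4 h4
    · rw [h2, h4]
    · exact absurd (h2.symm.trans h3) h4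
    · exact absurd (h2.trans h4) h3
    · rw [mul_zero]
    · rw [zero_mul]
    · rw [zero_mul]
  simp only [h]
  rw [Finset.sum_ite_eq' Finset.univ c, if_pos (Finset.mem_univ c)]

theorem dd_e (i j : ℕ) (c : I) :
    d.dd i j * d.r1 (D.e i c) = d.dd i j * d.r2 (D.e j c) := by
  unfold dd
  rw [Finset.sum_mul, Finset.sum_mul]
  refine Finset.sum_congr rfl fun b _ => ?_
  rw [mul_assoc, ← d.comm, ← mul_assoc, r1_ee, mul_assoc, r2_ee]
  split_ifs
  · rfl
  · rw [zero_mul, mul_zero]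

theorem dd_nn (i j : ℕ) : d.dd i j * d.nn i j = 0 := by
  unfold nn
  rw [Finset.mul_sum]
  refine Finset.sum_eq_zero fun c _ => ?_
  rw [Finset.mul_sum]
  refine Finset.sum_eq_zero fun c' _ => ?_
  split_ifs with h
  · rw [mul_zero]
  · rw [dd_ee, if_neg h]

theorem dd_qq (i j : ℕ) : d.dd i j * d.qq i j = 0 := by
  unfold qq
  rw [Finset.mul_sum]
  refine Finset.sum_eq_zero fun c _ => ?_
  rw [Finset.mul_sum]
  refine Finset.sum_eq_zero fun c' _ => ?_
  split_ifs with h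
  · rw [mul_zero]
  · rw [mul_smul_comm, ← mul_assoc, ← ((((Dg.rx1 d i).sub (Dg.rx2 d j)).pow _).cD i j), mul_assoc,
      dd_ee, if_neg h, mul_zero, smul_zero]

theorem dd_dd (i j : ℕ) : d.dd i j * d.dd i j = d.dd i j := by
  conv_lhs => rhs; unfold dd
  rw [Finset.mul_sum]
  conv_rhs => unfold dd
  refine Finset.sum_congr rfl fun c _ => ?_
  rw [dd_ee, if_pos rfl]

theorem nn_ee (i j : ℕ) (c c' : I) :
    d.nn i j * (d.r1 (D.e i c) * d.r2 (D.e j c')) =
      if c = c' then 0 else d.r1 (D.e i c) * d.r2 (D.e j c') := by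
  have h : ∀ b b', (d.r1 (D.e i b) * d.r2 (D.e j b')) * (d.r1 (D.e i c) * d.r2 (D.e j c')) =
      if b = c then (if b' = c' then d.r1 (D.e i c) * d.r2 (D.e j c') else 0) else 0 := by
    intro b b'
    have h1 : d.r1 (D.e i b) * d.r2 (D.e j b') * (d.r1 (D.e i c) * d.r2 (D.e j c')) =
        (d.r1 (D.e i b) * d.r1 (D.e i c)) * (d.r2 (D.e j b') * d.r2 (D.e j c')) := by
      rw [mul_assoc, ← mul_assoc (d.r2 (D.e j b')), ← d.comm, mul_assoc (d.r1 (D.e i c)),
        ← mul_assoc]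
    rw [h1, r1_ee, r2_ee]
    split_ifs with h2 h3
    · rw [h2, h3]
    · rw [mul_zero]
    · rw [zero_mul]
    · rw [zero_mul]
  unfold nn
  rw [Finset.sum_mul, Finset.sum_eq_single c]
  · rw [Finset.sum_mul, Finset.sum_eq_single c']
    · split_ifs with h1
      · rw [zero_mul]
      · rw [h, if_pos rfl, if_pos rfl]
    · intro b' _ hb'
      split_ifs
      · rw [zero_mul]
      · rw [h, if_pos rfl, if_neg hb']
    · intro h1; exact absurd (Finset.mem_univ _) h1
  · intro b _ hb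
    rw [Finset.sum_mul]
    refine Finset.sum_eq_zero fun b' _ => ?_
    split_ifs
    · rw [zero_mul]
    · rw [h, if_neg hb]
  · intro h1; exact absurd (Finset.mem_univ _) h1

theorem nn_qq (i j : ℕ) : d.nn i j * d.qq i j = d.qq i j := by
  conv_lhs => rhs; unfold qq
  conv_rhs => unfold qq
  rw [Finset.mul_sum]
  refine Finset.sum_congr rfl fun c _ => ?_
  rw [Finset.mul_sum]
  refine Finset.sum_congr rfl fun c' _ => ?_
  split_ifs with h
  · rw [mul_zero]
  · rw [mul_smul_comm, ← mul_assoc, ← ((((Dg.rx1 d i).sub (Dg.rx2 d j)).pow _).cN i j), mul_assoc,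
      nn_ee, if_neg h]

theorem nn_nn (i j : ℕ) : d.nn i j * d.nn i j = d.nn i j := by
  conv_lhs => rhs; unfold nn
  conv_rhs => unfold nn
  rw [Finset.mul_sum]
  refine Finset.sum_congr rfl fun c _ => ?_
  rw [Finset.mul_sum]
  refine Finset.sum_congr rfl fun c' _ => ?_
  split_ifs with h
  · rw [mul_zero]
  · rw [nn_ee, if_neg h]

theorem A_nn (i j : ℕ) : d.A i j * d.nn i j = 0 := by unfold A; rw [mul_assoc, dd_nn, mul_zero]
theorem A_qq (i j : ℕ) : d.A i j * d.qq i j = 0 := by unfold A; rw [mul_assoc, dd_qq, mul_zero]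
theorem nn_A (i j : ℕ) : d.nn i j * d.A i j = 0 := by rw [(Dg.dN d i j).cA, A_nn]
theorem qq_A (i j : ℕ) : d.qq i j * d.A i j = 0 := by rw [(Dg.dQ d i j).cA, A_qq]

/-- `dd + nn` is the identity where both strands exist -/
theorem dd_add_nn (i j : ℕ) : d.dd i j + d.nn i j = d.r1 (D.E i) * d.r2 (D.E j) := by
  have h : ∀ (c : I) (f : I → Module.End K P),
      f c + ∑ b, (if c = b then 0 else f b) = ∑ b, f b := by
    intro c f
    have h1 : f c = ∑ b, if c = b then f b else 0 := by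
      rw [Finset.sum_ite_eq Finset.univ c, if_pos (Finset.mem_univ c)]
    rw [h1, ← Finset.sum_add_distrib]
    refine Finset.sum_congr rfl fun b _ => ?_
    split_ifs
    · rw [add_zero]
    · rw [zero_add]
  unfold dd nn Datum.E
  rw [map_sum, map_sum, Finset.sum_mul, ← Finset.sum_add_distrib]
  refine Finset.sum_congr rfl fun c _ => ?_
  rw [Finset.mul_sum]
  exact h c fun b => d.r1 (D.e i c) * d.r2 (D.e j b)

theorem xy_A (i j : ℕ) : (d.r1 (D.x i) - d.r2 (D.x j)) * d.A i j = d.dd i j := by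
  unfold A
  rw [← mul_assoc, d.mul_v]
  unfold dd
  rw [Finset.mul_sum]
  refine Finset.sum_congr rfl fun c _ => ?_
  rw [mul_assoc, ← mul_assoc (d.r2 (D.E j)), ← d.comm, mul_assoc (d.r1 (D.e i c)), ← mul_assoc,
    ← map_mul, ← map_mul, D.E_e, D.E_e, D.e_E, D.e_E]

theorem A_xy (i j : ℕ) : d.A i j * (d.r1 (D.x i) - d.r2 (D.x j)) = d.dd i j := by
  rw [← ((Dg.rx1 d i).sub (Dg.rx2 d j)).cA, xy_A]

end colours

end Loc

end Pbw

end Pool.Agent.KLR
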