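import Pool.Agent.Work.MP_e487d8_al.Pbw.RBb

/-! MP_e487d8_al, PBW block: the error terms of the braid relation, and exchanging the two
actions. -/

set_option autoImplicit false

namespace Pool.Agent.KLR

variable {K I : Type} [Field K] [Fintype I] [DecidableEq I]

namespace Pbw

variable {D : Datum K I} {P : Type} [AddCommGroup P] [Module K P]

/-- `(x - y) * gs = x ^ n - y ^ n` -/
theorem gs_mul {B : Type*} [Ring B] {x y : B} (h : Commute x y) (n : ℕ) :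
    (x - y) * ∑ p ∈ Finset.range n, x ^ p * y ^ (n - 1 - p) = x ^ n - y ^ n := by
  induction n with
  | zero => simp
  | succ n ih =>
    have hc : Commute (x - y) x := (Commute.refl x).sub_left h.symm
    rw [gs_succ h, mul_add, ← mul_assoc, ih, sub_mul, sub_mul, ← pow_succ, ← pow_succ',
      (h.symm.pow_left n).eq]
    abel

omit [Fintype I] [DecidableEq I] in
/-- the parameters, with the sign -/
theorem c_pow {D : Datum K I} {B : Type*} [Ring B] [Algebra K B] {c c' : I} (h : c ≠ c') (z : B) :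
    D.c c' c • z ^ D.q c' c = D.c c c' • (-z) ^ D.q c c' := by
  have hq : D.q c' c = D.q c c' := by unfold Datum.q; rw [D.symm]
  have hc : D.c c' c = (-1) ^ D.q c c' * D.c c c' := D.c_symm c c' h
  rw [hq, hc, neg_pow z, mul_comm ((-1 : K) ^ _), mul_smul]
  congr 1
  rw [Algebra.smul_def, map_pow, map_neg, map_one]

namespace Loc

section

variable (d : Loc D P)

/-- error term at the words `F F T` -/
noncomputable def erA : Module.End K P := ∑ i, ∑ j, if i = j then 0 else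
  D.c i j • ((∑ p ∈ Finset.range (D.q i j),
    (d.r1 (D.x 0) - d.r1 (D.x 1)) ^ p * (d.r2 (D.x 0) - d.r1 (D.x 1)) ^ (D.q i j - 1 - p)) *
      (d.r1 (D.e 0 i) * d.r1 (D.e 1 j) * d.r2 (D.e 0 i)))
/-- error term at the words `F T F` -/
noncomputable def erB : Module.End K P := ∑ i, ∑ j, if i = j then 0 else
  D.c i j • ((∑ p ∈ Finset.range (D.q i j),
    (d.r1 (D.x 0) - d.r2 (D.x 0)) ^ p * (d.r1 (D.x 1) - d.r2 (D.x 0)) ^ (D.q i j - 1 - p)) *
      (d.r1 (D.e 0 i) * d.r2 (D.e 0 j) * d.r1 (D.e 1 i)))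
/-- error term at the words `T F F` -/
noncomputable def erC : Module.End K P := ∑ i, ∑ j, if i = j then 0 else
  D.c i j • ((∑ p ∈ Finset.range (D.q i j),
    (d.r2 (D.x 0) - d.r1 (D.x 0)) ^ p * (d.r1 (D.x 1) - d.r1 (D.x 0)) ^ (D.q i j - 1 - p)) *
      (d.r2 (D.e 0 i) * d.r1 (D.e 0 j) * d.r1 (D.e 1 i)))

theorem erB_eq : d.th = d.erB := by
  unfold th erB
  refine Finset.sum_congr rfl fun c _ => Finset.sum_congr rfl fun c' _ => ?_
  split_ifs
  · rfl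
  · rw [dl_ee']
    rfl

theorem tt_sq : d.tt * d.tt = ∑ i, ∑ j, if i = j then 0 else
    D.c i j • ((d.r1 (D.x 0) - d.r1 (D.x 1)) ^ D.q i j * (d.r1 (D.e 0 i) * d.r1 (D.e 1 j))) := by
  unfold tt
  rw [← map_mul, D.t_t, map_sum]
  refine Finset.sum_congr rfl fun i _ => ?_
  rw [map_sum]
  refine Finset.sum_congr rfl fun j _ => ?_
  split_ifs
  · exact map_zero _
  · rw [map_smul, map_mul, map_pow, map_sub, map_mul]

theorem A_e (i : ℕ) (c : I) : d.A i 0 * d.r1 (D.e i c) = d.A i 0 * d.r2 (D.e 0 c) := by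
  unfold A
  rw [mul_assoc, dd_e, mul_assoc]

theorem erA_eq : d.A 0 0 * (d.tt * d.tt - d.qq 1 0) = d.erA := by
  rw [mul_sub, tt_sq, qq_eq, Finset.sum_comm (f := fun c c' => if c = c' then (0 : Module.End K P)
    else D.c c c' • (d.xy 1 ^ D.q c c' * d.ee 1 c c')), erA, Finset.mul_sum, Finset.mul_sum,
    ← Finset.sum_sub_distrib]
  refine Finset.sum_congr rfl fun i _ => ?_
  rw [Finset.mul_sum, Finset.mul_sum, ← Finset.sum_sub_distrib]
  refine Finset.sum_congr rfl fun j _ => ?_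
  by_cases h : i = j
  · rw [if_pos h, if_pos h.symm, if_pos h, mul_zero, sub_zero]
  · rw [if_neg h, if_neg (Ne.symm h), if_neg h]
    have h1 : D.c j i • (d.xy 1 ^ D.q j i * d.ee 1 j i) =
        D.c i j • ((d.r2 (D.x 0) - d.r1 (D.x 1)) ^ D.q i j * d.ee 1 j i) := by
      rw [← smul_mul_assoc, c_pow h, smul_mul_assoc]
      unfold xy
      rw [neg_sub]
    have dx : d.Dg (d.r1 (D.x 0) - d.r1 (D.x 1)) := (Dg.rx1 d 0).sub (Dg.rx1 d 1)
    have dy : d.Dg (d.r2 (D.x 0) - d.r1 (D.x 1)) := (Dg.rx2 d 0).sub (Dg.rx1 d 1)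
    have hxy : Commute (d.r1 (D.x 0) - d.r1 (D.x 1)) (d.r2 (D.x 0) - d.r1 (D.x 1)) := by
      change _ * _ = _ * _
      rw [mul_sub, dx.x2, dx.x1, sub_mul]
    have h2 := gs_mul hxy (D.q i j)
    have hA : d.A 0 0 * d.r1 (D.e 0 i) * d.r2 (D.e 0 i) = d.A 0 0 * d.r1 (D.e 0 i) := by
      rw [A_e, mul_assoc, ← map_mul, D.e_idem]
    have h3 : d.A 0 0 * (d.r1 (D.e 0 i) * d.r1 (D.e 1 j)) =
        d.A 0 0 * (d.r1 (D.e 0 i) * d.r1 (D.e 1 j) * d.r2 (D.e 0 i)) := by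
      rw [mul_assoc (d.r1 (D.e 0 i)) (d.r1 (D.e 1 j)), d.comm (D.e 1 j) (D.e 0 i),
        ← mul_assoc (d.A 0 0) (d.r1 (D.e 0 i)) (d.r2 _ * _), ← mul_assoc (d.A 0 0 * _), hA,
        mul_assoc]
    have h4 : d.A 0 0 * d.ee 1 j i =
        d.A 0 0 * (d.r1 (D.e 0 i) * d.r1 (D.e 1 j) * d.r2 (D.e 0 i)) := by
      rw [← h3, ← mul_assoc, A_e, mul_assoc]
      unfold ee
      rw [d.comm]
    rw [h1, mul_smul_comm, mul_smul_comm, ← smul_sub]
    congr 1
    rw [← mul_assoc (d.A 0 0), ← mul_assoc (d.A 0 0), ← (dx.pow _).cA, ← (dy.pow _).cA,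
      mul_assoc, mul_assoc, h3, h4, ← sub_mul, ← h2, show d.r1 (D.x 0) - d.r1 (D.x 1) -
        (d.r2 (D.x 0) - d.r1 (D.x 1)) = d.xy 0 by unfold xy; abel]
    have h6 : d.Dg (∑ p ∈ Finset.range (D.q i j),
        (d.r1 (D.x 0) - d.r1 (D.x 1)) ^ p *
          (d.r2 (D.x 0) - d.r1 (D.x 1)) ^ (D.q i j - 1 - p)) :=
      Dg.sum _ _ fun _ _ => (dx.pow _).mul (dy.pow _)
    rw [← h6.cxy d 0, mul_assoc, ← mul_assoc (d.xy 0),
      show d.xy 0 * d.A 0 0 = d.dd 0 0 from d.xy_A 0 0]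
    congr 1
    rw [mul_assoc (d.r1 (D.e 0 i)), d.comm (D.e 1 j) (D.e 0 i),
      ← mul_assoc (d.r1 (D.e 0 i)) (d.r2 _), ← mul_assoc, dd_ee, if_pos rfl]

theorem erC_eq : d.A 1 0 * (d.tt * d.tt - d.qq 0 0) = d.erC := by
  rw [mul_sub, tt_sq, Finset.sum_comm (f := fun c c' => if c = c' then (0 : Module.End K P)
    else D.c c c' • ((d.r1 (D.x 0) - d.r1 (D.x 1)) ^ D.q c c' *
      (d.r1 (D.e 0 c) * d.r1 (D.e 1 c')))), qq_eq, Finset.sum_comm (f := fun c c' => if c = c'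
    then (0 : Module.End K P)
    else D.c c c' • (d.xy 0 ^ D.q c c' * d.ee 0 c c')), erC, Finset.mul_sum, Finset.mul_sum,
    ← Finset.sum_sub_distrib]
  refine Finset.sum_congr rfl fun i _ => ?_
  rw [Finset.mul_sum, Finset.mul_sum, ← Finset.sum_sub_distrib]
  refine Finset.sum_congr rfl fun j _ => ?_
  by_cases h : i = j
  · rw [if_pos h, if_pos h.symm, if_pos h.symm, mul_zero, sub_zero]
  · rw [if_neg h, if_neg (Ne.symm h), if_neg (Ne.symm h)]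
    have h1 : D.c j i • (d.xy 0 ^ D.q j i * d.ee 0 j i) =
        D.c i j • ((d.r2 (D.x 0) - d.r1 (D.x 0)) ^ D.q i j * d.ee 0 j i) := by
      rw [← smul_mul_assoc, c_pow h, smul_mul_assoc]
      unfold xy
      rw [neg_sub]
    have h1' : D.c j i • ((d.r1 (D.x 0) - d.r1 (D.x 1)) ^ D.q j i *
        (d.r1 (D.e 0 j) * d.r1 (D.e 1 i))) =
        D.c i j • ((d.r1 (D.x 1) - d.r1 (D.x 0)) ^ D.q i j *
          (d.r1 (D.e 0 j) * d.r1 (D.e 1 i))) := by
      rw [← smul_mul_assoc, c_pow h, smul_mul_assoc, neg_sub]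
    have dx : d.Dg (d.r1 (D.x 1) - d.r1 (D.x 0)) := (Dg.rx1 d 1).sub (Dg.rx1 d 0)
    have dy : d.Dg (d.r2 (D.x 0) - d.r1 (D.x 0)) := (Dg.rx2 d 0).sub (Dg.rx1 d 0)
    have hxy : Commute (d.r2 (D.x 0) - d.r1 (D.x 0)) (d.r1 (D.x 1) - d.r1 (D.x 0)) := by
      change _ * _ = _ * _
      rw [mul_sub, dy.x1, dy.x1, sub_mul]
    have h2 := gs_mul hxy (D.q i j)
    have hA : d.A 1 0 * d.r1 (D.e 1 i) * d.r2 (D.e 0 i) = d.A 1 0 * d.r1 (D.e 1 i) := by
      rw [A_e, mul_assoc, ← map_mul, D.e_idem]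
    have hB : d.A 1 0 * d.r2 (D.e 0 i) * d.r1 (D.e 1 i) = d.A 1 0 * d.r2 (D.e 0 i) := by
      rw [← A_e, mul_assoc, ← map_mul, D.e_idem]
    have hc : d.r1 (D.e 0 j) * d.r1 (D.e 1 i) = d.r1 (D.e 1 i) * d.r1 (D.e 0 j) := by
      rw [← map_mul, D.e_comm, map_mul]
    have h3 : d.A 1 0 * (d.r1 (D.e 0 j) * d.r1 (D.e 1 i)) =
        d.A 1 0 * (d.r2 (D.e 0 i) * d.r1 (D.e 0 j) * d.r1 (D.e 1 i)) := by
      rw [mul_assoc (d.r2 (D.e 0 i)), hc, ← mul_assoc (d.r2 (D.e 0 i)), ← d.comm,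
        mul_assoc (d.r1 (D.e 1 i)), ← mul_assoc (d.A 1 0), ← mul_assoc (d.A 1 0),
        ← mul_assoc (d.A 1 0 * _), hA]
    have h4 : d.A 1 0 * d.ee 0 j i =
        d.A 1 0 * (d.r2 (D.e 0 i) * d.r1 (D.e 0 j) * d.r1 (D.e 1 i)) := by
      rw [← h3, hc, ← mul_assoc, A_e, mul_assoc, ← d.comm]
      rfl
    rw [h1, h1', mul_smul_comm, mul_smul_comm, ← smul_sub]
    congr 1
    rw [← mul_assoc (d.A 1 0), ← mul_assoc (d.A 1 0), ← (dx.pow _).cA, ← (dy.pow _).cA,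
      mul_assoc, mul_assoc, h3, h4, ← sub_mul, ← neg_sub, ← h2, ← neg_mul, neg_sub,
      show d.r1 (D.x 1) - d.r1 (D.x 0) - (d.r2 (D.x 0) - d.r1 (D.x 0)) = d.xy 1 by
        unfold xy; abel]
    have h6 : d.Dg (∑ p ∈ Finset.range (D.q i j),
        (d.r2 (D.x 0) - d.r1 (D.x 0)) ^ p *
          (d.r1 (D.x 1) - d.r1 (D.x 0)) ^ (D.q i j - 1 - p)) :=
      Dg.sum _ _ fun _ _ => (dy.pow _).mul (dx.pow _)
    rw [← h6.cxy d 1, mul_assoc, ← mul_assoc (d.xy 1),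
      show d.xy 1 * d.A 1 0 = d.dd 1 0 from d.xy_A 1 0]
    congr 1
    rw [mul_assoc (d.r2 (D.e 0 i)), hc, ← mul_assoc (d.r2 (D.e 0 i)), ← d.comm,
      ← mul_assoc, dd_ee, if_pos rfl]

/-! exchanging the two actions -/

theorem swap_dd (i j : ℕ) : d.swap.dd i j = d.dd j i := by
  unfold dd
  exact Finset.sum_congr rfl fun c _ => (d.comm _ _).symm

theorem swap_A (i j : ℕ) : d.swap.A i j = -d.A j i := by
  unfold A
  rw [swap_dd]
  exact neg_mul _ _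

theorem swap_nn (i j : ℕ) : d.swap.nn i j = d.nn j i := by
  unfold nn
  rw [Finset.sum_comm]
  refine Finset.sum_congr rfl fun c _ => Finset.sum_congr rfl fun c' _ => ?_
  by_cases h : c = c'
  · rw [if_pos h, if_pos h.symm]
  · rw [if_neg h, if_neg (Ne.symm h)]
    exact (d.comm _ _).symm

theorem swap_qq (i j : ℕ) : d.swap.qq i j = d.qq j i := by
  unfold qq
  rw [Finset.sum_comm]
  refine Finset.sum_congr rfl fun c _ => Finset.sum_congr rfl fun c' _ => ?_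
  by_cases h : c = c'
  · rw [if_pos h, if_pos h.symm]
  · rw [if_neg h, if_neg (Ne.symm h), ← smul_mul_assoc, c_pow h, smul_mul_assoc, neg_sub]
    congr 2
    exact (d.comm _ _).symm

end

end Loc

end Pbw

end Pool.Agent.KLR
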