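import Pool.Agent.Work.MP_e487d8_al.Conv.Api

/-! MP_e487d8_al, PBW block: definitions and statements.

Goal: `S_basis D`. Spanning: `S_W1`, `S_W2`, `S_W3` (commutation modulo lower terms in the algebra),
then `S_stable`. Independence: for a `Loc` (two commuting actions `r1`, `r2` of the KLR algebra on
`P` such that the dots of the first action minus the dots of the second action are invertible) the
KLR algebra acts on the functions `List Bool → P` (`S_rels`); independence is a triangular argument
in the first letter (`S_ind`). The general case is a deformation argument. -/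

set_option autoImplicit false

open scoped TensorProduct

namespace Pool.Agent.KLR

variable {K I : Type} [Field K] [Fintype I] [DecidableEq I]

namespace Pbw

/-! ### spanning -/

section span

variable (D : Datum K I)

/-- error terms: linear span of the products `shn 1 a * tr m b`, and zero if `m = 0` -/
noncomputable def W (m : ℕ) : Submodule K (KLRAlg D) :=
  Submodule.span K {z | 0 < m ∧ ∃ a b : KLRAlg D, z = D.shn 1 a * D.tr m b}

/-- the action `r` is an action of `n` strands -/
structure StrandHom (n : ℕ) {V : Type} [AddCommGroup V] [Module K V]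
    (r : KLRAlg D →ₐ[K] Module.End K V) : Prop where
  one : ∀ k, k < n → r (D.E k) = 1
  zero : ∀ k, n ≤ k → ∀ i, r (D.e k i) = 0

/-- `Z + ∑_w tw w • β(p)`, the sum over the shuffles of `m` and `n` strands -/
def shSpan (m n : ℕ) {U P : Type} [AddCommGroup U] [Module K U] [AddCommGroup P] [Module K P]
    (r : KLRAlg D →ₐ[K] Module.End K P) (Z : Submodule K P) (β : U →ₗ[K] P) : Submodule K P :=
  Z ⊔ Submodule.span K
    {y | ∃ (w : List Bool) (p : U), w.count false = m ∧ w.count true = n ∧ y = r (D.tw w) (β p)}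

def S_W1 : Prop := ∀ (m : ℕ) (a : KLRAlg D),
  D.shn 1 (D.tr m a) * D.chain m - D.chain m * D.tr m a ∈ W D m

def S_W2 : Prop := ∀ m : ℕ, D.x 0 * D.chain m - D.chain m * D.x m ∈ W D m

def S_W3 : Prop := ∀ m : ℕ,
  D.t 0 * (D.shn 1 (D.chain m) * D.chain m) - D.shn 1 (D.chain m) * D.chain m * D.t m ∈ W D m

/-- `∑_w tw w • β(p)` is stable under the KLR algebra if `β` is balanced modulo the stable
subspace `Z` -/
def S_stable : Prop := ∀ (m n : ℕ) (U P : Type) [AddCommGroup U] [Module K U] [AddCommGroup P]
  [Module K P] (r1 r2 : KLRAlg D →ₐ[K] Module.End K U) (r : KLRAlg D →ₐ[K] Module.End K P)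
  (Z : Submodule K P) (β : U →ₗ[K] P), StrandHom D m r1 → StrandHom D n r2 →
  (∀ a, ∀ z ∈ Z, r a z ∈ Z) →
  (∀ a p, r (D.tr m a) (β p) - β (r1 a p) ∈ Z) →
  (∀ a p, r (D.shn m a) (β p) - β (r2 a p) ∈ Z) →
  ∀ a, ∀ y ∈ shSpan D m n r Z β, r a y ∈ shSpan D m n r Z β

end span

/-! ### the localised module -/

/-- two commuting actions of the KLR algebra on `P` such that `x i - y j` is invertible where the
strands `i` (of the first action) and `j` (of the second action) exist, with inverse `v i j` -/
structure Loc (D : Datum K I) (P : Type) [AddCommGroup P] [Module K P] where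
  r1 : KLRAlg D →ₐ[K] Module.End K P
  r2 : KLRAlg D →ₐ[K] Module.End K P
  v : ℕ → ℕ → Module.End K P
  comm : ∀ a b, r1 a * r2 b = r2 b * r1 a
  v_mul : ∀ i j, v i j * (r1 (D.x i) - r2 (D.x j)) = r1 (D.E i) * r2 (D.E j)
  mul_v : ∀ i j, (r1 (D.x i) - r2 (D.x j)) * v i j = r1 (D.E i) * r2 (D.E j)
  v_E : ∀ i j, v i j * (r1 (D.E i) * r2 (D.E j)) = v i j

namespace Loc

variable {D : Datum K I} {P : Type} [AddCommGroup P] [Module K P] (d : Loc D P)

/-- forget the first strand of the first action -/
noncomputable def shF : Loc D P where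
  r1 := d.r1.comp (D.shn 1)
  r2 := d.r2
  v i j := d.v (1 + i) j
  comm a b := d.comm _ b
  v_mul i j := by
    simp only [AlgHom.comp_apply, Datum.shn_x, D.shn_E]
    exact d.v_mul (1 + i) j
  mul_v i j := by
    simp only [AlgHom.comp_apply, Datum.shn_x, D.shn_E]
    exact d.mul_v (1 + i) j
  v_E i j := by
    simp only [AlgHom.comp_apply, D.shn_E]
    exact d.v_E (1 + i) j

/-- forget the first strand of the second action -/
noncomputable def shT : Loc D P where
  r1 := d.r1
  r2 := d.r2.comp (D.shn 1)
  v i j := d.v i (1 + j)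
  comm a b := d.comm a _
  v_mul i j := by
    simp only [AlgHom.comp_apply, Datum.shn_x, D.shn_E]
    exact d.v_mul i (1 + j)
  mul_v i j := by
    simp only [AlgHom.comp_apply, Datum.shn_x, D.shn_E]
    exact d.mul_v i (1 + j)
  v_E i j := by
    simp only [AlgHom.comp_apply, D.shn_E]
    exact d.v_E i (1 + j)

/-- exchange the two actions -/
noncomputable def swap : Loc D P where
  r1 := d.r2
  r2 := d.r1
  v i j := -d.v j i
  comm a b := (d.comm b a).symm
  v_mul i j := by
    have h := d.v_mul j i
    rw [← d.comm (D.E j) (D.E i), ← h, neg_mul, ← mul_neg, neg_sub]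
  mul_v i j := by
    have h := d.mul_v j i
    rw [← d.comm (D.E j) (D.E i), ← h, mul_neg, ← neg_mul, neg_sub]
  v_E i j := by
    rw [← d.comm (D.E j) (D.E i), neg_mul, d.v_E j i]

/-- the strands `i` and `j` have the same colour -/
noncomputable def dd (i j : ℕ) : Module.End K P := ∑ c, d.r1 (D.e i c) * d.r2 (D.e j c)

/-- `1 / (x i - y j)` on equal colours -/
noncomputable def A (i j : ℕ) : Module.End K P := d.v i j * d.dd i j

/-- the strands `i` and `j` have different colours -/
noncomputable def nn (i j : ℕ) : Module.End K P :=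
  ∑ c, ∑ c', if c = c' then 0 else d.r1 (D.e i c) * d.r2 (D.e j c')

/-- `Q(x i, y j)` on different colours -/
noncomputable def qq (i j : ℕ) : Module.End K P :=
  ∑ c, ∑ c', if c = c' then 0 else
    D.c c c' • ((d.r1 (D.x i) - d.r2 (D.x j)) ^ D.q c c' * (d.r1 (D.e i c) * d.r2 (D.e j c')))

/-- tail of a function on words -/
def tl (b : Bool) : (List Bool → P) →ₗ[K] (List Bool → P) where
  toFun f := fun w => f (b :: w)
  map_add' _ _ := rfl
  map_smul' _ _ := rfl

/-- act by `g` on the words with first letter `false` and by `h` on the words with first letter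
`true`, leaving the first letter fixed -/
def glue (g h : Module.End K (List Bool → P)) : Module.End K (List Bool → P) where
  toFun f := fun w => match w with
    | [] => 0
    | false :: w => g (tl (K := K) false f) w
    | true :: w => h (tl (K := K) true f) w
  map_add' f f' := by
    funext w
    match w with
    | [] => simp
    | false :: w => simp
    | true :: w => simp
  map_smul' r f := by
    funext w
    match w with
    | [] => simp
    | false :: w => simp
    | true :: w => simp

/-- act by `g` on all values -/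
def post (g : Module.End K P) : Module.End K (List Bool → P) where
  toFun f := fun w => g (f w)
  map_add' f f' := by funext w; simp
  map_smul' r f := by funext w; simp

/-- the crossing of the first two strands -/
noncomputable def T0 : Module.End K (List Bool → P) where
  toFun f := fun w => match w with
    | [] => 0
    | [_] => 0
    | false :: false :: w => d.r1 (D.t 0) (f (false :: false :: w))
    | true :: true :: w => d.r2 (D.t 0) (f (true :: true :: w))
    | false :: true :: w =>
        (d.A 0 0 + d.qq 0 0) (f (true :: false :: w)) - d.A 0 0 (f (false :: true :: w))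
    | true :: false :: w =>
        d.A 0 0 (f (true :: false :: w)) + (d.nn 0 0 - d.A 0 0) (f (false :: true :: w))
  map_add' f f' := by
    funext w
    match w with
    | [] => simp
    | [_] => simp
    | false :: false :: w => simp
    | true :: true :: w => simp
    | false :: true :: w => simp only [Pi.add_apply, map_add]; abel
    | true :: false :: w => simp only [Pi.add_apply, map_add]; abel
  map_smul' r f := by
    funext w
    match w with
    | [] => simp
    | [_] => simp
    | false :: false :: w => simp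
    | true :: true :: w => simp
    | false :: true :: w => simp only [Pi.smul_apply, map_smul, RingHom.id_apply, smul_sub]
    | true :: false :: w => simp only [Pi.smul_apply, map_smul, RingHom.id_apply, smul_add]

/-- the action of `e k i` on the functions on words -/
noncomputable def opE : ℕ → I → Loc D P → Module.End K (List Bool → P)
  | 0, i, d => glue (post (d.r1 (D.e 0 i))) (post (d.r2 (D.e 0 i)))
  | k + 1, i, d => glue (opE k i d.shF) (opE k i d.shT)

/-- the action of `x k` on the functions on words -/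
noncomputable def opX : ℕ → Loc D P → Module.End K (List Bool → P)
  | 0, d => glue (post (d.r1 (D.x 0))) (post (d.r2 (D.x 0)))
  | k + 1, d => glue (opX k d.shF) (opX k d.shT)

/-- the action of `t k` on the functions on words -/
noncomputable def opT : ℕ → Loc D P → Module.End K (List Bool → P)
  | 0, d => d.T0
  | k + 1, d => glue (opT k d.shF) (opT k d.shT)

/-- the function supported on the word `false ^ m true ^ n` with value `p` -/
def iota (m n : ℕ) : P →ₗ[K] (List Bool → P) where
  toFun p := fun w => if w = List.replicate m false ++ List.replicate n true then p else 0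
  map_add' p p' := by
    funext w
    simp only [Pi.add_apply]
    split_ifs <;> simp
  map_smul' r p := by
    funext w
    simp only [Pi.smul_apply, RingHom.id_apply]
    split_ifs <;> simp

end Loc

/-- the operators `opE`, `opX`, `opT` satisfy the KLR relations -/
def S_rels (D : Datum K I) : Prop :=
  ∀ (P : Type) [AddCommGroup P] [Module K P] (d : Loc D P),
    Rels D (fun k i => Loc.opE k i d) (fun k => Loc.opX k d) (fun k => Loc.opT k d)

/-! the KLR relations one by one (for all `Loc`) -/

/-- relations between the `e` and the `x` -/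
def S_rE (D : Datum K I) : Prop :=
  ∀ (P : Type) [AddCommGroup P] [Module K P] (d : Loc D P),
    (∀ k i j, Loc.opE k i d * Loc.opE k j d = if i = j then Loc.opE k i d else 0) ∧
    (∀ k l i j, Loc.opE k i d * Loc.opE l j d = Loc.opE l j d * Loc.opE k i d) ∧
    (∀ k l, Loc.opX k d * Loc.opX l d = Loc.opX l d * Loc.opX k d) ∧
    (∀ k l i, Loc.opX k d * Loc.opE l i d = Loc.opE l i d * Loc.opX k d) ∧
    (∀ k, Loc.opX k d * ∑ i, Loc.opE k i d = Loc.opX k d)

/-- commutation of `t` with `e`, and distant commutation -/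
def S_rT (D : Datum K I) : Prop :=
  ∀ (P : Type) [AddCommGroup P] [Module K P] (d : Loc D P),
    (∀ k, Loc.opT k d * ∑ i, Loc.opE k i d = Loc.opT k d) ∧
    (∀ k, Loc.opT k d * ∑ i, Loc.opE (k + 1) i d = Loc.opT k d) ∧
    (∀ k i, Loc.opT k d * Loc.opE k i d = Loc.opE (k + 1) i d * Loc.opT k d) ∧
    (∀ k i, Loc.opT k d * Loc.opE (k + 1) i d = Loc.opE k i d * Loc.opT k d) ∧
    (∀ k l i, l ≠ k → l ≠ k + 1 → Loc.opT k d * Loc.opE l i d = Loc.opE l i d * Loc.opT k d) ∧
    (∀ k l, l ≠ k → l ≠ k + 1 → Loc.opT k d * Loc.opX l d = Loc.opX l d * Loc.opT k d) ∧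
    (∀ k l, k + 1 < l → Loc.opT k d * Loc.opT l d = Loc.opT l d * Loc.opT k d)

/-- the relations of `t k` with `x k`, `x (k + 1)`, and the square of `t k` -/
def S_rQ (D : Datum K I) : Prop :=
  ∀ (P : Type) [AddCommGroup P] [Module K P] (d : Loc D P),
    (∀ k, Loc.opT k d * Loc.opX k d =
      Loc.opX (k + 1) d * Loc.opT k d - ∑ i, Loc.opE k i d * Loc.opE (k + 1) i d) ∧
    (∀ k, Loc.opT k d * Loc.opX (k + 1) d =
      Loc.opX k d * Loc.opT k d + ∑ i, Loc.opE k i d * Loc.opE (k + 1) i d) ∧
    (∀ k, Loc.opT k d * Loc.opT k d = ∑ i, ∑ j, if i = j then 0 else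
      D.c i j • ((Loc.opX k d - Loc.opX (k + 1) d) ^ D.q i j *
        (Loc.opE k i d * Loc.opE (k + 1) j d)))

/-- the braid relation -/
def S_rB (D : Datum K I) : Prop :=
  ∀ (P : Type) [AddCommGroup P] [Module K P] (d : Loc D P) (k : ℕ),
    Loc.opT (k + 1) d * Loc.opT k d * Loc.opT (k + 1) d -
      Loc.opT k d * Loc.opT (k + 1) d * Loc.opT k d =
    ∑ i, ∑ j, if i = j then 0 else
      D.c i j • ((∑ p ∈ Finset.range (D.q i j),
        (Loc.opX k d - Loc.opX (k + 1) d) ^ p *
          (Loc.opX (k + 2) d - Loc.opX (k + 1) d) ^ (D.q i j - 1 - p)) *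
          (Loc.opE k i d * Loc.opE (k + 1) j d * Loc.opE (k + 2) i d))

theorem rels_of {D : Datum K I} (hE : S_rE D) (hT : S_rT D) (hQ : S_rQ D) (hB : S_rB D) :
    S_rels D := by
  intro P _ _ d
  obtain ⟨h1, h2, h3, h4, h5⟩ := hE P d
  obtain ⟨g1, g2, g3, g4, g5, g6, g7⟩ := hT P d
  obtain ⟨f1, f2, f3⟩ := hQ P d
  exact ⟨h1, h2, h3, h4, h5, g1, g2, g3, g4, g5, g6, f1, f2, f3, g7, hB P d⟩

/-- the action of the KLR algebra on the functions on words -/
noncomputable def rV {D : Datum K I} (h : S_rels D) {P : Type} [AddCommGroup P] [Module K P]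
    (d : Loc D P) : KLRAlg D →ₐ[K] Module.End K (List Bool → P) := liftHom (h P d)

/-- recursion for `rV` -/
def S_rV (D : Datum K I) : Prop := ∀ (h : S_rels D) (P : Type) [AddCommGroup P] [Module K P]
  (d : Loc D P) (a : KLRAlg D) (f : List Bool → P) (w : List Bool),
    (rV h d (D.shn 1 a) f (false :: w) = rV h d.shF a (Loc.tl (K := K) false f) w) ∧
    (rV h d (D.shn 1 a) f (true :: w) = rV h d.shT a (Loc.tl (K := K) true f) w) ∧
    (f [] = 0 → rV h d a f [] = 0)

/-- `iota` is balanced -/
def S_bal (D : Datum K I) : Prop := ∀ (h : S_rels D) (P : Type) [AddCommGroup P] [Module K P]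
  (d : Loc D P) (m n : ℕ), StrandHom D m d.r1 → StrandHom D n d.r2 → ∀ (a : KLRAlg D) (p : P),
    rV h d (D.tr m a) (Loc.iota (K := K) m n p) = Loc.iota (K := K) m n (d.r1 a p) ∧
    rV h d (D.shn m a) (Loc.iota (K := K) m n p) = Loc.iota (K := K) m n (d.r2 a p)

/-- independence of the `tw w (iota p_w)` -/
def S_ind (D : Datum K I) : Prop := ∀ (h : S_rels D) (P : Type) [AddCommGroup P] [Module K P]
  (d : Loc D P) (m n : ℕ), StrandHom D m d.r1 → StrandHom D n d.r2 →
    ∀ (S : Finset (List Bool)), (∀ w ∈ S, w.count false = m ∧ w.count true = n) →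
    ∀ p : List Bool → P, ∑ w ∈ S, rV h d (D.tw w) (Loc.iota (K := K) m n (p w)) = 0 →
    ∀ w ∈ S, p w = 0

/-! ### the deformation -/

/-- the shift of all dots by a central element -/
def S_shift (D : Datum K I) : Prop :=
  ∀ (B : Type) [Ring B] [Algebra K B] (e : ℕ → I → B) (x t : ℕ → B) (z : B), Rels D e x t →
    (∀ k i, z * e k i = e k i * z) → (∀ k, z * x k = x k * z) → (∀ k, z * t k = t k * z) →
    Rels D e (fun k => x k + z * ∑ i, e k i) t

/-- two commuting actions of strands on `U` deform to a `Loc` on `U((1/z))`; `P0` is the lattice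
`U[z]`, `c0` is the coefficient of `z ^ 0` and `s0` is the constant embedding -/
def S_def (D : Datum K I) : Prop :=
  ∀ (m n : ℕ) (U : Type) [AddCommGroup U] [Module K U] (r1 r2 : KLRAlg D →ₐ[K] Module.End K U),
    (∀ a b, r1 a * r2 b = r2 b * r1 a) → StrandHom D m r1 → StrandHom D n r2 →
    ∃ (P : Type) (_ : AddCommGroup P) (_ : Module K P) (d : Loc D P) (z : Module.End K P)
      (P0 : Submodule K P) (c0 : P →ₗ[K] U) (s0 : U →ₗ[K] P),
      StrandHom D m d.r1 ∧ StrandHom D n d.r2 ∧
      (∀ a, z * d.r1 a = d.r1 a * z) ∧ (∀ a, z * d.r2 a = d.r2 a * z) ∧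
      (∀ a, ∀ f ∈ P0, d.r1 a f ∈ P0) ∧ (∀ a, ∀ f ∈ P0, d.r2 a f ∈ P0) ∧ (∀ f ∈ P0, z f ∈ P0) ∧
      (∀ u, s0 u ∈ P0 ∧ c0 (s0 u) = u) ∧
      (∀ f ∈ P0, c0 (z f) = 0 ∧
        (∀ a, c0 (d.r1 a f) = r1 a (c0 f) ∧ c0 (d.r2 a f) = r2 a (c0 f)) ∧
        ∃ g ∈ P0, f - s0 (c0 f) = z g)

end Pbw

end Pool.Agent.KLR
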